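import Pool.Agent.W175.Crit.Local

set_option autoImplicit false

namespace Pool.Agent.W175.Crit

open Classical
open Pool.Agent.H265R2.P5 (NoP5)

universe v

variable {V : Type v}

/-- A long ladder is impossible in a `P₅`-free `(K+1)`-vertex-critical graph without `K₅ - e`
(or without the complement of `P₃ + 2P₁`). -/
theorem ladder_false (G : SimpleGraph V) (hP : NoP5 G) (hH : NoK5e G ∨ NoHp G)
    (K : ℕ) (hnot : ¬ G.Colorable K) (hcrit : ∀ v, (G.induce {v}ᶜ).Colorable K)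
    (x u y q : ℕ → V) (n : ℕ) (L : Lad G x u y q n) (hn : K ^ 4 + 4 ≤ n) : False := by
  obtain ⟨m, hm⟩ : ∃ m, m = K ^ 4 + 1 := ⟨_, rfl⟩
  have hm1 : m + 3 ≤ n := by omega
  obtain ⟨w, hw⟩ : ∃ w, w = u m := ⟨_, rfl⟩
  obtain ⟨φ⟩ := hcrit w
  have hxw : ∀ i, i < n → x i ≠ w := by
    intro i hi h
    have h1 := L.xx i m hi (by omega)
    have h2 := L.xu1 m m (by omega) (by omega) le_rfl
    rw [h, hw] at h1
    exact h1 h2.symm
  have hyw : ∀ i, i < n → y i ≠ w := by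
    intro i hi h
    have h1 := L.yy i m hi (by omega)
    have h2 := L.uy1 m m (by omega) (by omega) le_rfl
    rw [h, hw] at h1
    exact h1 h2
  have hqw : ∀ i, i ≤ m → q i ≠ w := by
    intro i hi h
    have h1 := L.qx0 i m (by omega) (by omega) hi
    have h2 := L.xu1 m m (by omega) (by omega) le_rfl
    rw [h, hw] at h1
    exact h1 h2.symm
  have huw : ∀ i, i < m → u i ≠ w := by
    intro i hi h
    have h1 := L.xu1 i i (by omega) (by omega) le_rfl
    have h2 := L.xu0 i m (by omega) (by omega) hi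
    rw [h, hw] at h1
    exact h2 h1
  let c0 : Fin K := φ ⟨x 0, hxw 0 (by omega)⟩
  let ψ : V → Fin K := fun v => if h : v ≠ w then φ ⟨v, h⟩ else c0
  have hψ : ∀ a b, a ≠ w → b ≠ w → G.Adj a b → ψ a ≠ ψ b := by
    intro a b ha hb hab
    have h1 : ψ a = φ ⟨a, ha⟩ := dif_pos ha
    have h2 : ψ b = φ ⟨b, hb⟩ := dif_pos hb
    rw [h1, h2]
    apply φ.valid
    exact hab
  -- two blocks with the same colours
  obtain ⟨i, i', hii, hi', hc⟩ : ∃ i i', i < i' ∧ i' < m ∧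
      (ψ (x i), ψ (u i), ψ (y i), ψ (q i)) = (ψ (x i'), ψ (u i'), ψ (y i'), ψ (q i')) := by
    obtain ⟨a, ha, b, hb, hne, hab⟩ := Finset.exists_ne_map_eq_of_card_lt_of_maps_to
      (s := Finset.range m) (t := (Finset.univ : Finset (Fin K × Fin K × Fin K × Fin K)))
      (f := fun i => (ψ (x i), ψ (u i), ψ (y i), ψ (q i)))
      (by
        rw [Finset.card_range, Finset.card_univ]
        simp only [Fintype.card_prod, Fintype.card_fin]
        rw [hm]
        have : K * (K * (K * K)) = K ^ 4 := by ring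
        omega)
      (fun _ _ => Finset.mem_univ _)
    rw [Finset.mem_range] at ha hb
    rcases Nat.lt_or_gt_of_ne hne with h | h
    · exact ⟨a, b, h, hb, hab⟩
    · exact ⟨b, a, h, ha, hab.symm⟩
  simp only [Prod.mk.injEq] at hc
  obtain ⟨hcx, hcu, hcy, hcq⟩ := hc
  obtain ⟨αx, hαx⟩ : ∃ c, c = ψ (x i) := ⟨_, rfl⟩
  obtain ⟨αu, hαu⟩ : ∃ c, c = ψ (u i) := ⟨_, rfl⟩
  obtain ⟨αy, hαy⟩ : ∃ c, c = ψ (y i) := ⟨_, rfl⟩
  obtain ⟨αq, hαq⟩ : ∃ c, c = ψ (q i) := ⟨_, rfl⟩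
  rw [← hαx] at hcx
  rw [← hαu] at hcu
  rw [← hαy] at hcy
  rw [← hαq] at hcq
  have hxu : αx ≠ αu := by
    rw [hcx, hαu]
    exact hψ _ _ (hxw _ (by omega)) (huw _ (by omega)) (L.xu1 _ _ (by omega) (by omega) (by omega))
  have huy : αu ≠ αy := by
    rw [hcu, hαy]
    exact hψ _ _ (huw _ (by omega)) (hyw _ (by omega)) (L.uy1 _ _ (by omega) (by omega) (by omega))
  have hyq : αy ≠ αq := by
    rw [hcy, hαq]
    exact hψ _ _ (hyw _ (by omega)) (hqw _ (by omega)) (L.yq1 _ _ (by omega) (by omega) (by omega))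
  have hqx : αq ≠ αx := by
    rw [hcq, hαx]
    exact hψ _ _ (hqw _ (by omega)) (hxw _ (by omega)) (L.qx1 _ _ (by omega) (by omega) (by omega))
  have hxy : αx ≠ αy := by
    rw [hαx, hαy]
    exact hψ _ _ (hxw _ (by omega)) (hyw _ (by omega)) (L.xy _ _ (by omega) (by omega))
  have huq : αu ≠ αq := by
    rw [hαu, hαq]
    exact hψ _ _ (huw _ (by omega)) (hqw _ (by omega)) (L.uq _ _ (by omega) (by omega))
  -- the small ladder
  let f : ℕ → ℕ := fun j => if j = 0 then i else if j = 1 then i' else if j = 2 then m else m + 1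
  have f0 : f 0 = i := rfl
  have f1 : f 1 = i' := rfl
  have f2 : f 2 = m := rfl
  have f3 : f 3 = m + 1 := rfl
  have L4 : Lad G (fun i => x (f i)) (fun i => u (f i)) (fun i => y (f i)) (fun i => q (f i)) 4 := by
    apply L.comp f 4
    · intro a b hab hb
      have h1 : b = 1 ∨ b = 2 ∨ b = 3 := by omega
      have h2 : a = 0 ∨ a = 1 ∨ a = 2 := by omega
      rcases h1 with rfl | rfl | rfl <;> rcases h2 with rfl | rfl | rfl <;>
        simp only [f0, f1, f2, f3] <;> omega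
    · intro a ha
      have h1 : a = 0 ∨ a = 1 ∨ a = 2 ∨ a = 3 := by omega
      rcases h1 with rfl | rfl | rfl | rfl <;> simp only [f0, f1, f2, f3] <;> omega
  have hne : q i ≠ x (m + 1) := by
    intro h
    have h1 := L.uq (m + 2) i (by omega) (by omega)
    have h2 := L.xu0 (m + 1) (m + 2) (by omega) (by omega) (by omega)
    rw [h] at h1
    exact h2 h1.symm
  -- consequences of equal colours
  have nadj : ∀ a b, a ≠ w → b ≠ w → ψ a = ψ b → ¬ G.Adj a b := by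
    intro a b ha hb hab h
    exact hψ a b ha hb h hab
  let RY : V → Prop := fun v => v ≠ w ∧ ψ v = αu ∧ G.Adj w v
  let RZ : V → Prop := fun v => v ≠ w ∧ ψ v = αy ∧ ∃ a, RY a ∧ G.Adj a v
  let RI : V → Prop := fun v => v ≠ w ∧ ψ v = αq ∧ ∃ a, RZ a ∧ G.Adj a v
  let RX : V → Prop := fun v => v ≠ w ∧ ψ v = αx ∧ ∃ a, RI a ∧ G.Adj a v
  have claimA : ∀ U, RX U → ¬ G.Adj U w := by
    rintro U ⟨hUw, hUc, X, ⟨hXw, hXc, Q, ⟨hQw, hQc, Y1, ⟨hYw, hYc, hwY⟩, hYQ⟩, hQX⟩, hXU⟩ hadj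
    rcases hH with h | h
    · refine local_A_K5e G hP h _ _ _ _ L4 Y1 Q X U hne ?_ hYQ hQX hXU ?_ ?_ ?_ ?_ ?_ ?_ ?_ ?_ ?_
      · exact hw ▸ hwY
      · exact nadj _ _ hYw (huw _ (by omega)) (hYc.trans hαu)
      · exact nadj _ _ hQw (hyw _ (by omega)) (hQc.trans hαy)
      · exact nadj _ _ hXw (hqw _ (by omega)) (hXc.trans hαq)
      · exact nadj _ _ hUw (hxw _ (by omega)) (hUc.trans hαx)
      · exact nadj _ _ hYw (huw _ (by omega)) (hYc.trans hcu)
      · exact nadj _ _ hQw (hyw _ (by omega)) (hQc.trans hcy)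
      · exact nadj _ _ hXw (hqw _ (by omega)) (hXc.trans hcq)
      · exact nadj _ _ hUw (hxw _ (by omega)) (hUc.trans hcx)
      · exact hw ▸ hadj
    · refine local_A_Hp G hP h _ _ _ _ L4 Y1 Q X U ?_ hYQ hQX hXU ?_ ?_ ?_ ?_ ?_ ?_ ?_ ?_ ?_
      · exact hw ▸ hwY
      · exact nadj _ _ hYw (huw _ (by omega)) (hYc.trans hαu)
      · exact nadj _ _ hQw (hyw _ (by omega)) (hQc.trans hαy)
      · exact nadj _ _ hXw (hqw _ (by omega)) (hXc.trans hαq)
      · exact nadj _ _ hUw (hxw _ (by omega)) (hUc.trans hαx)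
      · exact nadj _ _ hYw (huw _ (by omega)) (hYc.trans hcu)
      · exact nadj _ _ hQw (hyw _ (by omega)) (hQc.trans hcy)
      · exact nadj _ _ hXw (hqw _ (by omega)) (hXc.trans hcq)
      · exact nadj _ _ hUw (hxw _ (by omega)) (hUc.trans hcx)
      · exact hw ▸ hadj
  have claimB : ∀ U b, RX U → b ≠ w → ψ b = αu → G.Adj U b → G.Adj w b := by
    rintro U Y2 ⟨hUw, hUc, X, ⟨hXw, hXc, Q, ⟨hQw, hQc, Y1, ⟨hYw, hYc, hwY⟩, hYQ⟩, hQX⟩, hXU⟩
      hbw hbc hUb
    by_contra hcon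
    rcases hH with h | h
    · obtain ⟨p, hp1, hp2⟩ : ∃ p, G.Adj p w ∧ ¬ G.Adj p U := by
        by_contra hno
        push Not at hno
        apply hnot
        refine ⟨SimpleGraph.Coloring.mk (fun v => if v = w then ψ U else ψ v) ?_⟩
        intro a b hab
        by_cases ha : a = w <;> by_cases hb : b = w
        · exact absurd (ha.trans hb.symm) hab.ne
        · rw [if_pos ha, if_neg hb]
          exact hψ _ _ hUw hb (hno b (ha ▸ hab.symm)).symm
        · rw [if_neg ha, if_pos hb]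
          exact hψ _ _ ha hUw (hno a (hb ▸ hab))
        · rw [if_neg ha, if_neg hb]
          exact hψ _ _ ha hb hab
      refine local_B_K5e G hP h _ _ _ _ L4 Y1 Q X U Y2 p hne ?_ hYQ hQX hXU ?_ ?_ ?_ ?_ ?_ ?_ ?_ ?_
        hUb ?_ ?_ ?_ ?_ ?_ hp2
      · exact hw ▸ hwY
      · exact nadj _ _ hYw (huw _ (by omega)) (hYc.trans hαu)
      · exact nadj _ _ hQw (hyw _ (by omega)) (hQc.trans hαy)
      · exact nadj _ _ hXw (hqw _ (by omega)) (hXc.trans hαq)
      · exact nadj _ _ hUw (hxw _ (by omega)) (hUc.trans hαx)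
      · exact nadj _ _ hYw (huw _ (by omega)) (hYc.trans hcu)
      · exact nadj _ _ hQw (hyw _ (by omega)) (hQc.trans hcy)
      · exact nadj _ _ hXw (hqw _ (by omega)) (hXc.trans hcq)
      · exact nadj _ _ hUw (hxw _ (by omega)) (hUc.trans hcx)
      · exact fun h' => hcon (hw ▸ h'.symm)
      · exact nadj _ _ hYw hbw (hYc.trans hbc.symm)
      · exact nadj _ _ hbw (huw _ (by omega)) (hbc.trans hαu)
      · exact nadj _ _ hbw (huw _ (by omega)) (hbc.trans hcu)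
      · exact hw ▸ hp1
    · refine local_B_Hp G hP h _ _ _ _ L4 Y1 Q X U Y2 ?_ hYQ hQX hXU ?_ ?_ ?_ ?_ ?_ ?_ ?_ ?_
        hUb ?_ ?_ ?_ ?_
      · exact hw ▸ hwY
      · exact nadj _ _ hYw (huw _ (by omega)) (hYc.trans hαu)
      · exact nadj _ _ hQw (hyw _ (by omega)) (hQc.trans hαy)
      · exact nadj _ _ hXw (hqw _ (by omega)) (hXc.trans hαq)
      · exact nadj _ _ hUw (hxw _ (by omega)) (hUc.trans hαx)
      · exact nadj _ _ hYw (huw _ (by omega)) (hYc.trans hcu)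
      · exact nadj _ _ hQw (hyw _ (by omega)) (hQc.trans hcy)
      · exact nadj _ _ hXw (hqw _ (by omega)) (hXc.trans hcq)
      · exact nadj _ _ hUw (hxw _ (by omega)) (hUc.trans hcx)
      · exact fun h' => hcon (hw ▸ h'.symm)
      · exact nadj _ _ hYw hbw (hYc.trans hbc.symm)
      · exact nadj _ _ hbw (huw _ (by omega)) (hbc.trans hαu)
      · exact nadj _ _ hbw (huw _ (by omega)) (hbc.trans hcu)
  -- the new colouring
  let χ : V → Fin K := fun v => if v = w then αu else if RY v then αy else if RZ v then αq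
    else if RI v then αx else if RX v then αu else ψ v
  have hcases : ∀ v, (v = w ∧ χ v = αu) ∨ (RY v ∧ χ v = αy) ∨ (RZ v ∧ χ v = αq) ∨
      (RI v ∧ χ v = αx) ∨ (RX v ∧ χ v = αu) ∨
      ((v ≠ w ∧ ¬ RY v ∧ ¬ RZ v ∧ ¬ RI v ∧ ¬ RX v) ∧ χ v = ψ v) := by
    intro v
    by_cases h0 : v = w
    · left
      exact ⟨h0, if_pos h0⟩
    right
    by_cases h1 : RY v
    · left
      exact ⟨h1, by simp only [χ, if_neg h0, if_pos h1]⟩
    right
    by_cases h2 : RZ v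
    · left
      exact ⟨h2, by simp only [χ, if_neg h0, if_neg h1, if_pos h2]⟩
    right
    by_cases h3 : RI v
    · left
      exact ⟨h3, by simp only [χ, if_neg h0, if_neg h1, if_neg h2, if_pos h3]⟩
    right
    by_cases h4 : RX v
    · left
      exact ⟨h4, by simp only [χ, if_neg h0, if_neg h1, if_neg h2, if_neg h3, if_pos h4]⟩
    right
    exact ⟨⟨h0, h1, h2, h3, h4⟩,
      by simp only [χ, if_neg h0, if_neg h1, if_neg h2, if_neg h3, if_neg h4]⟩
  apply hnot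
  refine ⟨SimpleGraph.Coloring.mk χ ?_⟩
  -- mixed cases with an uncoloured partner
  have hWO : ∀ b, G.Adj w b → b ≠ w → ¬ RY b → ψ b ≠ αu := fun b hb h1 h2 h3 =>
    h2 ⟨h1, h3, hb⟩
  have hYO : ∀ a b, RY a → G.Adj a b → b ≠ w → ¬ RZ b → ψ b ≠ αy := fun a b ha hab h1 h2 h3 =>
    h2 ⟨h1, h3, a, ha, hab⟩
  have hZO : ∀ a b, RZ a → G.Adj a b → b ≠ w → ¬ RI b → ψ b ≠ αq := fun a b ha hab h1 h2 h3 =>
    h2 ⟨h1, h3, a, ha, hab⟩
  have hIO : ∀ a b, RI a → G.Adj a b → b ≠ w → ¬ RX b → ψ b ≠ αx := fun a b ha hab h1 h2 h3 =>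
    h2 ⟨h1, h3, a, ha, hab⟩
  have hXO : ∀ a b, RX a → G.Adj a b → b ≠ w → ¬ RY b → ψ b ≠ αu := fun a b ha hab h1 h2 h3 =>
    h2 ⟨h1, h3, claimB a b ha h1 h3 hab⟩
  intro a b hab
  rcases hcases a with ⟨ha, ea⟩ | ⟨ha, ea⟩ | ⟨ha, ea⟩ | ⟨ha, ea⟩ | ⟨ha, ea⟩ |
      ⟨⟨a0, a1, a2, a3, a4⟩, ea⟩ <;>
    rcases hcases b with ⟨hb, eb⟩ | ⟨hb, eb⟩ | ⟨hb, eb⟩ | ⟨hb, eb⟩ | ⟨hb, eb⟩ |
      ⟨⟨b0, b1, b2, b3, b4⟩, eb⟩ <;>
    rw [ea, eb]
  · exact absurd (ha.trans hb.symm) hab.ne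
  · exact huy
  · exact huq
  · exact hxu.symm
  · exact absurd (ha ▸ hab.symm) (claimA b hb)
  · exact (hWO b (ha ▸ hab) b0 b1).symm
  · exact huy.symm
  · exact absurd (ha.2.1.trans hb.2.1.symm) (hψ a b ha.1 hb.1 hab)
  · exact hyq
  · exact hxy.symm
  · exact huy.symm
  · exact (hYO a b ha hab b0 b2).symm
  · exact huq.symm
  · exact hyq.symm
  · exact absurd (ha.2.1.trans hb.2.1.symm) (hψ a b ha.1 hb.1 hab)
  · exact hqx
  · exact huq.symm
  · exact (hZO a b ha hab b0 b3).symm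
  · exact hxu
  · exact hxy
  · exact hqx.symm
  · exact absurd (ha.2.1.trans hb.2.1.symm) (hψ a b ha.1 hb.1 hab)
  · exact hxu
  · exact (hIO a b ha hab b0 b4).symm
  · exact absurd (hb ▸ hab) (claimA a ha)
  · exact huy
  · exact huq
  · exact hxu.symm
  · exact absurd (ha.2.1.trans hb.2.1.symm) (hψ a b ha.1 hb.1 hab)
  · exact (hXO a b ha hab b0 b1).symm
  · exact hWO a (hb ▸ hab.symm) a0 a1
  · exact hYO b a hb hab.symm a0 a2
  · exact hZO b a hb hab.symm a0 a3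
  · exact hIO b a hb hab.symm a0 a4
  · exact hXO b a hb hab.symm a0 a1
  · exact hψ a b a0 b0 hab

end Pool.Agent.W175.Crit
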