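import Pool.Agent.W175.Crit.ZStep
import Pool.Agent.W175.Crit.Recolor

set_option autoImplicit false

namespace Pool.Agent.W175.Crit

open Finset Classical
open Pool.Agent.H265R2.CritP4 (nb mem_nb nb_subset ramsey)
open Pool.Agent.H265R2.P5 (NoP5 cross5 Reach Chain big_chain thr)

universe v

variable {V : Type v}

/-- A sufficiently long chain is impossible. -/
theorem chain_false [Fintype V] (G : SimpleGraph V) (hP : NoP5 G) (hH : NoK5e G ∨ NoHp G)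
    (K : ℕ) (hnot : ¬ G.Colorable K) (hcol : G.Colorable (K + 1))
    (hcrit : ∀ v, (G.induce {v}ᶜ).Colorable K) (I : Finset V)
    (hI : ∀ x ∈ I, ∀ y ∈ I, ¬ G.Adj x y) (u : ℕ → V) (m0 m1 m2 m3 B : ℕ)
    (hB : B = (3 * K + 1) * (K + 2) + 1)
    (h3 : m3 = (K ^ 4 + 4 + 1) * (B + 6) + 2)
    (h2 : m2 = 2 ^ (2 ^ ((m3 + 2) + ((1 * K + 1) * (K + 2) + 1)) + 4) + 1)
    (h1 : m1 = 2 * 2 ^ (((1 * K + 1) * (K + 2) + 1) + m2) + 1 + 5 * ((1 * K + 1) * (K + 2)))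
    (h0 : m0 = (2 * ((2 * K + 1) * (K + 2))) * m1 + 1) (hu : Chain G I 2 u m0) : False := by
  have hm0 : 0 < m0 := by omega
  obtain ⟨z1, hz1, z2, hz2, hzz⟩ := Finset.one_lt_card.1 (hu.big (m0 - 1) (by omega))
  have hsub : ∀ i, i < m0 → nb G I (u (m0 - 1)) ⊆ nb G I (u i) := by
    intro i hi
    rcases Nat.eq_or_lt_of_le (Nat.le_sub_one_of_lt hi) with h | h
    · rw [h]
    · exact hu.sub i (m0 - 1) h (by omega)
  have hz1I := (mem_nb.1 hz1).1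
  have hz2I := (mem_nb.1 hz2).1
  have D : DC G I z1 z2 u m0 :=
    { inB := fun i hi => ⟨hu.out i hi, (mem_nb.1 (hsub i hi hz1)).2,
        (mem_nb.1 (hsub i hi hz2)).2⟩
      nadj := hu.nadj
      sub := hu.sub
      strict := fun i j hij hj => by
        have h := hu.gap i j hij hj
        obtain ⟨x, hx⟩ := Finset.card_pos.1 (by omega :
          0 < (nb G I (u i) \ nb G I (u j)).card)
        rw [Finset.mem_sdiff] at hx
        exact ⟨x, hx.1, hx.2⟩ }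
  obtain ⟨f, hf1, hf2, hf3⟩ := exists_comp_chain G hP I hI z1 z2 hz1I hz2I K hnot hcrit hcol u m0
    m1 D (by omega)
  have D1 := D.comp f m1 hf1 hf2
  have hm1 : 0 < m1 := by omega
  have hT := noTri G hP I hI z1 z2 hz1I hz2I K hnot hcrit hcol hH hzz _ m1 D1 (by omega) hf3
  have hC := noPent G hP I hI z1 z2 hz1I hz2I K hnot hcrit hcol _ m1 D1 (by omega) hf3 hT
  obtain ⟨g, hg1, hg2, hg3⟩ := exists_inc G hP I hI z1 z2 hz1I hz2I K hnot hcrit hcol _ m1 m2 D1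
    (by omega) hf3 hT hC
  have D2 := D1.comp g m2 hg1 hg2
  obtain ⟨v, y, L⟩ := exists_y G hP I hI z1 z2 hz1I hz2I K hnot hcrit hcol (u (f 0))
    (D1.inB 0 hm1) _ m2 m3 D2 (fun i hi => hf3 0 (g i) hm1 (hg2 i hi)) hT hC hg3 (by omega)
  obtain ⟨x', u', y', q', L4⟩ := exists_ladder G hP hH I hI z1 z2 hz1I hz2I K hnot hcrit hcol v y
    m3 L (K ^ 4 + 4) B hB (by omega)
  exact ladder_false G hP hH K hnot hcrit x' u' y' q' _ L4 le_rfl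

/-- The order of the `(K+1)`-vertex-critical `P₅`-free graphs without `K₅ - e`, or without the
complement of `P₃ + 2P₁`, is bounded. -/
theorem order_bound_two (K : ℕ) : ∃ N : ℕ, ∀ (V : Type) [Fintype V] (G : SimpleGraph V),
    ¬ G.Colorable K → G.Colorable (K + 1) → (∀ v, (G.induce {v}ᶜ).Colorable K) → NoP5 G →
    (NoK5e G ∨ NoHp G) → Fintype.card V < N := by
  obtain ⟨B, hB⟩ : ∃ B, B = (3 * K + 1) * (K + 2) + 1 := ⟨_, rfl⟩
  obtain ⟨m3, h3⟩ : ∃ m3, m3 = (K ^ 4 + 4 + 1) * (B + 6) + 2 := ⟨_, rfl⟩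
  obtain ⟨m2, h2⟩ : ∃ m2, m2 = 2 ^ (2 ^ ((m3 + 2) + ((1 * K + 1) * (K + 2) + 1)) + 4) + 1 :=
    ⟨_, rfl⟩
  obtain ⟨m1, h1⟩ : ∃ m1, m1 = 2 * 2 ^ (((1 * K + 1) * (K + 2) + 1) + m2) + 1 +
    5 * ((1 * K + 1) * (K + 2)) := ⟨_, rfl⟩
  obtain ⟨m0, h0⟩ : ∃ m0, m0 = (2 * ((2 * K + 1) * (K + 2))) * m1 + 1 := ⟨_, rfl⟩
  obtain ⟨N, hN⟩ : ∃ N, N = 2 ^ ((K + 2) + thr 2 (K + 1) K (2 ^ ((K + 1 + 1) + m0))) := ⟨_, rfl⟩
  refine ⟨N, ?_⟩
  intro V _ G hnot hcol hcrit hP hH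
  by_contra hcon
  obtain ⟨I, hI, u, hu⟩ := big_chain G hP K hnot hcol hcrit 2 m0 (by omega)
    (hN ▸ not_lt.1 hcon)
  exact chain_false G hP hH K hnot hcol hcrit I hI u m0 m1 m2 m3 B hB h3 h2 h1 h0 hu

end Pool.Agent.W175.Crit
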