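import Mathlib

set_option autoImplicit false

namespace Pool.Agent.W175.Crit

/-- The circular clique: points on a circle of `4 p + 1` places, adjacent when their distance is
at least `p` in both directions. -/
def Circ (p : ℕ) (hp : 1 ≤ p) : SimpleGraph (Fin (4 * p + 1)) where
  Adj i j := (p ≤ (i : ℕ) - (j : ℕ) ∧ (i : ℕ) - (j : ℕ) ≤ 3 * p + 1) ∨
    (p ≤ (j : ℕ) - (i : ℕ) ∧ (j : ℕ) - (i : ℕ) ≤ 3 * p + 1)
  symm := ⟨by
    intro i j h
    exact h.symm⟩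
  loopless := ⟨by
    intro i h
    rw [Nat.sub_self] at h
    omega⟩

theorem Circ.adj {p : ℕ} {hp : 1 ≤ p} {i j : Fin (4 * p + 1)} : (Circ p hp).Adj i j ↔
    ((p ≤ (i : ℕ) - (j : ℕ) ∧ (i : ℕ) - (j : ℕ) ≤ 3 * p + 1) ∨
    (p ≤ (j : ℕ) - (i : ℕ) ∧ (j : ℕ) - (i : ℕ) ≤ 3 * p + 1)) := Iff.rfl

/-- Two disjoint anticomplete edges do not exist. -/
theorem Circ.no2 {p : ℕ} (hp : 1 ≤ p) (a b d e : Fin (4 * p + 1)) (h1 : (Circ p hp).Adj a b)
    (h2 : (Circ p hp).Adj d e) (h3 : ¬ (Circ p hp).Adj a d) (h4 : ¬ (Circ p hp).Adj a e)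
    (h5 : ¬ (Circ p hp).Adj b d) (h6 : ¬ (Circ p hp).Adj b e) : False := by
  rw [Circ.adj] at *
  have ha := a.2
  have hb := b.2
  have hd := d.2
  have he := e.2
  generalize (a : ℕ) = a' at *
  generalize (b : ℕ) = b' at *
  generalize (d : ℕ) = d' at *
  generalize (e : ℕ) = e' at *
  omega

theorem Circ.adj_mod {p : ℕ} (hp : 1 ≤ p) (a b : ℕ) (h1 : p ≤ b - a) (h2 : b - a ≤ 3 * p + 1) :
    (Circ p hp).Adj ⟨a % (4 * p + 1), Nat.mod_lt _ (by omega)⟩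
      ⟨b % (4 * p + 1), Nat.mod_lt _ (by omega)⟩ := by
  rw [Circ.adj]
  simp only
  obtain ⟨d, rfl⟩ : ∃ d, b = a + d := ⟨b - a, by omega⟩
  have hd1 : p ≤ d := by omega
  have hd2 : d ≤ 3 * p + 1 := by omega
  have hr := Nat.mod_lt a (show 0 < 4 * p + 1 by omega)
  rw [Nat.add_mod, Nat.mod_eq_of_lt (show d < 4 * p + 1 by omega)]
  generalize a % (4 * p + 1) = r at *
  by_cases h : r + d < 4 * p + 1
  · rw [Nat.mod_eq_of_lt h]
    right
    omega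
  · rw [Nat.mod_eq_sub_mod (by omega), Nat.mod_eq_of_lt (by omega)]
    left
    omega

theorem Circ.not_four {p : ℕ} (hp : 1 ≤ p) : ¬ (Circ p hp).Colorable 4 := by
  rintro ⟨φ⟩
  let c : ℕ → Fin 4 := fun k => φ ⟨k % (4 * p + 1), Nat.mod_lt _ (by omega)⟩
  have hc : ∀ a b, p ≤ b - a → b - a ≤ 3 * p + 1 → c a ≠ c b := fun a b h1 h2 =>
    φ.valid (Circ.adj_mod hp a b h1 h2)
  have hfin : ∀ a0 a1 a2 a3 a4 : Fin 4, a0 ≠ a1 → a0 ≠ a2 → a0 ≠ a3 → a1 ≠ a2 → a1 ≠ a3 →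
      a2 ≠ a3 → a1 ≠ a4 → a2 ≠ a4 → a3 ≠ a4 → a0 = a4 := by decide
  have h1 : ∀ k, c k = c (k + 4 * p) := fun k =>
    hfin (c k) (c (k + p)) (c (k + 2 * p)) (c (k + 3 * p)) (c (k + 4 * p))
      (hc _ _ (by omega) (by omega)) (hc _ _ (by omega) (by omega)) (hc _ _ (by omega) (by omega))
      (hc _ _ (by omega) (by omega)) (hc _ _ (by omega) (by omega)) (hc _ _ (by omega) (by omega))
      (hc _ _ (by omega) (by omega)) (hc _ _ (by omega) (by omega)) (hc _ _ (by omega) (by omega))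
  have h2 : ∀ k, c (k + 4 * p + 1) = c k := by
    intro k
    simp only [c]
    congr 1
    ext
    show (k + 4 * p + 1) % (4 * p + 1) = k % (4 * p + 1)
    rw [add_assoc, Nat.add_mod_right]
  have h3 : ∀ k, c (k + 1) = c k := by
    intro k
    have e1 := h1 (k + 1)
    have e2 := h2 k
    have e3 : k + 1 + 4 * p = k + 4 * p + 1 := by ring
    rw [e3] at e1
    rw [e1, e2]
  have h4 : ∀ k, c k = c 0 := by
    intro k
    induction k with
    | zero => rfl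
    | succ k ih => rw [h3, ih]
  exact hc 0 p (by omega) (by omega) (h4 p).symm

theorem Circ.five {p : ℕ} (hp : 1 ≤ p) : (Circ p hp).Colorable 5 := by
  refine ⟨SimpleGraph.Coloring.mk (fun i => (⟨(i : ℕ) / p, ?_⟩ : Fin 5)) ?_⟩
  · rw [Nat.div_lt_iff_lt_mul (by omega)]
    have := i.2
    omega
  · intro i j hij h
    have h' : (i : ℕ) / p = (j : ℕ) / p := congrArg Fin.val h
    rw [Circ.adj] at hij
    have hi1 := Nat.div_add_mod (i : ℕ) p
    have hj1 := Nat.div_add_mod (j : ℕ) p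
    have hi2 := Nat.mod_lt (i : ℕ) (show 0 < p by omega)
    have hj2 := Nat.mod_lt (j : ℕ) (show 0 < p by omega)
    rw [h'] at hi1
    omega

/-- The position of `i` after `v`. -/
def Circ.pos (p : ℕ) (v i : ℕ) : ℕ := if v < i then i - v - 1 else i + 4 * p - v

theorem Circ.pos_spec (p v i : ℕ) : (v < i ∧ Circ.pos p v i = i - v - 1) ∨
    (i ≤ v ∧ Circ.pos p v i = i + 4 * p - v) := by
  unfold Circ.pos
  split_ifs <;> omega

theorem Circ.num (p v i j P Q : ℕ) (hp : 1 ≤ p) (hq : P / p = Q / p)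
    (hi : (v < i ∧ P = i - v - 1) ∨ (i ≤ v ∧ P = i + 4 * p - v))
    (hj : (v < j ∧ Q = j - v - 1) ∨ (j ≤ v ∧ Q = j + 4 * p - v))
    (hiv : i ≠ v) (hjv : j ≠ v) (hin : i < 4 * p + 1) (hjn : j < 4 * p + 1) (hvn : v < 4 * p + 1)
    (h : (p ≤ i - j ∧ i - j ≤ 3 * p + 1) ∨ (p ≤ j - i ∧ j - i ≤ 3 * p + 1)) : False := by
  have hi1 := Nat.div_add_mod P p
  have hj1 := Nat.div_add_mod Q p
  have hi2 := Nat.mod_lt P (show 0 < p by omega)
  have hj2 := Nat.mod_lt Q (show 0 < p by omega)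
  rw [hq] at hi1
  generalize p * (Q / p) = t at *
  generalize P % p = r at *
  generalize Q % p = s at *
  omega

theorem Circ.del {p : ℕ} (hp : 1 ≤ p) (v : Fin (4 * p + 1)) :
    ((Circ p hp).induce {v}ᶜ).Colorable 4 := by
  have hpos : ∀ i : Fin (4 * p + 1), i ≠ v → Circ.pos p v i < 4 * p := by
    intro i hi
    have h1 : (i : ℕ) ≠ (v : ℕ) := fun h => hi (Fin.ext h)
    have h2 := i.2
    unfold Circ.pos
    split_ifs <;> omega
  refine ⟨SimpleGraph.Coloring.mk (fun i => (⟨Circ.pos p v i.1 / p, ?_⟩ : Fin 4)) ?_⟩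
  · rw [Nat.div_lt_iff_lt_mul (by omega)]
    exact hpos i.1 i.2
  · intro i j hij h
    have h' : Circ.pos p v i.1 / p = Circ.pos p v j.1 / p := congrArg Fin.val h
    have hij' : (Circ p hp).Adj i.1 j.1 := hij
    rw [Circ.adj] at hij'
    have hi3 : ((i.1 : Fin (4 * p + 1)) : ℕ) ≠ (v : ℕ) := fun h => i.2 (Fin.ext h)
    have hj3 : ((j.1 : Fin (4 * p + 1)) : ℕ) ≠ (v : ℕ) := fun h => j.2 (Fin.ext h)
    exact Circ.num p v _ _ _ _ hp h' (Circ.pos_spec p v (i.1 : Fin (4 * p + 1)))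
      (Circ.pos_spec p v (j.1 : Fin (4 * p + 1))) hi3 hj3 (i.1 : Fin (4 * p + 1)).2
      (j.1 : Fin (4 * p + 1)).2 v.2 hij'

end Pool.Agent.W175.Crit
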