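import Pool.Agent.W175.Crit.Defs

set_option autoImplicit false

namespace Pool.Agent.W175.Crit

open Finset Classical
open Pool.Agent.H265R2.CritP4 (nb mem_nb nb_subset ramsey)
open Pool.Agent.H265R2.P5 (NoP5 cross5 Reach ordered_color not_mixed_twice)

universe v

variable {V : Type v}

/-- The vertices outside `I` that see both `z1` and `z2`. -/
def BB (G : SimpleGraph V) (I : Finset V) (z1 z2 : V) (w : V) : Prop :=
  w ∉ I ∧ G.Adj w z1 ∧ G.Adj w z2

/-- A chain of vertices of `BB` with strictly decreasing neighbourhoods in `I`. -/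
structure DC (G : SimpleGraph V) (I : Finset V) (z1 z2 : V) (u : ℕ → V) (m : ℕ) : Prop where
  inB : ∀ i, i < m → BB G I z1 z2 (u i)
  nadj : ∀ i j, i < m → j < m → ¬ G.Adj (u i) (u j)
  sub : ∀ i j, i < j → j < m → nb G I (u j) ⊆ nb G I (u i)
  strict : ∀ i j, i < j → j < m → ∃ x ∈ nb G I (u i), x ∉ nb G I (u j)

theorem DC.comp {G : SimpleGraph V} {I : Finset V} {z1 z2 : V} {u : ℕ → V} {m : ℕ}
    (D : DC G I z1 z2 u m) (f : ℕ → ℕ) (M : ℕ) (hf : ∀ i j, i < j → j < M → f i < f j)
    (hn : ∀ i, i < M → f i < m) : DC G I z1 z2 (fun i => u (f i)) M :=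
  { inB := fun i hi => D.inB _ (hn i hi)
    nadj := fun i j hi hj => D.nadj _ _ (hn i hi) (hn j hj)
    sub := fun i j hij hj => D.sub _ _ (hf i j hij hj) (hn j hj)
    strict := fun i j hij hj => D.strict _ _ (hf i j hij hj) (hn j hj) }

/-- Increasing enumeration of a finite set of naturals. -/
theorem enum (S : Finset ℕ) : ∃ f : ℕ → ℕ, (∀ i j, i < j → j < S.card → f i < f j) ∧
    ∀ i, i < S.card → f i ∈ S := by
  let e := S.orderEmbOfFin rfl
  refine ⟨fun i => if h : i < S.card then e ⟨i, h⟩ else 0, ?_, ?_⟩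
  · intro i j hij hj
    simp only [dif_pos hj, dif_pos (hij.trans hj)]
    exact e.strictMono (by exact hij)
  · intro i hi
    simp only [dif_pos hi]
    exact S.orderEmbOfFin_mem rfl _

/-- Ramsey's theorem for sequences. -/
theorem ramsey_seq (R : ℕ → ℕ → Prop) (a b m : ℕ) (hm : 2 ^ (a + b) ≤ m) :
    (∃ f : ℕ → ℕ, (∀ i j, i < j → j < a → f i < f j) ∧ (∀ i, i < a → f i < m) ∧
      ∀ i j, i < j → j < a → R (f i) (f j)) ∨
    (∃ f : ℕ → ℕ, (∀ i j, i < j → j < b → f i < f j) ∧ (∀ i, i < b → f i < m) ∧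
      ∀ i j, i < j → j < b → ¬ R (f i) (f j)) := by
  let H : SimpleGraph ℕ := SimpleGraph.fromRel (fun i j => i < j ∧ R i j)
  have hH : ∀ i j, i < j → (H.Adj i j ↔ R i j) := by
    intro i j hij
    rw [SimpleGraph.fromRel_adj]
    constructor
    · rintro ⟨_, h | h⟩
      · exact h.2
      · omega
    · intro h
      exact ⟨by omega, Or.inl ⟨hij, h⟩⟩
  rcases ramsey H _ a b le_rfl (Finset.range m) (by simpa using hm) with
    ⟨T, hT, hc, hadj⟩ | ⟨T, hT, hc, hadj⟩
  · left
    obtain ⟨f, hf1, hf2⟩ := enum T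
    rw [hc] at hf1 hf2
    refine ⟨f, hf1, fun i hi => Finset.mem_range.1 (hT (hf2 i hi)), ?_⟩
    intro i j hij hj
    have h := hf1 i j hij hj
    exact (hH _ _ h).1 (hadj _ (hf2 i (hij.trans hj)) _ (hf2 j hj) (by omega))
  · right
    obtain ⟨f, hf1, hf2⟩ := enum T
    rw [hc] at hf1 hf2
    refine ⟨f, hf1, fun i hi => Finset.mem_range.1 (hT (hf2 i hi)), ?_⟩
    intro i j hij hj
    have h := hf1 i j hij hj
    exact fun hR => hadj _ (hf2 i (hij.trans hj)) _ (hf2 j hj) ((hH _ _ h).2 hR)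

/-- A vertex `q` that misses `z`, sees `t`, and misses two vertices `v`, `v'` with increasing
traces creates a `P₅`. -/
theorem lemA {G : SimpleGraph V} (hP : NoP5 G) {q t z v v' x x' : V} (hqt : G.Adj q t)
    (htz : G.Adj t z) (hvz : G.Adj v z) (hvz' : G.Adj v' z) (hqz : ¬ G.Adj q z)
    (hqv : ¬ G.Adj q v) (hqv' : ¬ G.Adj q v') (htv : ¬ G.Adj t v) (htv' : ¬ G.Adj t v')
    (hvx : G.Adj v x) (hvx' : G.Adj v' x') (htx : ¬ G.Adj t x) (htx' : ¬ G.Adj t x')
    (hv'x : ¬ G.Adj v' x) (hzx : ¬ G.Adj z x) (hzx' : ¬ G.Adj z x') (hxx' : ¬ G.Adj x x') :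
    False := by
  have h1 : G.Adj q x := by
    by_contra h
    exact hP q t z v x hqt htz hvz.symm hvx hqz hqv h htv htx hzx
  have h2 : G.Adj q x' := by
    by_contra h
    exact hP q t z v' x' hqt htz hvz'.symm hvx' hqz hqv' h htv' htx' hzx'
  exact hP x q x' v' z h1.symm h2 hvx'.symm hvz' hxx' (fun h => hv'x h.symm)
    (fun h => hzx h.symm) hqv' hqz (fun h => hzx' h.symm)

section

variable (G : SimpleGraph V) (hP : NoP5 G) (I : Finset V)
  (hI : ∀ x ∈ I, ∀ y ∈ I, ¬ G.Adj x y) (z1 z2 : V) (hz1 : z1 ∈ I) (hz2 : z2 ∈ I)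

include hP hI hz1 in
theorem nested (a b : V) (ha : BB G I z1 z2 a) (hb : BB G I z1 z2 b) (hab : ¬ G.Adj a b) :
    nb G I a ⊆ nb G I b ∨ nb G I b ⊆ nb G I a := by
  rcases cross5 G hP I hI a b hab with h | h | h
  · exact Or.inl h
  · exact Or.inr h
  · exfalso
    exact Finset.disjoint_left.1 h (mem_nb.2 ⟨hz1, ha.2.1⟩) (mem_nb.2 ⟨hz1, hb.2.1⟩)

theorem reach_inB {p y : V} (hp : BB G I z1 z2 p) (h : Reach G (BB G I z1 z2) p y) :
    BB G I z1 z2 y := Reach.mem hp h

theorem reach_step {p y w : V} (hp : BB G I z1 z2 p) (h : Reach G (BB G I z1 z2) p y)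
    (hw : BB G I z1 z2 w) (hyw : G.Adj y w) : Reach G (BB G I z1 z2) p w :=
  h.tail ⟨reach_inB G I z1 z2 hp h, hw, hyw⟩

theorem comp_anti {p r a b : V} (hp : BB G I z1 z2 p) (hr : BB G I z1 z2 r)
    (hsep : ¬ Reach G (BB G I z1 z2) p r) (ha : Reach G (BB G I z1 z2) p a)
    (hb : Reach G (BB G I z1 z2) r b) : ¬ G.Adj a b := by
  intro hab
  exact hsep ((reach_step G I z1 z2 hp ha (reach_inB G I z1 z2 hr hb) hab).trans
    (Reach.symm' hb))

include hP hI hz1 in
/-- Components with nonconstant traces are linearly ordered. -/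
theorem N_lemma (p r : V) (hp : BB G I z1 z2 p) (hr : BB G I z1 z2 r)
    (hsub : nb G I r ⊆ nb G I p) (x' : V) (hx'p : x' ∈ nb G I p) (hx'r : x' ∉ nb G I r)
    (hsep : ¬ Reach G (BB G I z1 z2) p r)
    (hcp : ∃ p', Reach G (BB G I z1 z2) p p' ∧ nb G I p' ≠ nb G I p)
    (hcr : ∃ r', Reach G (BB G I z1 z2) r r' ∧ nb G I r' ≠ nb G I r) :
    ∀ t y, Reach G (BB G I z1 z2) r t → Reach G (BB G I z1 z2) p y →
      nb G I t ⊆ nb G I y := by
  have hnest : ∀ a b, Reach G (BB G I z1 z2) p a → Reach G (BB G I z1 z2) r b →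
      nb G I a ⊆ nb G I b ∨ nb G I b ⊆ nb G I a := fun a b ha hb =>
    nested G hP I hI z1 z2 hz1 a b (reach_inB G I z1 z2 hp ha) (reach_inB G I z1 z2 hr hb)
      (comp_anti G I z1 z2 hp hr hsep ha hb)
  have hmix : ∀ a a' b b' x, Reach G (BB G I z1 z2) p a → Reach G (BB G I z1 z2) p a' →
      Reach G (BB G I z1 z2) r b → Reach G (BB G I z1 z2) r b' → x ∈ nb G I a → x ∉ nb G I a' →
      x ∈ nb G I b → x ∉ nb G I b' → False := by
    intro a a' b b' x ha ha' hb hb' h1 h2 h3 h4
    have hxI := (mem_nb.1 h1).1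
    refine not_mixed_twice G hP (q := x) ((Reach.symm' ha).trans ha') (mem_nb.1 h1).2.symm
      (fun h => h2 (mem_nb.2 ⟨hxI, h.symm⟩)) ((Reach.symm' hb).trans hb') (mem_nb.1 h3).2.symm
      (fun h => h4 (mem_nb.2 ⟨hxI, h.symm⟩)) ?_
    intro c d hc hd
    exact comp_anti G I z1 z2 hp hr hsep (ha.trans hc) (hb.trans hd)
  have hpp : Reach G (BB G I z1 z2) p p := Relation.ReflTransGen.refl
  have hrr : Reach G (BB G I z1 z2) r r := Relation.ReflTransGen.refl
  obtain ⟨p', hp', hpne⟩ := hcp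
  obtain ⟨r', hr', hrne⟩ := hcr
  intro t y ht hy x hxt
  by_contra hxy
  by_cases hxp : x ∈ nb G I p
  · -- `x` is mixed on the component of `p`, hence complete to the component of `r`
    have hxc : ∀ b, Reach G (BB G I z1 z2) r b → x ∈ nb G I b := by
      intro b hb
      by_contra h
      exact hmix p y t b x hpp hy ht hb hxp hxy hxt h
    have hyr : nb G I y ⊆ nb G I r := by
      rcases hnest y r hy hrr with h | h
      · exact h
      · exact absurd (h (hxc r hrr)) hxy
    have hx'y : x' ∉ nb G I y := fun h => hx'r (hyr h)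
    have hx'c : ∀ b, Reach G (BB G I z1 z2) r b → x' ∉ nb G I b := by
      intro b hb h
      exact hmix p y b r x' hpp hy hb hrr hx'p hx'y h hx'r
    have hyr' : nb G I y ⊆ nb G I r' := by
      rcases hnest y r' hy hr' with h | h
      · exact h
      · exact absurd (h (hxc r' hr')) hxy
    have hr'p : nb G I r' ⊆ nb G I p := by
      rcases hnest p r' hpp hr' with h | h
      · exact absurd (h hx'p) (hx'c r' hr')
      · exact h
    apply hrne
    apply Finset.Subset.antisymm
    · intro e he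
      by_contra hne
      apply hne
      apply hyr
      by_contra hey
      exact hmix p y r' r e hpp hy hr' hrr (hr'p he) hey he hne
    · intro e he
      by_contra hne
      apply hne
      apply hyr'
      by_contra hey
      exact hmix p y r r' e hpp hy hrr hr' (hsub he) hey he hne
  · have hxr : x ∉ nb G I r := fun h => hxp (hsub h)
    have hxa : ∀ a, Reach G (BB G I z1 z2) p a → x ∉ nb G I a := by
      intro a ha h
      exact hmix a p t r x ha hpp ht hrr h hxp hxt hxr
    have hat : ∀ a, Reach G (BB G I z1 z2) p a → nb G I a ⊆ nb G I t := by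
      intro a ha
      rcases hnest a t ha ht with h | h
      · exact h
      · exact absurd (h hxt) (hxa a ha)
    have hx't : x' ∈ nb G I t := hat p hpp hx'p
    have hx'p' : x' ∈ nb G I p' := by
      by_contra h
      exact hmix p p' t r x' hpp hp' ht hrr hx'p h hx't hx'r
    have hrp' : nb G I r ⊆ nb G I p' := by
      rcases hnest p' r hp' hrr with h | h
      · exact absurd (h hx'p') hx'r
      · exact h
    apply hpne
    apply Finset.Subset.antisymm
    · intro e he
      by_contra hne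
      apply hne
      apply hsub
      by_contra her
      exact hmix p' p t r e hp' hpp ht hrr he hne (hat p' hp' he) her
    · intro e he
      by_contra hne
      apply hne
      apply hrp'
      by_contra her
      exact hmix p p' t r e hpp hp' ht hrr he hne (hat p hpp he) her

variable [Fintype V] (K : ℕ) (hnot : ¬ G.Colorable K)
  (hcrit : ∀ v, (G.induce {v}ᶜ).Colorable K) (hcol : G.Colorable (K + 1))

include hP hI hz1 hz2 hnot hcrit hcol

/-- There are few components whose traces are separated. -/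
theorem sep_bound (w : ℕ → V) (h : ℕ) (hB : ∀ i, i < h → BB G I z1 z2 (w i))
    (hsep : ∀ i j, i < j → j < h → ¬ Reach G (BB G I z1 z2) (w i) (w j))
    (hN : ∀ i j, i < j → j < h → ∀ t y, Reach G (BB G I z1 z2) (w j) t →
      Reach G (BB G I z1 z2) (w i) y → nb G I t ⊆ nb G I y)
    (ha : ∀ i, i + 1 < h → ∃ a e, Reach G (BB G I z1 z2) (w i) a ∧ e ∈ nb G I a ∧
      ∀ j t, i < j → j < h → Reach G (BB G I z1 z2) (w j) t → e ∉ nb G I t) :
    h ≤ (2 * K + 1) * (K + 2) := by
  let W : ℕ → Finset V := fun i => Finset.univ.filter (fun y => Reach G (BB G I z1 z2) (w i) y)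
  have hW : ∀ i y, y ∈ W i ↔ Reach G (BB G I z1 z2) (w i) y := by
    intro i y; simp [W]
  refine ordered_color G K hnot hcrit hcol h W ?_ ?_ 2 ?_
  · intro i hi
    exact ⟨w i, (hW i _).2 Relation.ReflTransGen.refl⟩
  · intro i j hij hj x hx y hy
    rw [hW] at hx hy
    refine ⟨?_, comp_anti G I z1 z2 (hB i (hij.trans hj)) (hB j hj) (hsep i j hij hj) hx hy⟩
    rintro rfl
    exact hsep i j hij hj (hx.trans (Reach.symm' hy))
  · intro q j hj hq ⟨t, ht, hqt⟩
    rw [hW] at hq ht
    have htB := reach_inB G I z1 z2 (hB j hj) ht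
    have hqB : ¬ BB G I z1 z2 q := fun hqB => hq (reach_step G I z1 z2 (hB j hj) ht hqB hqt.symm)
    by_contra hcon
    push Not at hcon
    have hqI : q ∉ I := by
      intro hqI
      obtain ⟨i, hi⟩ := Finset.card_pos.1 (by omega : 0 < ((Finset.range j).filter
        (fun i => ∃ y ∈ W i, ¬ G.Adj q y)).card)
      rw [Finset.mem_filter, Finset.mem_range] at hi
      obtain ⟨hij, y, hy, hqy⟩ := hi
      rw [hW] at hy
      exact hqy (mem_nb.1 (hN i j hij hj t y ht hy (mem_nb.2 ⟨hqI, hqt.symm⟩))).2.symm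
    obtain ⟨z, hz, hzB, hqz⟩ : ∃ z ∈ I, (∀ b, BB G I z1 z2 b → G.Adj b z) ∧ ¬ G.Adj q z := by
      by_cases h1 : G.Adj q z1
      · by_cases h2 : G.Adj q z2
        · exact absurd ⟨hqI, h1, h2⟩ hqB
        · exact ⟨z2, hz2, fun b hb => hb.2.2, h2⟩
      · exact ⟨z1, hz1, fun b hb => hb.2.1, h1⟩
    -- two missed components are impossible
    have hanti : ∀ i i', i < i' → i' < j → (∀ y, Reach G (BB G I z1 z2) (w i) y → ¬ G.Adj q y) →
        (∀ y, Reach G (BB G I z1 z2) (w i') y → ¬ G.Adj q y) → False := by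
      intro i i' hii hij hm1 hm2
      obtain ⟨a, e, hra, hea, he⟩ := ha i (by omega)
      obtain ⟨a', e', hra', hea', he'⟩ := ha i' (by omega)
      have haB := reach_inB G I z1 z2 (hB i (by omega)) hra
      have haB' := reach_inB G I z1 z2 (hB i' (by omega)) hra'
      have heI := (mem_nb.1 hea).1
      have heI' := (mem_nb.1 hea').1
      refine lemA hP (q := q) (t := t) (z := z) (v := a) (v' := a') (x := e) (x' := e') hqt
        (hzB t htB) (hzB a haB) (hzB a' haB') hqz (hm1 a hra) (hm2 a' hra') ?_ ?_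
        (mem_nb.1 hea).2 (mem_nb.1 hea').2 ?_ ?_ ?_ (hI z hz e heI) (hI z hz e' heI')
        (hI e heI e' heI')
      · exact fun hh => comp_anti G I z1 z2 (hB i (by omega)) (hB j hj)
          (hsep i j (by omega) hj) hra ht hh.symm
      · exact fun hh => comp_anti G I z1 z2 (hB i' (by omega)) (hB j hj)
          (hsep i' j (by omega) hj) hra' ht hh.symm
      · exact fun hh => he j t (by omega) hj ht (mem_nb.2 ⟨heI, hh⟩)
      · exact fun hh => he' j t (by omega) hj ht (mem_nb.2 ⟨heI', hh⟩)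
      · exact fun hh => he i' a' hii (by omega) hra' (mem_nb.2 ⟨heI, hh⟩)
    -- two mixed components are impossible
    have hmixed : ∀ i i', i < i' → i' < j →
        (∃ y, Reach G (BB G I z1 z2) (w i) y ∧ G.Adj q y) →
        (∃ y, Reach G (BB G I z1 z2) (w i) y ∧ ¬ G.Adj q y) →
        (∃ y, Reach G (BB G I z1 z2) (w i') y ∧ G.Adj q y) →
        (∃ y, Reach G (BB G I z1 z2) (w i') y ∧ ¬ G.Adj q y) → False := by
      rintro i i' hii hij ⟨a, ha1, ha2⟩ ⟨b, hb1, hb2⟩ ⟨c, hc1, hc2⟩ ⟨d, hd1, hd2⟩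
      refine not_mixed_twice G hP (q := q) ((Reach.symm' ha1).trans hb1) ha2 hb2
        ((Reach.symm' hc1).trans hd1) hc2 hd2 ?_
      intro s s' hs hs'
      exact comp_anti G I z1 z2 (hB i (by omega)) (hB i' (by omega))
        (hsep i i' hii (by omega)) (ha1.trans hs) (hc1.trans hs')
    -- choose three bad indices and classify
    have hbad : ∀ i, i ∈ (Finset.range j).filter (fun i => ∃ y ∈ W i, ¬ G.Adj q y) → i < j ∧
        ∃ y, Reach G (BB G I z1 z2) (w i) y ∧ ¬ G.Adj q y := by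
      intro i hi
      rw [Finset.mem_filter, Finset.mem_range] at hi
      obtain ⟨hij, y, hy, hqy⟩ := hi
      exact ⟨hij, y, (hW i y).1 hy, hqy⟩
    obtain ⟨i1, h1, i2, h2, i3, h3, n12, n13, n23⟩ := Finset.two_lt_card.1 hcon
    obtain ⟨l1, b1⟩ := hbad i1 h1
    obtain ⟨l2, b2⟩ := hbad i2 h2
    obtain ⟨l3, b3⟩ := hbad i3 h3
    have key : ∀ i i', i ≠ i' → i < j → i' < j →
        (∃ y, Reach G (BB G I z1 z2) (w i) y ∧ ¬ G.Adj q y) →
        (∃ y, Reach G (BB G I z1 z2) (w i') y ∧ ¬ G.Adj q y) →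
        ((∃ y, Reach G (BB G I z1 z2) (w i) y ∧ G.Adj q y) ↔
          ¬ (∃ y, Reach G (BB G I z1 z2) (w i') y ∧ G.Adj q y)) := by
      intro i i' hne hi hi' hb hb'
      constructor
      · intro h5 h6
        rcases Nat.lt_or_gt_of_ne hne with hlt | hlt
        · exact hmixed i i' hlt hi' h5 hb h6 hb'
        · exact hmixed i' i hlt hi h6 hb' h5 hb
      · intro h5
        by_contra h6
        push Not at h5 h6
        rcases Nat.lt_or_gt_of_ne hne with hlt | hlt
        · exact hanti i i' hlt hi' h6 h5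
        · exact hanti i' i hlt hi h5 h6
    have k12 := key i1 i2 n12 l1 l2 b1 b2
    have k13 := key i1 i3 n13 l1 l3 b1 b3
    have k23 := key i2 i3 n23 l2 l3 b2 b3
    generalize (∃ y, Reach G (BB G I z1 z2) (w i1) y ∧ G.Adj q y) = P1 at k12 k13
    generalize (∃ y, Reach G (BB G I z1 z2) (w i2) y ∧ G.Adj q y) = P2 at k12 k23
    generalize (∃ y, Reach G (BB G I z1 z2) (w i3) y ∧ G.Adj q y) = P3 at k13 k23
    by_cases p1 : P1
    · exact (k12.1 p1) (k23.2 (k13.1 p1))
    · have p2 : P2 := by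
        by_contra h
        exact p1 (k12.2 h)
      have p3 : P3 := by
        by_contra h
        exact p1 (k13.2 h)
      exact k23.1 p2 p3

/-- A long chain has a long subchain inside one component. -/
theorem exists_comp_chain (u : ℕ → V) (m M : ℕ) (D : DC G I z1 z2 u m)
    (hm : (2 * ((2 * K + 1) * (K + 2))) * M < m) :
    ∃ f : ℕ → ℕ, (∀ i j, i < j → j < M → f i < f j) ∧ (∀ i, i < M → f i < m) ∧
      ∀ i j, i < M → j < M → Reach G (BB G I z1 z2) (u (f i)) (u (f j)) := by
  have hex : ∀ i, ∃ i', Reach G (BB G I z1 z2) (u i') (u i) := fun i =>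
    ⟨i, Relation.ReflTransGen.refl⟩
  let rep : ℕ → ℕ := fun i => Nat.find (hex i)
  have hrep1 : ∀ i, Reach G (BB G I z1 z2) (u (rep i)) (u i) := fun i => Nat.find_spec (hex i)
  have hrep2 : ∀ i i', Reach G (BB G I z1 z2) (u i') (u i) → rep i ≤ i' := fun i i' h =>
    Nat.find_min' (hex i) h
  have hrep3 : ∀ i, rep i ≤ i := fun i => hrep2 i i Relation.ReflTransGen.refl
  let S : Finset ℕ := (Finset.range m).image rep
  have hSm : ∀ r ∈ S, r < m := by
    intro r hr
    obtain ⟨i, hi, rfl⟩ := Finset.mem_image.1 hr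
    exact lt_of_le_of_lt (hrep3 i) (Finset.mem_range.1 hi)
  have hSsep : ∀ r ∈ S, ∀ s ∈ S, r < s → ¬ Reach G (BB G I z1 z2) (u r) (u s) := by
    intro r hr s hs hrs h
    obtain ⟨i, hi, rfl⟩ := Finset.mem_image.1 hs
    have := hrep2 i r (h.trans (hrep1 i))
    omega
  let cst : ℕ → Prop := fun r => ∀ y, Reach G (BB G I z1 z2) (u r) y → nb G I y = nb G I (u r)
  have hc : (S.filter cst).card ≤ (2 * K + 1) * (K + 2) := by
    obtain ⟨f, hf1, hf2⟩ := enum (S.filter cst)
    have hf3 : ∀ i, i < (S.filter cst).card → f i ∈ S ∧ cst (f i) := fun i hi =>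
      Finset.mem_filter.1 (hf2 i hi)
    refine sep_bound G hP I hI z1 z2 hz1 hz2 K hnot hcrit hcol (fun i => u (f i)) _ ?_ ?_ ?_ ?_
    · intro i hi
      exact D.inB _ (hSm _ (hf3 i hi).1)
    · intro i j hij hj
      exact hSsep _ (hf3 i (hij.trans hj)).1 _ (hf3 j hj).1 (hf1 i j hij hj)
    · intro i j hij hj t y ht hy
      rw [(hf3 j hj).2 t ht, (hf3 i (hij.trans hj)).2 y hy]
      exact D.sub _ _ (hf1 i j hij hj) (hSm _ (hf3 j hj).1)
    · intro i hi
      obtain ⟨e, he1, he2⟩ := D.strict (f i) (f (i + 1)) (hf1 i (i + 1) (by omega) hi)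
        (hSm _ (hf3 _ hi).1)
      refine ⟨u (f i), e, Relation.ReflTransGen.refl, he1, ?_⟩
      intro j t hij hj ht he
      apply he2
      rw [(hf3 j hj).2 t ht] at he
      rcases Nat.eq_or_lt_of_le (Nat.succ_le_of_lt hij) with h | h
      · have h' : i + 1 = j := h
        rw [h']
        exact he
      · exact D.sub _ _ (hf1 (i + 1) j h hj) (hSm _ (hf3 j hj).1) he
  have hn : (S.filter (fun r => ¬ cst r)).card ≤ (2 * K + 1) * (K + 2) := by
    obtain ⟨f, hf1, hf2⟩ := enum (S.filter (fun r => ¬ cst r))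
    have hf3 : ∀ i, i < (S.filter (fun r => ¬ cst r)).card → f i ∈ S ∧ ¬ cst (f i) := fun i hi =>
      Finset.mem_filter.1 (hf2 i hi)
    have hf4 : ∀ i, i < (S.filter (fun r => ¬ cst r)).card →
        ∃ p', Reach G (BB G I z1 z2) (u (f i)) p' ∧ nb G I p' ≠ nb G I (u (f i)) := by
      intro i hi
      have := (hf3 i hi).2
      simp only [cst] at this
      push Not at this
      exact this
    have hN : ∀ i j, i < j → j < (S.filter (fun r => ¬ cst r)).card → ∀ t y,
        Reach G (BB G I z1 z2) (u (f j)) t →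
        Reach G (BB G I z1 z2) (u (f i)) y → nb G I t ⊆ nb G I y := by
      intro i j hij hj
      have hjm := hSm _ (hf3 j hj).1
      have hlt := hf1 i j hij hj
      obtain ⟨x', hx1, hx2⟩ := D.strict (f i) (f j) hlt hjm
      exact N_lemma G hP I hI z1 z2 hz1 (u (f i)) (u (f j)) (D.inB _ (hlt.trans hjm))
        (D.inB _ hjm) (D.sub _ _ hlt hjm) x' hx1 hx2
        (hSsep _ (hf3 i (hij.trans hj)).1 _ (hf3 j hj).1 hlt) (hf4 i (hij.trans hj)) (hf4 j hj)
    refine sep_bound G hP I hI z1 z2 hz1 hz2 K hnot hcrit hcol (fun i => u (f i)) _ ?_ ?_ hN ?_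
    · intro i hi
      exact D.inB _ (hSm _ (hf3 i hi).1)
    · intro i j hij hj
      exact hSsep _ (hf3 i (hij.trans hj)).1 _ (hf3 j hj).1 (hf1 i j hij hj)
    · intro i hi
      obtain ⟨p', hp', hne⟩ := hf4 i (by omega)
      have : ∃ a b e, Reach G (BB G I z1 z2) (u (f i)) a ∧ Reach G (BB G I z1 z2) (u (f i)) b ∧
          e ∈ nb G I a ∧ e ∉ nb G I b := by
        by_contra hcon
        push Not at hcon
        apply hne
        apply Finset.Subset.antisymm
        · intro e he
          exact hcon p' (u (f i)) e hp' Relation.ReflTransGen.refl he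
        · intro e he
          exact hcon (u (f i)) p' e Relation.ReflTransGen.refl hp' he
      obtain ⟨a, b, e, hra, hrb, hea, heb⟩ := this
      exact ⟨a, e, hra, hea, fun j t hij hj ht he => heb (hN i j hij hj t b ht hrb he)⟩
  have hScard : S.card ≤ 2 * ((2 * K + 1) * (K + 2)) := by
    have := Finset.card_filter_add_card_filter_not (s := S) cst
    omega
  obtain ⟨r, hr, hfib⟩ := Finset.exists_lt_card_fiber_of_mul_lt_card_of_maps_to
    (s := Finset.range m) (t := S) (f := rep) (n := M)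
    (fun i hi => Finset.mem_image_of_mem rep hi)
    (by
      rw [Finset.card_range]
      exact lt_of_le_of_lt (Nat.mul_le_mul_right M hScard) hm)
  obtain ⟨f, hf1, hf2⟩ := enum ((Finset.range m).filter (fun i => rep i = r))
  have hf3 : ∀ i, i < M → f i < m ∧ rep (f i) = r := by
    intro i hi
    have := Finset.mem_filter.1 (hf2 i (hi.trans hfib))
    exact ⟨Finset.mem_range.1 this.1, this.2⟩
  refine ⟨f, fun i j hij hj => hf1 i j hij (hj.trans hfib), fun i hi => (hf3 i hi).1, ?_⟩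
  intro i j hi hj
  have h1 := hrep1 (f i)
  have h2 := hrep1 (f j)
  rw [(hf3 i hi).2] at h1
  rw [(hf3 j hj).2] at h2
  exact (Reach.symm' h1).trans h2

end

end Pool.Agent.W175.Crit
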