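import Pool.Agent.H265R2.P5f

set_option autoImplicit false

namespace Pool.Agent.W175.Crit

open Pool.Agent.H265R2.P5 (NoP5)

universe v

variable {V : Type v}

/-- No induced `K₅ - e`: `a`, `b` are the two nonadjacent vertices. -/
def NoK5e (G : SimpleGraph V) : Prop :=
  ∀ a b c d e : V, a ≠ b → ¬ G.Adj a b → G.Adj a c → G.Adj a d → G.Adj a e → G.Adj b c →
    G.Adj b d → G.Adj b e → G.Adj c d → G.Adj c e → G.Adj d e → False

/-- No induced complement of `P₃ + 2P₁`: the clique `a, b, c, d` and the vertex `v` which is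
adjacent to exactly `a` and `b`. -/
def NoHp (G : SimpleGraph V) : Prop :=
  ∀ v a b c d : V, G.Adj v a → G.Adj v b → ¬ G.Adj v c → ¬ G.Adj v d → G.Adj a b → G.Adj a c →
    G.Adj a d → G.Adj b c → G.Adj b d → G.Adj c d → False

/-- A ladder: four independent sequences, opposite ones complete to each other and consecutive
ones forming half graphs; in the linear order `q 0 < y 0 < u 0 < x 0 < q 1 < y 1 < ⋯` a vertex
`x l` sees the earlier `u j`, a vertex `u j` the earlier `y i`, a vertex `y j` the earlier `q i`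
and a vertex `q i` the earlier `x l`. -/
structure Lad (G : SimpleGraph V) (x u y q : ℕ → V) (n : ℕ) : Prop where
  xx : ∀ i j, i < n → j < n → ¬ G.Adj (x i) (x j)
  uu : ∀ i j, i < n → j < n → ¬ G.Adj (u i) (u j)
  yy : ∀ i j, i < n → j < n → ¬ G.Adj (y i) (y j)
  qq : ∀ i j, i < n → j < n → ¬ G.Adj (q i) (q j)
  xy : ∀ i j, i < n → j < n → G.Adj (x i) (y j)
  uq : ∀ i j, i < n → j < n → G.Adj (u i) (q j)
  xu1 : ∀ i j, i < n → j < n → j ≤ i → G.Adj (x i) (u j)
  xu0 : ∀ i j, i < n → j < n → i < j → ¬ G.Adj (x i) (u j)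
  uy1 : ∀ i j, i < n → j < n → j ≤ i → G.Adj (u i) (y j)
  uy0 : ∀ i j, i < n → j < n → i < j → ¬ G.Adj (u i) (y j)
  yq1 : ∀ i j, i < n → j < n → j ≤ i → G.Adj (y i) (q j)
  yq0 : ∀ i j, i < n → j < n → i < j → ¬ G.Adj (y i) (q j)
  qx1 : ∀ i j, i < n → j < n → j < i → G.Adj (q i) (x j)
  qx0 : ∀ i j, i < n → j < n → i ≤ j → ¬ G.Adj (q i) (x j)

theorem Lad.comp {G : SimpleGraph V} {x u y q : ℕ → V} {n : ℕ} (L : Lad G x u y q n)
    (f : ℕ → ℕ) (m : ℕ) (hf : ∀ i j, i < j → j < m → f i < f j) (hn : ∀ i, i < m → f i < n) :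
    Lad G (fun i => x (f i)) (fun i => u (f i)) (fun i => y (f i)) (fun i => q (f i)) m := by
  have hle : ∀ i j, i ≤ j → j < m → f i ≤ f j := by
    intro i j hij hj
    rcases Nat.eq_or_lt_of_le hij with h | h
    · rw [h]
    · exact (hf i j h hj).le
  exact
    { xx := fun i j hi hj => L.xx _ _ (hn i hi) (hn j hj)
      uu := fun i j hi hj => L.uu _ _ (hn i hi) (hn j hj)
      yy := fun i j hi hj => L.yy _ _ (hn i hi) (hn j hj)
      qq := fun i j hi hj => L.qq _ _ (hn i hi) (hn j hj)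
      xy := fun i j hi hj => L.xy _ _ (hn i hi) (hn j hj)
      uq := fun i j hi hj => L.uq _ _ (hn i hi) (hn j hj)
      xu1 := fun i j hi hj h => L.xu1 _ _ (hn i hi) (hn j hj) (hle j i h hi)
      xu0 := fun i j hi hj h => L.xu0 _ _ (hn i hi) (hn j hj) (hf i j h hj)
      uy1 := fun i j hi hj h => L.uy1 _ _ (hn i hi) (hn j hj) (hle j i h hi)
      uy0 := fun i j hi hj h => L.uy0 _ _ (hn i hi) (hn j hj) (hf i j h hj)
      yq1 := fun i j hi hj h => L.yq1 _ _ (hn i hi) (hn j hj) (hle j i h hi)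
      yq0 := fun i j hi hj h => L.yq0 _ _ (hn i hi) (hn j hj) (hf i j h hj)
      qx1 := fun i j hi hj h => L.qx1 _ _ (hn i hi) (hn j hj) (hf j i h hi)
      qx0 := fun i j hi hj h => L.qx0 _ _ (hn i hi) (hn j hj) (hle i j h hj) }

end Pool.Agent.W175.Crit
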