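import Pool.Agent.W175.Crit.Defs

set_option autoImplicit false

namespace Pool.Agent.W175.Crit

open Pool.Agent.H265R2.P5 (NoP5)

universe v

variable {V : Type v}

theorem local_A_K5e (G : SimpleGraph V) (hP : NoP5 G) (hH : NoK5e G) (x u y q : ℕ → V) (L : Lad G x u y q 4)
    (Y1 Q X U : V) (hne : q 0 ≠ x 3)
    (hu2Y1 : G.Adj (u 2) Y1)
    (hY1Q : G.Adj Y1 Q)
    (hQX : G.Adj Q X)
    (hXU : G.Adj X U)
    (hnY1u0 : ¬ G.Adj Y1 (u 0))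
    (hnQy0 : ¬ G.Adj Q (y 0))
    (hnXq0 : ¬ G.Adj X (q 0))
    (hnUx0 : ¬ G.Adj U (x 0))
    (hnY1u1 : ¬ G.Adj Y1 (u 1))
    (hnQy1 : ¬ G.Adj Q (y 1))
    (hnXq1 : ¬ G.Adj X (q 1))
    (hnUx1 : ¬ G.Adj U (x 1))
    (hUu2 : G.Adj U (u 2)) :
    False := by
  have l_0_1 : G.Adj (x 0) (u 0) := L.xu1 0 0 (by norm_num) (by norm_num) (by norm_num)
  have l_0_2 : G.Adj (x 0) (y 0) := L.xy 0 0 (by norm_num) (by norm_num)
  have l_0_3 : ¬ G.Adj (x 0) (q 0) := fun h => L.qx0 0 0 (by norm_num) (by norm_num) (by norm_num) h.symm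
  have l_0_4 : ¬ G.Adj (x 0) (x 1) := L.xx 0 1 (by norm_num) (by norm_num)
  have l_0_5 : ¬ G.Adj (x 0) (u 1) := L.xu0 0 1 (by norm_num) (by norm_num) (by norm_num)
  have l_0_6 : G.Adj (x 0) (y 1) := L.xy 0 1 (by norm_num) (by norm_num)
  have l_0_7 : G.Adj (x 0) (q 1) := (L.qx1 1 0 (by norm_num) (by norm_num) (by norm_num)).symm
  have l_0_8 : ¬ G.Adj (x 0) (x 2) := L.xx 0 2 (by norm_num) (by norm_num)
  have l_0_9 : ¬ G.Adj (x 0) (u 2) := L.xu0 0 2 (by norm_num) (by norm_num) (by norm_num)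
  have l_0_10 : G.Adj (x 0) (y 2) := L.xy 0 2 (by norm_num) (by norm_num)
  have l_0_13 : ¬ G.Adj (x 0) (u 3) := L.xu0 0 3 (by norm_num) (by norm_num) (by norm_num)
  have l_0_14 : G.Adj (x 0) (y 3) := L.xy 0 3 (by norm_num) (by norm_num)
  have l_1_2 : G.Adj (u 0) (y 0) := L.uy1 0 0 (by norm_num) (by norm_num) (by norm_num)
  have l_1_3 : G.Adj (u 0) (q 0) := L.uq 0 0 (by norm_num) (by norm_num)
  have l_1_4 : G.Adj (u 0) (x 1) := (L.xu1 1 0 (by norm_num) (by norm_num) (by norm_num)).symm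
  have l_1_5 : ¬ G.Adj (u 0) (u 1) := L.uu 0 1 (by norm_num) (by norm_num)
  have l_1_6 : ¬ G.Adj (u 0) (y 1) := L.uy0 0 1 (by norm_num) (by norm_num) (by norm_num)
  have l_1_8 : G.Adj (u 0) (x 2) := (L.xu1 2 0 (by norm_num) (by norm_num) (by norm_num)).symm
  have l_1_9 : ¬ G.Adj (u 0) (u 2) := L.uu 0 2 (by norm_num) (by norm_num)
  have l_1_10 : ¬ G.Adj (u 0) (y 2) := L.uy0 0 2 (by norm_num) (by norm_num) (by norm_num)
  have l_1_13 : ¬ G.Adj (u 0) (u 3) := L.uu 0 3 (by norm_num) (by norm_num)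
  have l_2_3 : G.Adj (y 0) (q 0) := L.yq1 0 0 (by norm_num) (by norm_num) (by norm_num)
  have l_2_4 : G.Adj (y 0) (x 1) := (L.xy 1 0 (by norm_num) (by norm_num)).symm
  have l_2_5 : G.Adj (y 0) (u 1) := (L.uy1 1 0 (by norm_num) (by norm_num) (by norm_num)).symm
  have l_2_6 : ¬ G.Adj (y 0) (y 1) := L.yy 0 1 (by norm_num) (by norm_num)
  have l_2_7 : ¬ G.Adj (y 0) (q 1) := L.yq0 0 1 (by norm_num) (by norm_num) (by norm_num)
  have l_2_8 : G.Adj (y 0) (x 2) := (L.xy 2 0 (by norm_num) (by norm_num)).symm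
  have l_2_9 : G.Adj (y 0) (u 2) := (L.uy1 2 0 (by norm_num) (by norm_num) (by norm_num)).symm
  have l_2_10 : ¬ G.Adj (y 0) (y 2) := L.yy 0 2 (by norm_num) (by norm_num)
  have l_2_13 : G.Adj (y 0) (u 3) := (L.uy1 3 0 (by norm_num) (by norm_num) (by norm_num)).symm
  have l_3_5 : G.Adj (q 0) (u 1) := (L.uq 1 0 (by norm_num) (by norm_num)).symm
  have l_3_6 : G.Adj (q 0) (y 1) := (L.yq1 1 0 (by norm_num) (by norm_num) (by norm_num)).symm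
  have l_3_7 : ¬ G.Adj (q 0) (q 1) := L.qq 0 1 (by norm_num) (by norm_num)
  have l_3_8 : ¬ G.Adj (q 0) (x 2) := L.qx0 0 2 (by norm_num) (by norm_num) (by norm_num)
  have l_3_9 : G.Adj (q 0) (u 2) := (L.uq 2 0 (by norm_num) (by norm_num)).symm
  have l_3_10 : G.Adj (q 0) (y 2) := (L.yq1 2 0 (by norm_num) (by norm_num) (by norm_num)).symm
  have l_3_13 : G.Adj (q 0) (u 3) := (L.uq 3 0 (by norm_num) (by norm_num)).symm
  have l_4_5 : G.Adj (x 1) (u 1) := L.xu1 1 1 (by norm_num) (by norm_num) (by norm_num)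
  have l_4_7 : ¬ G.Adj (x 1) (q 1) := fun h => L.qx0 1 1 (by norm_num) (by norm_num) (by norm_num) h.symm
  have l_4_9 : ¬ G.Adj (x 1) (u 2) := L.xu0 1 2 (by norm_num) (by norm_num) (by norm_num)
  have l_5_6 : G.Adj (u 1) (y 1) := L.uy1 1 1 (by norm_num) (by norm_num) (by norm_num)
  have l_5_7 : G.Adj (u 1) (q 1) := L.uq 1 1 (by norm_num) (by norm_num)
  have l_5_8 : G.Adj (u 1) (x 2) := (L.xu1 2 1 (by norm_num) (by norm_num) (by norm_num)).symm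
  have l_5_9 : ¬ G.Adj (u 1) (u 2) := L.uu 1 2 (by norm_num) (by norm_num)
  have l_5_10 : ¬ G.Adj (u 1) (y 2) := L.uy0 1 2 (by norm_num) (by norm_num) (by norm_num)
  have l_5_14 : ¬ G.Adj (u 1) (y 3) := L.uy0 1 3 (by norm_num) (by norm_num) (by norm_num)
  have l_6_7 : G.Adj (y 1) (q 1) := L.yq1 1 1 (by norm_num) (by norm_num) (by norm_num)
  have l_6_8 : G.Adj (y 1) (x 2) := (L.xy 2 1 (by norm_num) (by norm_num)).symm
  have l_6_9 : G.Adj (y 1) (u 2) := (L.uy1 2 1 (by norm_num) (by norm_num) (by norm_num)).symm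
  have l_6_13 : G.Adj (y 1) (u 3) := (L.uy1 3 1 (by norm_num) (by norm_num) (by norm_num)).symm
  have l_6_14 : ¬ G.Adj (y 1) (y 3) := L.yy 1 3 (by norm_num) (by norm_num)
  have l_7_8 : ¬ G.Adj (q 1) (x 2) := L.qx0 1 2 (by norm_num) (by norm_num) (by norm_num)
  have l_7_9 : G.Adj (q 1) (u 2) := (L.uq 2 1 (by norm_num) (by norm_num)).symm
  have l_7_10 : G.Adj (q 1) (y 2) := (L.yq1 2 1 (by norm_num) (by norm_num) (by norm_num)).symm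
  have l_7_13 : G.Adj (q 1) (u 3) := (L.uq 3 1 (by norm_num) (by norm_num)).symm
  have l_8_9 : G.Adj (x 2) (u 2) := L.xu1 2 2 (by norm_num) (by norm_num) (by norm_num)
  have l_8_13 : ¬ G.Adj (x 2) (u 3) := L.xu0 2 3 (by norm_num) (by norm_num) (by norm_num)
  have l_9_10 : G.Adj (u 2) (y 2) := L.uy1 2 2 (by norm_num) (by norm_num) (by norm_num)
  have l_9_13 : ¬ G.Adj (u 2) (u 3) := L.uu 2 3 (by norm_num) (by norm_num)
  have l_9_14 : ¬ G.Adj (u 2) (y 3) := L.uy0 2 3 (by norm_num) (by norm_num) (by norm_num)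
  have l_10_13 : G.Adj (y 2) (u 3) := (L.uy1 3 2 (by norm_num) (by norm_num) (by norm_num)).symm
  have l_13_14 : G.Adj (u 3) (y 3) := L.uy1 3 3 (by norm_num) (by norm_num) (by norm_num)
  have g_9_16 : G.Adj (u 2) Y1 := hu2Y1
  have g_16_17 : G.Adj Y1 Q := hY1Q
  have g_17_18 : G.Adj Q X := hQX
  have g_18_19 : G.Adj X U := hXU
  have g_1_16 : ¬ G.Adj (u 0) Y1 := fun h => hnY1u0 h.symm
  have g_2_17 : ¬ G.Adj (y 0) Q := fun h => hnQy0 h.symm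
  have g_3_18 : ¬ G.Adj (q 0) X := fun h => hnXq0 h.symm
  have g_0_19 : ¬ G.Adj (x 0) U := fun h => hnUx0 h.symm
  have g_5_16 : ¬ G.Adj (u 1) Y1 := fun h => hnY1u1 h.symm
  have g_6_17 : ¬ G.Adj (y 1) Q := fun h => hnQy1 h.symm
  have g_7_18 : ¬ G.Adj (q 1) X := fun h => hnXq1 h.symm
  have g_4_19 : ¬ G.Adj (x 1) U := fun h => hnUx1 h.symm
  have g_9_19 : G.Adj (u 2) U := hUu2.symm
  have e_3_16 : G.Adj (q 0) Y1 := by
    by_contra hc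
    have s_0_16 : ¬ G.Adj (x 0) Y1 := fun hd =>
      hP (u 1) (q 0) (u 0) (x 0) Y1 l_3_5.symm l_1_3.symm l_0_1.symm hd (fun h => l_1_5 h.symm) (fun h => l_0_5 h.symm) g_5_16 (fun h => l_0_3 h.symm) hc g_1_16
    exact hP (x 0) (u 0) (q 0) (u 2) Y1 l_0_1 l_1_3 l_3_9 g_9_16 l_0_3 l_0_9 s_0_16 l_1_9 g_1_16 hc
  have e_6_16 : ¬ G.Adj (y 1) Y1 := by
    intro hc
    have s_2_16 : G.Adj (y 0) Y1 := by
      by_contra hd
      exact hP (u 0) (y 0) (u 1) (y 1) Y1 l_1_2 l_2_5 l_5_6 hc l_1_5 l_1_6 g_1_16 l_2_6 hd g_5_16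
    exact hH (y 0) (y 1) (q 0) (u 2) Y1 (fun h => (fun h => l_1_6 h.symm) (h ▸ l_1_2.symm)) l_2_6 l_2_3 l_2_9 s_2_16 l_3_6.symm l_6_9 hc l_3_9 e_3_16 g_9_16
  have e_0_16 : G.Adj (x 0) Y1 := by
    by_contra hc
    exact hP (u 0) (x 0) (y 1) (u 2) Y1 l_0_1.symm l_0_6 l_6_9 g_9_16 l_1_6 l_1_9 g_1_16 l_0_9 hc e_6_16
  have e_14_16 : ¬ G.Adj (y 3) Y1 := fun hc =>
    hP (u 1) (y 1) (u 2) Y1 (y 3) l_5_6 l_6_9 g_9_16 hc.symm l_5_9 g_5_16 l_5_14 e_6_16 l_6_14 l_9_14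
  have e_8_16 : G.Adj (x 2) Y1 := by
    by_contra hc
    exact hP (u 1) (x 2) (u 0) (x 0) Y1 l_5_8 l_1_8.symm l_0_1.symm e_0_16 (fun h => l_1_5 h.symm) (fun h => l_0_5 h.symm) g_5_16 (fun h => l_0_8 h.symm) hc g_1_16
  have e_13_16 : G.Adj (u 3) Y1 := by
    by_contra hc
    exact hP (u 2) Y1 (x 0) (y 3) (u 3) g_9_16 e_0_16.symm l_0_14 l_13_14.symm (fun h => l_0_9 h.symm) l_9_14 l_9_13 (fun h => e_14_16 h.symm) (fun h => hc h.symm) l_0_13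
  have e_2_16 : ¬ G.Adj (y 0) Y1 := fun hc =>
    hH (q 0) (x 2) (y 0) (u 2) Y1 (fun h => l_8_13 (h ▸ l_3_13)) l_3_8 l_2_3.symm l_3_9 e_3_16 l_2_8.symm l_8_9 e_8_16 l_2_9 hc g_9_16
  have e_9_17 : G.Adj (u 2) Q := by
    by_contra hc
    have s_1_17 : ¬ G.Adj (u 0) Q := fun hd =>
      hP (y 1) (u 2) (y 0) (u 0) Q l_6_9 l_2_9.symm l_1_2.symm hd (fun h => l_2_6 h.symm) (fun h => l_1_6 h.symm) g_6_17 (fun h => l_1_9 h.symm) hc g_2_17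
    exact hP (u 0) (y 0) (u 2) Y1 Q l_1_2 l_2_9 g_9_16 g_16_17 l_1_9 g_1_16 s_1_17 e_2_16 g_2_17 hc
  have e_13_17 : G.Adj (u 3) Q := by
    by_contra hc
    have s_1_17 : ¬ G.Adj (u 0) Q := fun hd =>
      hP (y 1) (u 3) (y 0) (u 0) Q l_6_13 l_2_13.symm l_1_2.symm hd (fun h => l_2_6 h.symm) (fun h => l_1_6 h.symm) g_6_17 (fun h => l_1_13 h.symm) hc g_2_17
    exact hP (u 0) (y 0) (u 3) Y1 Q l_1_2 l_2_13 e_13_16 g_16_17 l_1_13 g_1_16 s_1_17 e_2_16 g_2_17 hc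
  have e_3_17 : ¬ G.Adj (q 0) Q := fun hc =>
    hH (u 2) (u 3) (q 0) Y1 Q (fun h => (fun h => l_8_13 h.symm) (h ▸ l_8_9.symm)) l_9_13 l_3_9.symm g_9_16 e_9_17 l_3_13.symm e_13_16 e_13_17 e_3_16 hc g_16_17
  have e_7_17 : ¬ G.Adj (q 1) Q := fun hc =>
    hP (y 0) (q 0) (y 1) (q 1) Q l_2_3 l_3_6 l_6_7 hc l_2_6 l_2_7 g_2_17 l_3_7 e_3_17 g_6_17
  have e_7_16 : G.Adj (q 1) Y1 := by
    by_contra hc
    exact hP (q 1) (y 1) (q 0) Y1 Q l_6_7.symm l_3_6.symm e_3_16 g_16_17 (fun h => l_3_7 h.symm) hc e_7_17 e_6_16 g_6_17 e_3_17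
  have e_16_18 : G.Adj Y1 X := by
    by_contra hc
    have s_2_18 : ¬ G.Adj (y 0) X := fun hd =>
      hP (q 1) Y1 (q 0) (y 0) X e_7_16 e_3_16.symm l_2_3.symm hd (fun h => l_3_7 h.symm) (fun h => l_2_7 h.symm) g_7_18 (fun h => e_2_16 h.symm) hc g_3_18
    exact hP (y 0) (q 0) Y1 Q X l_2_3 e_3_16 g_16_17 g_17_18 e_2_16 g_2_17 s_2_18 e_3_17 g_3_18 hc
  have e_0_18 : ¬ G.Adj (x 0) X := by
    intro hc
    have s_9_18 : G.Adj (u 2) X := by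
      by_contra hd
      exact hP (q 0) (u 2) (q 1) (x 0) X l_3_9 l_7_9.symm l_0_7.symm hc l_3_7 (fun h => l_0_3 h.symm) g_3_18 (fun h => l_0_9 h.symm) hd g_7_18
    have s_13_18 : G.Adj (u 3) X := by
      by_contra hd
      exact hP (q 0) (u 3) (q 1) (x 0) X l_3_13 l_7_13.symm l_0_7.symm hc l_3_7 (fun h => l_0_3 h.symm) g_3_18 (fun h => l_0_13 h.symm) hd g_7_18
    exact hH (u 2) (u 3) Y1 Q X (fun h => (fun h => l_8_13 h.symm) (h ▸ l_8_9.symm)) l_9_13 g_9_16 e_9_17 s_9_18 e_13_16 e_13_17 s_13_18 g_16_17 e_16_18 g_17_18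
  have e_0_17 : G.Adj (x 0) Q := by
    by_contra hc
    have s_9_18 : G.Adj (u 2) X := by
      by_contra hd
      exact hP (x 0) (q 1) (u 2) Q X l_0_7 l_7_9 e_9_17 g_17_18 l_0_9 hc e_0_18 e_7_17 g_7_18 hd
    have s_13_18 : G.Adj (u 3) X := by
      by_contra hd
      exact hP (x 0) (q 1) (u 3) Q X l_0_7 l_7_13 e_13_17 g_17_18 l_0_13 hc e_0_18 e_7_17 g_7_18 hd
    exact hH (u 2) (u 3) Y1 Q X (fun h => (fun h => l_8_13 h.symm) (h ▸ l_8_9.symm)) l_9_13 g_9_16 e_9_17 s_9_18 e_13_16 e_13_17 s_13_18 g_16_17 e_16_18 g_17_18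
  have e_2_18 : G.Adj (y 0) X := by
    by_contra hc
    exact hP (q 0) (y 0) (x 0) Q X l_2_3.symm l_0_2.symm e_0_17 g_17_18 (fun h => l_0_3 h.symm) e_3_17 g_3_18 g_2_17 hc e_0_18
  have e_6_18 : G.Adj (y 1) X := by
    by_contra hc
    exact hP (q 0) (y 1) (x 0) Q X l_3_6 l_0_6.symm e_0_17 g_17_18 (fun h => l_0_3 h.symm) e_3_17 g_3_18 g_6_17 hc e_0_18
  have e_10_18 : G.Adj (y 2) X := by
    by_contra hc
    exact hP (q 1) (y 2) (q 0) (y 0) X l_7_10 l_3_10.symm l_2_3.symm e_2_18 (fun h => l_3_7 h.symm) (fun h => l_2_7 h.symm) g_7_18 (fun h => l_2_10 h.symm) hc g_3_18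
  have e_2_19 : G.Adj (y 0) U := by
    by_contra hc
    have s_7_19 : ¬ G.Adj (q 1) U := fun hd =>
      hP (x 1) (y 0) (x 0) (q 1) U l_2_4.symm l_0_2.symm l_0_7 hd (fun h => l_0_4 h.symm) l_4_7 g_4_19 l_2_7 hc g_0_19
    exact hP (q 1) (x 0) (y 0) X U l_0_7.symm l_0_2 e_2_18 g_18_19 (fun h => l_2_7 h.symm) g_7_18 s_7_19 e_0_18 g_0_19 hc
  have e_8_18 : ¬ G.Adj (x 2) X := by
    intro hc
    have s_5_18 : G.Adj (u 1) X := by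
      by_contra hd
      exact hP (x 0) (q 1) (u 1) (x 2) X l_0_7 l_5_7.symm l_5_8 hc l_0_5 l_0_8 e_0_18 l_7_8 g_7_18 hd
    exact hH (y 0) (y 1) (u 1) (x 2) X (fun h => (fun h => l_1_6 h.symm) (h ▸ l_1_2.symm)) l_2_6 l_2_5 l_2_8 e_2_18 l_5_6.symm l_6_8 e_6_18 l_5_8 s_5_18 hc
  have e_13_18 : ¬ G.Adj (u 3) X := by
    intro hc
    have s_9_18 : G.Adj (u 2) X := by
      by_contra hd
      exact hP (x 2) (u 2) (q 0) (u 3) X l_8_9 l_3_9.symm l_3_13 hc (fun h => l_3_8 h.symm) l_8_13 e_8_18 l_9_13 hd g_3_18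
    exact hH (u 2) (u 3) Y1 Q X (fun h => (fun h => l_8_13 h.symm) (h ▸ l_8_9.symm)) l_9_13 g_9_16 e_9_17 s_9_18 e_13_16 e_13_17 hc g_16_17 e_16_18 g_17_18
  have e_1_19 : G.Adj (u 0) U := by
    by_contra hc
    have s_3_19 : G.Adj (q 0) U := by
      by_contra hd
      exact hP (x 0) (u 0) (q 0) (u 2) U l_0_1 l_1_3 l_3_9 g_9_19 l_0_3 l_0_9 g_0_19 l_1_9 hc hd
    have s_6_19 : G.Adj (y 1) U := by
      by_contra hd
      exact hP (u 0) (x 0) (y 1) (u 2) U l_0_1.symm l_0_6 l_6_9 g_9_19 l_1_6 l_1_9 hc l_0_9 g_0_19 hd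
    exact hH (y 0) (y 1) (q 0) (u 2) U (fun h => (fun h => l_1_6 h.symm) (h ▸ l_1_2.symm)) l_2_6 l_2_3 l_2_9 e_2_19 l_3_6.symm l_6_9 s_6_19 l_3_9 s_3_19 g_9_19
  have e_3_19 : ¬ G.Adj (q 0) U := fun hc =>
    hH (u 0) (u 2) (y 0) (q 0) U (fun h => (fun h => l_0_9 h.symm) (h ▸ l_0_1.symm)) l_1_9 l_1_2 l_1_3 e_1_19 l_2_9.symm l_3_9.symm g_9_19 l_2_3 e_2_19 hc
  have e_5_19 : G.Adj (u 1) U := by
    by_contra hc
    exact hP (u 1) (x 1) (u 0) U (u 2) l_4_5.symm l_1_4.symm e_1_19 g_9_19.symm (fun h => l_1_5 h.symm) hc l_5_9 g_4_19 l_4_9 l_1_9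
  have e_10_19 : G.Adj (y 2) U := by
    by_contra hc
    exact hP (u 1) U (u 0) (x 0) (y 2) e_5_19 e_1_19.symm l_0_1.symm l_0_10 (fun h => l_1_5 h.symm) (fun h => l_0_5 h.symm) l_5_10 (fun h => g_0_19 h.symm) (fun h => hc h.symm) l_1_10
  have e_9_18 : ¬ G.Adj (u 2) X := fun hc =>
    hH (y 0) (y 2) (u 2) X U (fun h => (fun h => l_1_10 h.symm) (h ▸ l_1_2.symm)) l_2_10 l_2_9 e_2_18 e_2_19 l_9_10.symm e_10_18 e_10_19 hc g_9_19 g_18_19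
  have e_7_19 : G.Adj (q 1) U := by
    by_contra hc
    exact hP (x 0) (q 1) (u 2) U X l_0_7 l_7_9 g_9_19 g_18_19.symm l_0_9 g_0_19 e_0_18 hc g_7_18 e_9_18
  have e_13_19 : G.Adj (u 3) U := by
    by_contra hc
    exact hP (u 3) (q 0) (u 2) U X l_3_13.symm l_3_9 g_9_19 g_18_19.symm (fun h => l_9_13 h.symm) hc e_13_18 e_3_19 g_3_18 e_9_18
  exact hH (u 2) (u 3) (q 1) (y 2) U (fun h => (fun h => l_8_13 h.symm) (h ▸ l_8_9.symm)) l_9_13 l_7_9.symm l_9_10 g_9_19 l_7_13.symm l_10_13.symm e_13_19 l_7_10 e_7_19 e_10_19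

theorem local_A_Hp (G : SimpleGraph V) (hP : NoP5 G) (hH : NoHp G) (x u y q : ℕ → V) (L : Lad G x u y q 4)
    (Y1 Q X U : V)
    (hu2Y1 : G.Adj (u 2) Y1)
    (hY1Q : G.Adj Y1 Q)
    (hQX : G.Adj Q X)
    (hXU : G.Adj X U)
    (hnY1u0 : ¬ G.Adj Y1 (u 0))
    (hnQy0 : ¬ G.Adj Q (y 0))
    (hnXq0 : ¬ G.Adj X (q 0))
    (hnUx0 : ¬ G.Adj U (x 0))
    (hnY1u1 : ¬ G.Adj Y1 (u 1))
    (hnQy1 : ¬ G.Adj Q (y 1))
    (hnXq1 : ¬ G.Adj X (q 1))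
    (hnUx1 : ¬ G.Adj U (x 1))
    (hUu2 : G.Adj U (u 2)) :
    False := by
  have l_0_1 : G.Adj (x 0) (u 0) := L.xu1 0 0 (by norm_num) (by norm_num) (by norm_num)
  have l_0_3 : ¬ G.Adj (x 0) (q 0) := fun h => L.qx0 0 0 (by norm_num) (by norm_num) (by norm_num) h.symm
  have l_0_4 : ¬ G.Adj (x 0) (x 1) := L.xx 0 1 (by norm_num) (by norm_num)
  have l_0_5 : ¬ G.Adj (x 0) (u 1) := L.xu0 0 1 (by norm_num) (by norm_num) (by norm_num)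
  have l_0_6 : G.Adj (x 0) (y 1) := L.xy 0 1 (by norm_num) (by norm_num)
  have l_0_7 : G.Adj (x 0) (q 1) := (L.qx1 1 0 (by norm_num) (by norm_num) (by norm_num)).symm
  have l_0_8 : ¬ G.Adj (x 0) (x 2) := L.xx 0 2 (by norm_num) (by norm_num)
  have l_0_9 : ¬ G.Adj (x 0) (u 2) := L.xu0 0 2 (by norm_num) (by norm_num) (by norm_num)
  have l_0_13 : ¬ G.Adj (x 0) (u 3) := L.xu0 0 3 (by norm_num) (by norm_num) (by norm_num)
  have l_0_14 : G.Adj (x 0) (y 3) := L.xy 0 3 (by norm_num) (by norm_num)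
  have l_0_15 : G.Adj (x 0) (q 3) := (L.qx1 3 0 (by norm_num) (by norm_num) (by norm_num)).symm
  have l_1_2 : G.Adj (u 0) (y 0) := L.uy1 0 0 (by norm_num) (by norm_num) (by norm_num)
  have l_1_3 : G.Adj (u 0) (q 0) := L.uq 0 0 (by norm_num) (by norm_num)
  have l_1_5 : ¬ G.Adj (u 0) (u 1) := L.uu 0 1 (by norm_num) (by norm_num)
  have l_1_6 : ¬ G.Adj (u 0) (y 1) := L.uy0 0 1 (by norm_num) (by norm_num) (by norm_num)
  have l_1_8 : G.Adj (u 0) (x 2) := (L.xu1 2 0 (by norm_num) (by norm_num) (by norm_num)).symm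
  have l_1_9 : ¬ G.Adj (u 0) (u 2) := L.uu 0 2 (by norm_num) (by norm_num)
  have l_1_13 : ¬ G.Adj (u 0) (u 3) := L.uu 0 3 (by norm_num) (by norm_num)
  have l_1_14 : ¬ G.Adj (u 0) (y 3) := L.uy0 0 3 (by norm_num) (by norm_num) (by norm_num)
  have l_1_15 : G.Adj (u 0) (q 3) := L.uq 0 3 (by norm_num) (by norm_num)
  have l_2_3 : G.Adj (y 0) (q 0) := L.yq1 0 0 (by norm_num) (by norm_num) (by norm_num)
  have l_2_6 : ¬ G.Adj (y 0) (y 1) := L.yy 0 1 (by norm_num) (by norm_num)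
  have l_2_7 : ¬ G.Adj (y 0) (q 1) := L.yq0 0 1 (by norm_num) (by norm_num) (by norm_num)
  have l_2_8 : G.Adj (y 0) (x 2) := (L.xy 2 0 (by norm_num) (by norm_num)).symm
  have l_2_9 : G.Adj (y 0) (u 2) := (L.uy1 2 0 (by norm_num) (by norm_num) (by norm_num)).symm
  have l_2_13 : G.Adj (y 0) (u 3) := (L.uy1 3 0 (by norm_num) (by norm_num) (by norm_num)).symm
  have l_2_14 : ¬ G.Adj (y 0) (y 3) := L.yy 0 3 (by norm_num) (by norm_num)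
  have l_2_15 : ¬ G.Adj (y 0) (q 3) := L.yq0 0 3 (by norm_num) (by norm_num) (by norm_num)
  have l_3_5 : G.Adj (q 0) (u 1) := (L.uq 1 0 (by norm_num) (by norm_num)).symm
  have l_3_6 : G.Adj (q 0) (y 1) := (L.yq1 1 0 (by norm_num) (by norm_num) (by norm_num)).symm
  have l_3_7 : ¬ G.Adj (q 0) (q 1) := L.qq 0 1 (by norm_num) (by norm_num)
  have l_3_8 : ¬ G.Adj (q 0) (x 2) := L.qx0 0 2 (by norm_num) (by norm_num) (by norm_num)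
  have l_3_9 : G.Adj (q 0) (u 2) := (L.uq 2 0 (by norm_num) (by norm_num)).symm
  have l_3_13 : G.Adj (q 0) (u 3) := (L.uq 3 0 (by norm_num) (by norm_num)).symm
  have l_3_14 : G.Adj (q 0) (y 3) := (L.yq1 3 0 (by norm_num) (by norm_num) (by norm_num)).symm
  have l_3_15 : ¬ G.Adj (q 0) (q 3) := L.qq 0 3 (by norm_num) (by norm_num)
  have l_4_7 : ¬ G.Adj (x 1) (q 1) := fun h => L.qx0 1 1 (by norm_num) (by norm_num) (by norm_num) h.symm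
  have l_4_15 : G.Adj (x 1) (q 3) := (L.qx1 3 1 (by norm_num) (by norm_num) (by norm_num)).symm
  have l_5_6 : G.Adj (u 1) (y 1) := L.uy1 1 1 (by norm_num) (by norm_num) (by norm_num)
  have l_5_8 : G.Adj (u 1) (x 2) := (L.xu1 2 1 (by norm_num) (by norm_num) (by norm_num)).symm
  have l_5_9 : ¬ G.Adj (u 1) (u 2) := L.uu 1 2 (by norm_num) (by norm_num)
  have l_6_7 : G.Adj (y 1) (q 1) := L.yq1 1 1 (by norm_num) (by norm_num) (by norm_num)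
  have l_6_9 : G.Adj (y 1) (u 2) := (L.uy1 2 1 (by norm_num) (by norm_num) (by norm_num)).symm
  have l_6_13 : G.Adj (y 1) (u 3) := (L.uy1 3 1 (by norm_num) (by norm_num) (by norm_num)).symm
  have l_7_9 : G.Adj (q 1) (u 2) := (L.uq 2 1 (by norm_num) (by norm_num)).symm
  have l_7_13 : G.Adj (q 1) (u 3) := (L.uq 3 1 (by norm_num) (by norm_num)).symm
  have l_7_14 : G.Adj (q 1) (y 3) := (L.yq1 3 1 (by norm_num) (by norm_num) (by norm_num)).symm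
  have l_7_15 : ¬ G.Adj (q 1) (q 3) := L.qq 1 3 (by norm_num) (by norm_num)
  have l_8_9 : G.Adj (x 2) (u 2) := L.xu1 2 2 (by norm_num) (by norm_num) (by norm_num)
  have l_8_13 : ¬ G.Adj (x 2) (u 3) := L.xu0 2 3 (by norm_num) (by norm_num) (by norm_num)
  have l_8_15 : G.Adj (x 2) (q 3) := (L.qx1 3 2 (by norm_num) (by norm_num) (by norm_num)).symm
  have l_9_14 : ¬ G.Adj (u 2) (y 3) := L.uy0 2 3 (by norm_num) (by norm_num) (by norm_num)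
  have l_9_15 : G.Adj (u 2) (q 3) := L.uq 2 3 (by norm_num) (by norm_num)
  have l_13_14 : G.Adj (u 3) (y 3) := L.uy1 3 3 (by norm_num) (by norm_num) (by norm_num)
  have l_13_15 : G.Adj (u 3) (q 3) := L.uq 3 3 (by norm_num) (by norm_num)
  have l_14_15 : G.Adj (y 3) (q 3) := L.yq1 3 3 (by norm_num) (by norm_num) (by norm_num)
  have g_9_16 : G.Adj (u 2) Y1 := hu2Y1
  have g_16_17 : G.Adj Y1 Q := hY1Q
  have g_17_18 : G.Adj Q X := hQX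
  have g_18_19 : G.Adj X U := hXU
  have g_1_16 : ¬ G.Adj (u 0) Y1 := fun h => hnY1u0 h.symm
  have g_2_17 : ¬ G.Adj (y 0) Q := fun h => hnQy0 h.symm
  have g_3_18 : ¬ G.Adj (q 0) X := fun h => hnXq0 h.symm
  have g_0_19 : ¬ G.Adj (x 0) U := fun h => hnUx0 h.symm
  have g_5_16 : ¬ G.Adj (u 1) Y1 := fun h => hnY1u1 h.symm
  have g_6_17 : ¬ G.Adj (y 1) Q := fun h => hnQy1 h.symm
  have g_7_18 : ¬ G.Adj (q 1) X := fun h => hnXq1 h.symm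
  have g_4_19 : ¬ G.Adj (x 1) U := fun h => hnUx1 h.symm
  have g_9_19 : G.Adj (u 2) U := hUu2.symm
  have e_3_16 : G.Adj (q 0) Y1 := by
    by_contra hc
    have s_0_16 : ¬ G.Adj (x 0) Y1 := fun hd =>
      hP (u 1) (q 0) (u 0) (x 0) Y1 l_3_5.symm l_1_3.symm l_0_1.symm hd (fun h => l_1_5 h.symm) (fun h => l_0_5 h.symm) g_5_16 (fun h => l_0_3 h.symm) hc g_1_16
    exact hP (x 0) (u 0) (q 0) (u 2) Y1 l_0_1 l_1_3 l_3_9 g_9_16 l_0_3 l_0_9 s_0_16 l_1_9 g_1_16 hc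
  have e_2_16 : ¬ G.Adj (y 0) Y1 := fun hc =>
    hH (u 0) (y 0) (q 0) (u 2) Y1 l_1_2 l_1_3 l_1_9 g_1_16 l_2_3 l_2_9 hc l_3_9 e_3_16 g_9_16
  have e_6_16 : ¬ G.Adj (y 1) Y1 := fun hc =>
    hH (u 1) (q 0) (y 1) (u 2) Y1 l_3_5.symm l_5_6 l_5_9 g_5_16 l_3_6 l_3_9 e_3_16 l_6_9 hc g_9_16
  have e_14_16 : ¬ G.Adj (y 3) Y1 := fun hc =>
    hP (u 0) (y 0) (u 2) Y1 (y 3) l_1_2 l_2_9 g_9_16 hc.symm l_1_9 g_1_16 l_1_14 e_2_16 l_2_14 l_9_14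
  have e_0_16 : G.Adj (x 0) Y1 := by
    by_contra hc
    exact hP (u 0) (x 0) (y 1) (u 2) Y1 l_0_1.symm l_0_6 l_6_9 g_9_16 l_1_6 l_1_9 g_1_16 l_0_9 hc e_6_16
  have e_8_16 : G.Adj (x 2) Y1 := by
    by_contra hc
    exact hP (u 1) (x 2) (u 0) (x 0) Y1 l_5_8 l_1_8.symm l_0_1.symm e_0_16 (fun h => l_1_5 h.symm) (fun h => l_0_5 h.symm) g_5_16 (fun h => l_0_8 h.symm) hc g_1_16
  have e_15_16 : ¬ G.Adj (q 3) Y1 := fun hc =>
    hH (x 0) (q 3) Y1 (x 2) (u 2) l_0_15 e_0_16 l_0_8 l_0_9 hc l_8_15.symm l_9_15.symm e_8_16.symm g_9_16.symm l_8_9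
  have e_9_17 : G.Adj (u 2) Q := by
    by_contra hc
    have s_1_17 : ¬ G.Adj (u 0) Q := fun hd =>
      hP (y 1) (u 2) (y 0) (u 0) Q l_6_9 l_2_9.symm l_1_2.symm hd (fun h => l_2_6 h.symm) (fun h => l_1_6 h.symm) g_6_17 (fun h => l_1_9 h.symm) hc g_2_17
    exact hP (u 0) (y 0) (u 2) Y1 Q l_1_2 l_2_9 g_9_16 g_16_17 l_1_9 g_1_16 s_1_17 e_2_16 g_2_17 hc
  have e_3_17 : ¬ G.Adj (q 0) Q := fun hc =>
    hH (y 0) (q 0) (u 2) Y1 Q l_2_3 l_2_9 e_2_16 g_2_17 l_3_9 e_3_16 hc g_9_16 e_9_17 g_16_17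
  have e_8_17 : ¬ G.Adj (x 2) Q := fun hc =>
    hH (y 0) (x 2) (u 2) Y1 Q l_2_8 l_2_9 e_2_16 g_2_17 l_8_9 e_8_16 hc g_9_16 e_9_17 g_16_17
  have e_7_17 : ¬ G.Adj (q 1) Q := fun hc =>
    hP (y 0) (q 0) (y 1) (q 1) Q l_2_3 l_3_6 l_6_7 hc l_2_6 l_2_7 g_2_17 l_3_7 e_3_17 g_6_17
  have e_15_17 : ¬ G.Adj (q 3) Q := fun hc =>
    hP (y 0) (q 0) Y1 Q (q 3) l_2_3 e_3_16 g_16_17 hc.symm e_2_16 g_2_17 l_2_15 e_3_17 l_3_15 (fun h => e_15_16 h.symm)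
  have e_7_16 : G.Adj (q 1) Y1 := by
    by_contra hc
    exact hP (q 1) (y 1) (q 0) Y1 Q l_6_7.symm l_3_6.symm e_3_16 g_16_17 (fun h => l_3_7 h.symm) hc e_7_17 e_6_16 g_6_17 e_3_17
  have e_1_17 : G.Adj (u 0) Q := by
    by_contra hc
    exact hP (q 3) (u 0) (q 0) Y1 Q l_1_15.symm l_1_3 e_3_16 g_16_17 (fun h => l_3_15 h.symm) e_15_16 e_15_17 g_1_16 hc e_3_17
  have e_14_17 : G.Adj (y 3) Q := by
    by_contra hc
    exact hP (q 3) (y 3) (q 0) Y1 Q l_14_15.symm l_3_14.symm e_3_16 g_16_17 (fun h => l_3_15 h.symm) e_15_16 e_15_17 e_14_16 hc e_3_17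
  have e_13_17 : G.Adj (u 3) Q := by
    by_contra hc
    exact hP (y 1) (u 3) (y 0) (u 0) Q l_6_13 l_2_13.symm l_1_2.symm e_1_17 (fun h => l_2_6 h.symm) (fun h => l_1_6 h.symm) g_6_17 (fun h => l_1_13 h.symm) hc g_2_17
  have e_14_18 : G.Adj (y 3) X := by
    by_contra hc
    have s_2_18 : ¬ G.Adj (y 0) X := fun hd =>
      hP (q 1) (y 3) (q 0) (y 0) X l_7_14 l_3_14.symm l_2_3.symm hd (fun h => l_3_7 h.symm) (fun h => l_2_7 h.symm) g_7_18 (fun h => l_2_14 h.symm) hc g_3_18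
    exact hP (y 0) (q 0) (y 3) Q X l_2_3 l_3_14 e_14_17 g_17_18 l_2_14 g_2_17 s_2_18 e_3_17 g_3_18 hc
  have e_13_18 : ¬ G.Adj (u 3) X := fun hc =>
    hH (q 0) (u 3) (y 3) Q X l_3_13 l_3_14 e_3_17 g_3_18 l_13_14 e_13_17 hc e_14_17 e_14_18 g_17_18
  have e_0_18 : ¬ G.Adj (x 0) X := fun hc =>
    hP (q 0) (u 3) (q 1) (x 0) X l_3_13 l_7_13.symm l_0_7.symm hc l_3_7 (fun h => l_0_3 h.symm) g_3_18 (fun h => l_0_13 h.symm) e_13_18 g_7_18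
  have e_8_18 : ¬ G.Adj (x 2) X := fun hc =>
    hP (q 0) (u 3) Q X (x 2) l_3_13 e_13_17 g_17_18 hc.symm e_3_17 g_3_18 l_3_8 e_13_18 (fun h => l_8_13 h.symm) (fun h => e_8_17 h.symm)
  have e_0_17 : G.Adj (x 0) Q := by
    by_contra hc
    exact hP (x 0) (q 1) (u 3) Q X l_0_7 l_7_13 e_13_17 g_17_18 l_0_13 hc e_0_18 e_7_17 g_7_18 e_13_18
  have e_2_18 : G.Adj (y 0) X := by
    by_contra hc
    exact hP (x 2) (y 0) (u 3) Q X l_2_8.symm l_2_13 e_13_17 g_17_18 l_8_13 e_8_17 e_8_18 g_2_17 hc e_13_18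
  have e_15_18 : G.Adj (q 3) X := by
    by_contra hc
    exact hP (x 2) (q 3) (u 3) Q X l_8_15 l_13_15.symm e_13_17 g_17_18 l_8_13 e_8_17 e_8_18 e_15_17 hc e_13_18
  have e_16_18 : G.Adj Y1 X := by
    by_contra hc
    exact hP (q 1) Y1 (q 0) (y 0) X e_7_16 e_3_16.symm l_2_3.symm e_2_18 (fun h => l_3_7 h.symm) (fun h => l_2_7 h.symm) g_7_18 (fun h => e_2_16 h.symm) hc g_3_18
  have e_9_18 : ¬ G.Adj (u 2) X := fun hc =>
    hH (x 0) Y1 Q (u 2) X e_0_16 e_0_17 l_0_9 e_0_18 g_16_17 g_9_16.symm e_16_18 e_9_17.symm g_17_18 hc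
  have e_7_19 : G.Adj (q 1) U := by
    by_contra hc
    exact hP (x 0) (q 1) (u 2) U X l_0_7 l_7_9 g_9_19 g_18_19.symm l_0_9 g_0_19 e_0_18 hc g_7_18 e_9_18
  have e_14_19 : G.Adj (y 3) U := by
    by_contra hc
    exact hP (x 0) (y 3) X U (u 2) l_0_14 e_14_18 g_18_19 g_9_19.symm e_0_18 g_0_19 l_0_9 hc (fun h => l_9_14 h.symm) (fun h => e_9_18 h.symm)
  have e_15_19 : G.Adj (q 3) U := by
    by_contra hc
    exact hP (x 1) (q 3) (x 0) (q 1) U l_4_15 l_0_15.symm l_0_7 e_7_19 (fun h => l_0_4 h.symm) l_4_7 g_4_19 (fun h => l_7_15 h.symm) hc g_0_19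
  exact hH (x 0) (y 3) (q 3) X U l_0_14 l_0_15 e_0_18 g_0_19 l_14_15 e_14_18 e_14_19 e_15_18 e_15_19 g_18_19

theorem local_B_Hp (G : SimpleGraph V) (hP : NoP5 G) (hH : NoHp G) (x u y q : ℕ → V) (L : Lad G x u y q 4)
    (Y1 Q X U Y2 : V)
    (hu2Y1 : G.Adj (u 2) Y1)
    (hY1Q : G.Adj Y1 Q)
    (hQX : G.Adj Q X)
    (hXU : G.Adj X U)
    (hnY1u0 : ¬ G.Adj Y1 (u 0))
    (hnQy0 : ¬ G.Adj Q (y 0))
    (hnXq0 : ¬ G.Adj X (q 0))
    (hnUx0 : ¬ G.Adj U (x 0))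
    (hnY1u1 : ¬ G.Adj Y1 (u 1))
    (hnQy1 : ¬ G.Adj Q (y 1))
    (hnXq1 : ¬ G.Adj X (q 1))
    (hnUx1 : ¬ G.Adj U (x 1))
    (hUY2 : G.Adj U Y2)
    (hnY2u2 : ¬ G.Adj Y2 (u 2))
    (hnY1Y2 : ¬ G.Adj Y1 Y2)
    (hnY2u0 : ¬ G.Adj Y2 (u 0))
    (hnY2u1 : ¬ G.Adj Y2 (u 1)) :
    False := by
  have l_0_1 : G.Adj (x 0) (u 0) := L.xu1 0 0 (by norm_num) (by norm_num) (by norm_num)
  have l_0_2 : G.Adj (x 0) (y 0) := L.xy 0 0 (by norm_num) (by norm_num)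
  have l_0_3 : ¬ G.Adj (x 0) (q 0) := fun h => L.qx0 0 0 (by norm_num) (by norm_num) (by norm_num) h.symm
  have l_0_4 : ¬ G.Adj (x 0) (x 1) := L.xx 0 1 (by norm_num) (by norm_num)
  have l_0_5 : ¬ G.Adj (x 0) (u 1) := L.xu0 0 1 (by norm_num) (by norm_num) (by norm_num)
  have l_0_6 : G.Adj (x 0) (y 1) := L.xy 0 1 (by norm_num) (by norm_num)
  have l_0_7 : G.Adj (x 0) (q 1) := (L.qx1 1 0 (by norm_num) (by norm_num) (by norm_num)).symm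
  have l_0_8 : ¬ G.Adj (x 0) (x 2) := L.xx 0 2 (by norm_num) (by norm_num)
  have l_0_9 : ¬ G.Adj (x 0) (u 2) := L.xu0 0 2 (by norm_num) (by norm_num) (by norm_num)
  have l_0_13 : ¬ G.Adj (x 0) (u 3) := L.xu0 0 3 (by norm_num) (by norm_num) (by norm_num)
  have l_0_14 : G.Adj (x 0) (y 3) := L.xy 0 3 (by norm_num) (by norm_num)
  have l_0_15 : G.Adj (x 0) (q 3) := (L.qx1 3 0 (by norm_num) (by norm_num) (by norm_num)).symm
  have l_1_2 : G.Adj (u 0) (y 0) := L.uy1 0 0 (by norm_num) (by norm_num) (by norm_num)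
  have l_1_3 : G.Adj (u 0) (q 0) := L.uq 0 0 (by norm_num) (by norm_num)
  have l_1_5 : ¬ G.Adj (u 0) (u 1) := L.uu 0 1 (by norm_num) (by norm_num)
  have l_1_6 : ¬ G.Adj (u 0) (y 1) := L.uy0 0 1 (by norm_num) (by norm_num) (by norm_num)
  have l_1_8 : G.Adj (u 0) (x 2) := (L.xu1 2 0 (by norm_num) (by norm_num) (by norm_num)).symm
  have l_1_9 : ¬ G.Adj (u 0) (u 2) := L.uu 0 2 (by norm_num) (by norm_num)
  have l_1_13 : ¬ G.Adj (u 0) (u 3) := L.uu 0 3 (by norm_num) (by norm_num)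
  have l_1_14 : ¬ G.Adj (u 0) (y 3) := L.uy0 0 3 (by norm_num) (by norm_num) (by norm_num)
  have l_1_15 : G.Adj (u 0) (q 3) := L.uq 0 3 (by norm_num) (by norm_num)
  have l_2_3 : G.Adj (y 0) (q 0) := L.yq1 0 0 (by norm_num) (by norm_num) (by norm_num)
  have l_2_4 : G.Adj (y 0) (x 1) := (L.xy 1 0 (by norm_num) (by norm_num)).symm
  have l_2_6 : ¬ G.Adj (y 0) (y 1) := L.yy 0 1 (by norm_num) (by norm_num)
  have l_2_7 : ¬ G.Adj (y 0) (q 1) := L.yq0 0 1 (by norm_num) (by norm_num) (by norm_num)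
  have l_2_8 : G.Adj (y 0) (x 2) := (L.xy 2 0 (by norm_num) (by norm_num)).symm
  have l_2_9 : G.Adj (y 0) (u 2) := (L.uy1 2 0 (by norm_num) (by norm_num) (by norm_num)).symm
  have l_2_13 : G.Adj (y 0) (u 3) := (L.uy1 3 0 (by norm_num) (by norm_num) (by norm_num)).symm
  have l_2_14 : ¬ G.Adj (y 0) (y 3) := L.yy 0 3 (by norm_num) (by norm_num)
  have l_2_15 : ¬ G.Adj (y 0) (q 3) := L.yq0 0 3 (by norm_num) (by norm_num) (by norm_num)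
  have l_3_5 : G.Adj (q 0) (u 1) := (L.uq 1 0 (by norm_num) (by norm_num)).symm
  have l_3_6 : G.Adj (q 0) (y 1) := (L.yq1 1 0 (by norm_num) (by norm_num) (by norm_num)).symm
  have l_3_7 : ¬ G.Adj (q 0) (q 1) := L.qq 0 1 (by norm_num) (by norm_num)
  have l_3_8 : ¬ G.Adj (q 0) (x 2) := L.qx0 0 2 (by norm_num) (by norm_num) (by norm_num)
  have l_3_9 : G.Adj (q 0) (u 2) := (L.uq 2 0 (by norm_num) (by norm_num)).symm
  have l_3_13 : G.Adj (q 0) (u 3) := (L.uq 3 0 (by norm_num) (by norm_num)).symm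
  have l_3_14 : G.Adj (q 0) (y 3) := (L.yq1 3 0 (by norm_num) (by norm_num) (by norm_num)).symm
  have l_3_15 : ¬ G.Adj (q 0) (q 3) := L.qq 0 3 (by norm_num) (by norm_num)
  have l_4_5 : G.Adj (x 1) (u 1) := L.xu1 1 1 (by norm_num) (by norm_num) (by norm_num)
  have l_4_7 : ¬ G.Adj (x 1) (q 1) := fun h => L.qx0 1 1 (by norm_num) (by norm_num) (by norm_num) h.symm
  have l_4_13 : ¬ G.Adj (x 1) (u 3) := L.xu0 1 3 (by norm_num) (by norm_num) (by norm_num)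
  have l_4_14 : G.Adj (x 1) (y 3) := L.xy 1 3 (by norm_num) (by norm_num)
  have l_4_15 : G.Adj (x 1) (q 3) := (L.qx1 3 1 (by norm_num) (by norm_num) (by norm_num)).symm
  have l_5_6 : G.Adj (u 1) (y 1) := L.uy1 1 1 (by norm_num) (by norm_num) (by norm_num)
  have l_5_8 : G.Adj (u 1) (x 2) := (L.xu1 2 1 (by norm_num) (by norm_num) (by norm_num)).symm
  have l_5_9 : ¬ G.Adj (u 1) (u 2) := L.uu 1 2 (by norm_num) (by norm_num)
  have l_5_13 : ¬ G.Adj (u 1) (u 3) := L.uu 1 3 (by norm_num) (by norm_num)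
  have l_5_14 : ¬ G.Adj (u 1) (y 3) := L.uy0 1 3 (by norm_num) (by norm_num) (by norm_num)
  have l_6_7 : G.Adj (y 1) (q 1) := L.yq1 1 1 (by norm_num) (by norm_num) (by norm_num)
  have l_6_9 : G.Adj (y 1) (u 2) := (L.uy1 2 1 (by norm_num) (by norm_num) (by norm_num)).symm
  have l_6_13 : G.Adj (y 1) (u 3) := (L.uy1 3 1 (by norm_num) (by norm_num) (by norm_num)).symm
  have l_7_13 : G.Adj (q 1) (u 3) := (L.uq 3 1 (by norm_num) (by norm_num)).symm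
  have l_7_14 : G.Adj (q 1) (y 3) := (L.yq1 3 1 (by norm_num) (by norm_num) (by norm_num)).symm
  have l_7_15 : ¬ G.Adj (q 1) (q 3) := L.qq 1 3 (by norm_num) (by norm_num)
  have l_8_9 : G.Adj (x 2) (u 2) := L.xu1 2 2 (by norm_num) (by norm_num) (by norm_num)
  have l_8_13 : ¬ G.Adj (x 2) (u 3) := L.xu0 2 3 (by norm_num) (by norm_num) (by norm_num)
  have l_8_15 : G.Adj (x 2) (q 3) := (L.qx1 3 2 (by norm_num) (by norm_num) (by norm_num)).symm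
  have l_9_14 : ¬ G.Adj (u 2) (y 3) := L.uy0 2 3 (by norm_num) (by norm_num) (by norm_num)
  have l_9_15 : G.Adj (u 2) (q 3) := L.uq 2 3 (by norm_num) (by norm_num)
  have l_13_14 : G.Adj (u 3) (y 3) := L.uy1 3 3 (by norm_num) (by norm_num) (by norm_num)
  have l_13_15 : G.Adj (u 3) (q 3) := L.uq 3 3 (by norm_num) (by norm_num)
  have l_14_15 : G.Adj (y 3) (q 3) := L.yq1 3 3 (by norm_num) (by norm_num) (by norm_num)
  have g_9_16 : G.Adj (u 2) Y1 := hu2Y1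
  have g_16_17 : G.Adj Y1 Q := hY1Q
  have g_17_18 : G.Adj Q X := hQX
  have g_18_19 : G.Adj X U := hXU
  have g_1_16 : ¬ G.Adj (u 0) Y1 := fun h => hnY1u0 h.symm
  have g_2_17 : ¬ G.Adj (y 0) Q := fun h => hnQy0 h.symm
  have g_3_18 : ¬ G.Adj (q 0) X := fun h => hnXq0 h.symm
  have g_0_19 : ¬ G.Adj (x 0) U := fun h => hnUx0 h.symm
  have g_5_16 : ¬ G.Adj (u 1) Y1 := fun h => hnY1u1 h.symm
  have g_6_17 : ¬ G.Adj (y 1) Q := fun h => hnQy1 h.symm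
  have g_7_18 : ¬ G.Adj (q 1) X := fun h => hnXq1 h.symm
  have g_4_19 : ¬ G.Adj (x 1) U := fun h => hnUx1 h.symm
  have g_19_20 : G.Adj U Y2 := hUY2
  have g_9_20 : ¬ G.Adj (u 2) Y2 := fun h => hnY2u2 h.symm
  have g_16_20 : ¬ G.Adj Y1 Y2 := hnY1Y2
  have g_1_20 : ¬ G.Adj (u 0) Y2 := fun h => hnY2u0 h.symm
  have g_5_20 : ¬ G.Adj (u 1) Y2 := fun h => hnY2u1 h.symm
  have e_3_16 : G.Adj (q 0) Y1 := by
    by_contra hc
    have s_0_16 : ¬ G.Adj (x 0) Y1 := fun hd =>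
      hP (u 1) (q 0) (u 0) (x 0) Y1 l_3_5.symm l_1_3.symm l_0_1.symm hd (fun h => l_1_5 h.symm) (fun h => l_0_5 h.symm) g_5_16 (fun h => l_0_3 h.symm) hc g_1_16
    exact hP (x 0) (u 0) (q 0) (u 2) Y1 l_0_1 l_1_3 l_3_9 g_9_16 l_0_3 l_0_9 s_0_16 l_1_9 g_1_16 hc
  have e_2_16 : ¬ G.Adj (y 0) Y1 := fun hc =>
    hH (u 0) (y 0) (q 0) (u 2) Y1 l_1_2 l_1_3 l_1_9 g_1_16 l_2_3 l_2_9 hc l_3_9 e_3_16 g_9_16
  have e_6_16 : ¬ G.Adj (y 1) Y1 := fun hc =>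
    hH (u 1) (q 0) (y 1) (u 2) Y1 l_3_5.symm l_5_6 l_5_9 g_5_16 l_3_6 l_3_9 e_3_16 l_6_9 hc g_9_16
  have e_14_16 : ¬ G.Adj (y 3) Y1 := fun hc =>
    hP (u 0) (y 0) (u 2) Y1 (y 3) l_1_2 l_2_9 g_9_16 hc.symm l_1_9 g_1_16 l_1_14 e_2_16 l_2_14 l_9_14
  have e_0_16 : G.Adj (x 0) Y1 := by
    by_contra hc
    exact hP (u 0) (x 0) (y 1) (u 2) Y1 l_0_1.symm l_0_6 l_6_9 g_9_16 l_1_6 l_1_9 g_1_16 l_0_9 hc e_6_16
  have e_8_16 : G.Adj (x 2) Y1 := by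
    by_contra hc
    exact hP (u 1) (x 2) (u 0) (x 0) Y1 l_5_8 l_1_8.symm l_0_1.symm e_0_16 (fun h => l_1_5 h.symm) (fun h => l_0_5 h.symm) g_5_16 (fun h => l_0_8 h.symm) hc g_1_16
  have e_15_16 : ¬ G.Adj (q 3) Y1 := fun hc =>
    hH (x 0) (q 3) Y1 (x 2) (u 2) l_0_15 e_0_16 l_0_8 l_0_9 hc l_8_15.symm l_9_15.symm e_8_16.symm g_9_16.symm l_8_9
  have e_9_17 : G.Adj (u 2) Q := by
    by_contra hc
    have s_1_17 : ¬ G.Adj (u 0) Q := fun hd =>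
      hP (y 1) (u 2) (y 0) (u 0) Q l_6_9 l_2_9.symm l_1_2.symm hd (fun h => l_2_6 h.symm) (fun h => l_1_6 h.symm) g_6_17 (fun h => l_1_9 h.symm) hc g_2_17
    exact hP (u 0) (y 0) (u 2) Y1 Q l_1_2 l_2_9 g_9_16 g_16_17 l_1_9 g_1_16 s_1_17 e_2_16 g_2_17 hc
  have e_3_17 : ¬ G.Adj (q 0) Q := fun hc =>
    hH (y 0) (q 0) (u 2) Y1 Q l_2_3 l_2_9 e_2_16 g_2_17 l_3_9 e_3_16 hc g_9_16 e_9_17 g_16_17
  have e_8_17 : ¬ G.Adj (x 2) Q := fun hc =>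
    hH (y 0) (x 2) (u 2) Y1 Q l_2_8 l_2_9 e_2_16 g_2_17 l_8_9 e_8_16 hc g_9_16 e_9_17 g_16_17
  have e_7_17 : ¬ G.Adj (q 1) Q := fun hc =>
    hP (y 0) (q 0) (y 1) (q 1) Q l_2_3 l_3_6 l_6_7 hc l_2_6 l_2_7 g_2_17 l_3_7 e_3_17 g_6_17
  have e_15_17 : ¬ G.Adj (q 3) Q := fun hc =>
    hP (y 0) (q 0) Y1 Q (q 3) l_2_3 e_3_16 g_16_17 hc.symm e_2_16 g_2_17 l_2_15 e_3_17 l_3_15 (fun h => e_15_16 h.symm)
  have e_7_16 : G.Adj (q 1) Y1 := by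
    by_contra hc
    exact hP (q 1) (y 1) (q 0) Y1 Q l_6_7.symm l_3_6.symm e_3_16 g_16_17 (fun h => l_3_7 h.symm) hc e_7_17 e_6_16 g_6_17 e_3_17
  have e_1_17 : G.Adj (u 0) Q := by
    by_contra hc
    exact hP (q 3) (u 0) (q 0) Y1 Q l_1_15.symm l_1_3 e_3_16 g_16_17 (fun h => l_3_15 h.symm) e_15_16 e_15_17 g_1_16 hc e_3_17
  have e_14_17 : G.Adj (y 3) Q := by
    by_contra hc
    exact hP (q 3) (y 3) (q 0) Y1 Q l_14_15.symm l_3_14.symm e_3_16 g_16_17 (fun h => l_3_15 h.symm) e_15_16 e_15_17 e_14_16 hc e_3_17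
  have e_13_17 : G.Adj (u 3) Q := by
    by_contra hc
    exact hP (y 1) (u 3) (y 0) (u 0) Q l_6_13 l_2_13.symm l_1_2.symm e_1_17 (fun h => l_2_6 h.symm) (fun h => l_1_6 h.symm) g_6_17 (fun h => l_1_13 h.symm) hc g_2_17
  have e_14_18 : G.Adj (y 3) X := by
    by_contra hc
    have s_2_18 : ¬ G.Adj (y 0) X := fun hd =>
      hP (q 1) (y 3) (q 0) (y 0) X l_7_14 l_3_14.symm l_2_3.symm hd (fun h => l_3_7 h.symm) (fun h => l_2_7 h.symm) g_7_18 (fun h => l_2_14 h.symm) hc g_3_18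
    exact hP (y 0) (q 0) (y 3) Q X l_2_3 l_3_14 e_14_17 g_17_18 l_2_14 g_2_17 s_2_18 e_3_17 g_3_18 hc
  have e_13_18 : ¬ G.Adj (u 3) X := fun hc =>
    hH (q 0) (u 3) (y 3) Q X l_3_13 l_3_14 e_3_17 g_3_18 l_13_14 e_13_17 hc e_14_17 e_14_18 g_17_18
  have e_0_18 : ¬ G.Adj (x 0) X := fun hc =>
    hP (q 0) (u 3) (q 1) (x 0) X l_3_13 l_7_13.symm l_0_7.symm hc l_3_7 (fun h => l_0_3 h.symm) g_3_18 (fun h => l_0_13 h.symm) e_13_18 g_7_18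
  have e_8_18 : ¬ G.Adj (x 2) X := fun hc =>
    hP (q 0) (u 3) Q X (x 2) l_3_13 e_13_17 g_17_18 hc.symm e_3_17 g_3_18 l_3_8 e_13_18 (fun h => l_8_13 h.symm) (fun h => e_8_17 h.symm)
  have e_0_17 : G.Adj (x 0) Q := by
    by_contra hc
    exact hP (x 0) (q 1) (u 3) Q X l_0_7 l_7_13 e_13_17 g_17_18 l_0_13 hc e_0_18 e_7_17 g_7_18 e_13_18
  have e_2_18 : G.Adj (y 0) X := by
    by_contra hc
    exact hP (x 2) (y 0) (u 3) Q X l_2_8.symm l_2_13 e_13_17 g_17_18 l_8_13 e_8_17 e_8_18 g_2_17 hc e_13_18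
  have e_15_18 : G.Adj (q 3) X := by
    by_contra hc
    exact hP (x 2) (q 3) (u 3) Q X l_8_15 l_13_15.symm e_13_17 g_17_18 l_8_13 e_8_17 e_8_18 e_15_17 hc e_13_18
  have e_16_18 : G.Adj Y1 X := by
    by_contra hc
    exact hP (q 1) Y1 (q 0) (y 0) X e_7_16 e_3_16.symm l_2_3.symm e_2_18 (fun h => l_3_7 h.symm) (fun h => l_2_7 h.symm) g_7_18 (fun h => e_2_16 h.symm) hc g_3_18
  have e_4_18 : ¬ G.Adj (x 1) X := fun hc =>
    hH (x 0) (y 3) (q 3) (x 1) X l_0_14 l_0_15 l_0_4 e_0_18 l_14_15 l_4_14.symm e_14_18 l_4_15.symm e_15_18 hc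
  have e_9_18 : ¬ G.Adj (u 2) X := fun hc =>
    hH (x 0) Y1 Q (u 2) X e_0_16 e_0_17 l_0_9 e_0_18 g_16_17 g_9_16.symm e_16_18 e_9_17.symm g_17_18 hc
  have e_2_19 : G.Adj (y 0) U := by
    by_contra hc
    have s_7_19 : ¬ G.Adj (q 1) U := fun hd =>
      hP (x 1) (y 0) (x 0) (q 1) U l_2_4.symm l_0_2.symm l_0_7 hd (fun h => l_0_4 h.symm) l_4_7 g_4_19 l_2_7 hc g_0_19
    exact hP (q 1) (x 0) (y 0) X U l_0_7.symm l_0_2 e_2_18 g_18_19 (fun h => l_2_7 h.symm) g_7_18 s_7_19 e_0_18 g_0_19 hc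
  have e_15_19 : G.Adj (q 3) U := by
    by_contra hc
    have s_7_19 : ¬ G.Adj (q 1) U := fun hd =>
      hP (x 1) (q 3) (x 0) (q 1) U l_4_15 l_0_15.symm l_0_7 hd (fun h => l_0_4 h.symm) l_4_7 g_4_19 (fun h => l_7_15 h.symm) hc g_0_19
    exact hP (q 1) (x 0) (q 3) X U l_0_7.symm l_0_15 e_15_18 g_18_19 l_7_15 g_7_18 s_7_19 e_0_18 g_0_19 hc
  have e_14_19 : ¬ G.Adj (y 3) U := fun hc =>
    hH (x 0) (y 3) (q 3) X U l_0_14 l_0_15 e_0_18 g_0_19 l_14_15 e_14_18 hc e_15_18 e_15_19 g_18_19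
  have e_5_19 : ¬ G.Adj (u 1) U := fun hc =>
    hP (x 0) (y 3) (x 1) (u 1) U l_0_14 l_4_14.symm l_4_5 hc l_0_4 l_0_5 g_0_19 (fun h => l_5_14 h.symm) e_14_19 g_4_19
  have e_9_19 : ¬ G.Adj (u 2) U := fun hc =>
    hP (x 0) (y 3) X U (u 2) l_0_14 e_14_18 g_18_19 hc.symm e_0_18 g_0_19 l_0_9 e_14_19 (fun h => l_9_14 h.symm) (fun h => e_9_18 h.symm)
  have e_17_19 : G.Adj Q U := by
    by_contra hc
    exact hP (y 0) U (q 3) (y 3) Q e_2_19 e_15_19.symm l_14_15.symm e_14_17 l_2_15 l_2_14 g_2_17 (fun h => e_14_19 h.symm) (fun h => hc h.symm) e_15_17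
  have e_13_19 : ¬ G.Adj (u 3) U := fun hc =>
    hP (u 1) (x 1) (y 3) (u 3) U l_4_5.symm l_4_14 l_13_14.symm hc l_5_14 l_5_13 e_5_19 l_4_13 g_4_19 e_14_19
  have e_5_18 : G.Adj (u 1) X := by
    by_contra hc
    exact hP (u 1) (x 1) (y 3) X U l_4_5.symm l_4_14 e_14_18 g_18_19 l_5_14 hc e_5_19 e_4_18 g_4_19 e_14_19
  have e_16_19 : ¬ G.Adj Y1 U := fun hc =>
    hH (x 0) Y1 Q X U e_0_16 e_0_17 e_0_18 g_0_19 g_16_17 e_16_18 hc g_17_18 e_17_19 g_18_19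
  have e_1_19 : ¬ G.Adj (u 0) U := fun hc =>
    hP (u 3) (y 3) (x 0) (u 0) U l_13_14 l_0_14.symm l_0_1 hc (fun h => l_0_13 h.symm) (fun h => l_1_13 h.symm) e_13_19 (fun h => l_1_14 h.symm) e_14_19 g_0_19
  have e_1_18 : G.Adj (u 0) X := by
    by_contra hc
    exact hP (x 0) (u 0) (q 0) (u 1) X l_0_1 l_1_3 l_3_5 e_5_18 l_0_3 l_0_5 e_0_18 l_1_5 hc g_3_18
  have e_2_20 : G.Adj (y 0) Y2 := by
    by_contra hc
    exact hP Y1 (u 2) (y 0) U Y2 g_9_16.symm l_2_9.symm e_2_19 g_19_20 (fun h => e_2_16 h.symm) e_16_19 g_16_20 e_9_19 g_9_20 hc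
  have e_18_20 : G.Adj X Y2 := by
    by_contra hc
    exact hP (u 2) Y1 X U Y2 g_9_16 e_16_18 g_18_19 g_19_20 e_9_18 e_9_19 g_9_20 e_16_19 g_16_20 hc
  exact hH (u 0) (y 0) X U Y2 l_1_2 e_1_18 e_1_19 g_1_20 e_2_18 e_2_19 e_2_20 g_18_19 e_18_20 g_19_20

theorem local_B_K5e (G : SimpleGraph V) (hP : NoP5 G) (hH : NoK5e G) (x u y q : ℕ → V) (L : Lad G x u y q 4)
    (Y1 Q X U Y2 PP : V) (hne : q 0 ≠ x 3)
    (hu2Y1 : G.Adj (u 2) Y1)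
    (hY1Q : G.Adj Y1 Q)
    (hQX : G.Adj Q X)
    (hXU : G.Adj X U)
    (hnY1u0 : ¬ G.Adj Y1 (u 0))
    (hnQy0 : ¬ G.Adj Q (y 0))
    (hnXq0 : ¬ G.Adj X (q 0))
    (hnUx0 : ¬ G.Adj U (x 0))
    (hnY1u1 : ¬ G.Adj Y1 (u 1))
    (hnQy1 : ¬ G.Adj Q (y 1))
    (hnXq1 : ¬ G.Adj X (q 1))
    (hnUx1 : ¬ G.Adj U (x 1))
    (hUY2 : G.Adj U Y2)
    (hnY2u2 : ¬ G.Adj Y2 (u 2))
    (hnY1Y2 : ¬ G.Adj Y1 Y2)
    (hnY2u0 : ¬ G.Adj Y2 (u 0))
    (hnY2u1 : ¬ G.Adj Y2 (u 1))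
    (hPPu2 : G.Adj PP (u 2))
    (hnPPU : ¬ G.Adj PP U) :
    False := by
  have l_0_1 : G.Adj (x 0) (u 0) := L.xu1 0 0 (by norm_num) (by norm_num) (by norm_num)
  have l_0_2 : G.Adj (x 0) (y 0) := L.xy 0 0 (by norm_num) (by norm_num)
  have l_0_3 : ¬ G.Adj (x 0) (q 0) := fun h => L.qx0 0 0 (by norm_num) (by norm_num) (by norm_num) h.symm
  have l_0_4 : ¬ G.Adj (x 0) (x 1) := L.xx 0 1 (by norm_num) (by norm_num)
  have l_0_5 : ¬ G.Adj (x 0) (u 1) := L.xu0 0 1 (by norm_num) (by norm_num) (by norm_num)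
  have l_0_6 : G.Adj (x 0) (y 1) := L.xy 0 1 (by norm_num) (by norm_num)
  have l_0_7 : G.Adj (x 0) (q 1) := (L.qx1 1 0 (by norm_num) (by norm_num) (by norm_num)).symm
  have l_0_8 : ¬ G.Adj (x 0) (x 2) := L.xx 0 2 (by norm_num) (by norm_num)
  have l_0_9 : ¬ G.Adj (x 0) (u 2) := L.xu0 0 2 (by norm_num) (by norm_num) (by norm_num)
  have l_0_10 : G.Adj (x 0) (y 2) := L.xy 0 2 (by norm_num) (by norm_num)
  have l_0_11 : G.Adj (x 0) (q 2) := (L.qx1 2 0 (by norm_num) (by norm_num) (by norm_num)).symm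
  have l_0_12 : ¬ G.Adj (x 0) (x 3) := L.xx 0 3 (by norm_num) (by norm_num)
  have l_0_13 : ¬ G.Adj (x 0) (u 3) := L.xu0 0 3 (by norm_num) (by norm_num) (by norm_num)
  have l_0_14 : G.Adj (x 0) (y 3) := L.xy 0 3 (by norm_num) (by norm_num)
  have l_0_15 : G.Adj (x 0) (q 3) := (L.qx1 3 0 (by norm_num) (by norm_num) (by norm_num)).symm
  have l_1_2 : G.Adj (u 0) (y 0) := L.uy1 0 0 (by norm_num) (by norm_num) (by norm_num)
  have l_1_3 : G.Adj (u 0) (q 0) := L.uq 0 0 (by norm_num) (by norm_num)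
  have l_1_4 : G.Adj (u 0) (x 1) := (L.xu1 1 0 (by norm_num) (by norm_num) (by norm_num)).symm
  have l_1_5 : ¬ G.Adj (u 0) (u 1) := L.uu 0 1 (by norm_num) (by norm_num)
  have l_1_6 : ¬ G.Adj (u 0) (y 1) := L.uy0 0 1 (by norm_num) (by norm_num) (by norm_num)
  have l_1_7 : G.Adj (u 0) (q 1) := L.uq 0 1 (by norm_num) (by norm_num)
  have l_1_8 : G.Adj (u 0) (x 2) := (L.xu1 2 0 (by norm_num) (by norm_num) (by norm_num)).symm
  have l_1_9 : ¬ G.Adj (u 0) (u 2) := L.uu 0 2 (by norm_num) (by norm_num)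
  have l_1_10 : ¬ G.Adj (u 0) (y 2) := L.uy0 0 2 (by norm_num) (by norm_num) (by norm_num)
  have l_1_11 : G.Adj (u 0) (q 2) := L.uq 0 2 (by norm_num) (by norm_num)
  have l_1_12 : G.Adj (u 0) (x 3) := (L.xu1 3 0 (by norm_num) (by norm_num) (by norm_num)).symm
  have l_1_13 : ¬ G.Adj (u 0) (u 3) := L.uu 0 3 (by norm_num) (by norm_num)
  have l_2_3 : G.Adj (y 0) (q 0) := L.yq1 0 0 (by norm_num) (by norm_num) (by norm_num)
  have l_2_4 : G.Adj (y 0) (x 1) := (L.xy 1 0 (by norm_num) (by norm_num)).symm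
  have l_2_5 : G.Adj (y 0) (u 1) := (L.uy1 1 0 (by norm_num) (by norm_num) (by norm_num)).symm
  have l_2_6 : ¬ G.Adj (y 0) (y 1) := L.yy 0 1 (by norm_num) (by norm_num)
  have l_2_7 : ¬ G.Adj (y 0) (q 1) := L.yq0 0 1 (by norm_num) (by norm_num) (by norm_num)
  have l_2_8 : G.Adj (y 0) (x 2) := (L.xy 2 0 (by norm_num) (by norm_num)).symm
  have l_2_9 : G.Adj (y 0) (u 2) := (L.uy1 2 0 (by norm_num) (by norm_num) (by norm_num)).symm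
  have l_2_10 : ¬ G.Adj (y 0) (y 2) := L.yy 0 2 (by norm_num) (by norm_num)
  have l_2_11 : ¬ G.Adj (y 0) (q 2) := L.yq0 0 2 (by norm_num) (by norm_num) (by norm_num)
  have l_2_12 : G.Adj (y 0) (x 3) := (L.xy 3 0 (by norm_num) (by norm_num)).symm
  have l_2_13 : G.Adj (y 0) (u 3) := (L.uy1 3 0 (by norm_num) (by norm_num) (by norm_num)).symm
  have l_2_14 : ¬ G.Adj (y 0) (y 3) := L.yy 0 3 (by norm_num) (by norm_num)
  have l_3_4 : ¬ G.Adj (q 0) (x 1) := L.qx0 0 1 (by norm_num) (by norm_num) (by norm_num)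
  have l_3_5 : G.Adj (q 0) (u 1) := (L.uq 1 0 (by norm_num) (by norm_num)).symm
  have l_3_6 : G.Adj (q 0) (y 1) := (L.yq1 1 0 (by norm_num) (by norm_num) (by norm_num)).symm
  have l_3_7 : ¬ G.Adj (q 0) (q 1) := L.qq 0 1 (by norm_num) (by norm_num)
  have l_3_8 : ¬ G.Adj (q 0) (x 2) := L.qx0 0 2 (by norm_num) (by norm_num) (by norm_num)
  have l_3_9 : G.Adj (q 0) (u 2) := (L.uq 2 0 (by norm_num) (by norm_num)).symm
  have l_3_10 : G.Adj (q 0) (y 2) := (L.yq1 2 0 (by norm_num) (by norm_num) (by norm_num)).symm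
  have l_3_11 : ¬ G.Adj (q 0) (q 2) := L.qq 0 2 (by norm_num) (by norm_num)
  have l_3_12 : ¬ G.Adj (q 0) (x 3) := L.qx0 0 3 (by norm_num) (by norm_num) (by norm_num)
  have l_3_13 : G.Adj (q 0) (u 3) := (L.uq 3 0 (by norm_num) (by norm_num)).symm
  have l_3_14 : G.Adj (q 0) (y 3) := (L.yq1 3 0 (by norm_num) (by norm_num) (by norm_num)).symm
  have l_3_15 : ¬ G.Adj (q 0) (q 3) := L.qq 0 3 (by norm_num) (by norm_num)
  have l_4_5 : G.Adj (x 1) (u 1) := L.xu1 1 1 (by norm_num) (by norm_num) (by norm_num)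
  have l_4_6 : G.Adj (x 1) (y 1) := L.xy 1 1 (by norm_num) (by norm_num)
  have l_4_7 : ¬ G.Adj (x 1) (q 1) := fun h => L.qx0 1 1 (by norm_num) (by norm_num) (by norm_num) h.symm
  have l_4_10 : G.Adj (x 1) (y 2) := L.xy 1 2 (by norm_num) (by norm_num)
  have l_4_11 : G.Adj (x 1) (q 2) := (L.qx1 2 1 (by norm_num) (by norm_num) (by norm_num)).symm
  have l_4_13 : ¬ G.Adj (x 1) (u 3) := L.xu0 1 3 (by norm_num) (by norm_num) (by norm_num)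
  have l_4_14 : G.Adj (x 1) (y 3) := L.xy 1 3 (by norm_num) (by norm_num)
  have l_4_15 : G.Adj (x 1) (q 3) := (L.qx1 3 1 (by norm_num) (by norm_num) (by norm_num)).symm
  have l_5_6 : G.Adj (u 1) (y 1) := L.uy1 1 1 (by norm_num) (by norm_num) (by norm_num)
  have l_5_7 : G.Adj (u 1) (q 1) := L.uq 1 1 (by norm_num) (by norm_num)
  have l_5_8 : G.Adj (u 1) (x 2) := (L.xu1 2 1 (by norm_num) (by norm_num) (by norm_num)).symm
  have l_5_9 : ¬ G.Adj (u 1) (u 2) := L.uu 1 2 (by norm_num) (by norm_num)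
  have l_5_10 : ¬ G.Adj (u 1) (y 2) := L.uy0 1 2 (by norm_num) (by norm_num) (by norm_num)
  have l_5_12 : G.Adj (u 1) (x 3) := (L.xu1 3 1 (by norm_num) (by norm_num) (by norm_num)).symm
  have l_5_13 : ¬ G.Adj (u 1) (u 3) := L.uu 1 3 (by norm_num) (by norm_num)
  have l_5_14 : ¬ G.Adj (u 1) (y 3) := L.uy0 1 3 (by norm_num) (by norm_num) (by norm_num)
  have l_6_7 : G.Adj (y 1) (q 1) := L.yq1 1 1 (by norm_num) (by norm_num) (by norm_num)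
  have l_6_8 : G.Adj (y 1) (x 2) := (L.xy 2 1 (by norm_num) (by norm_num)).symm
  have l_6_9 : G.Adj (y 1) (u 2) := (L.uy1 2 1 (by norm_num) (by norm_num) (by norm_num)).symm
  have l_6_10 : ¬ G.Adj (y 1) (y 2) := L.yy 1 2 (by norm_num) (by norm_num)
  have l_6_11 : ¬ G.Adj (y 1) (q 2) := L.yq0 1 2 (by norm_num) (by norm_num) (by norm_num)
  have l_6_13 : G.Adj (y 1) (u 3) := (L.uy1 3 1 (by norm_num) (by norm_num) (by norm_num)).symm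
  have l_6_14 : ¬ G.Adj (y 1) (y 3) := L.yy 1 3 (by norm_num) (by norm_num)
  have l_7_8 : ¬ G.Adj (q 1) (x 2) := L.qx0 1 2 (by norm_num) (by norm_num) (by norm_num)
  have l_7_9 : G.Adj (q 1) (u 2) := (L.uq 2 1 (by norm_num) (by norm_num)).symm
  have l_7_10 : G.Adj (q 1) (y 2) := (L.yq1 2 1 (by norm_num) (by norm_num) (by norm_num)).symm
  have l_7_11 : ¬ G.Adj (q 1) (q 2) := L.qq 1 2 (by norm_num) (by norm_num)
  have l_7_12 : ¬ G.Adj (q 1) (x 3) := L.qx0 1 3 (by norm_num) (by norm_num) (by norm_num)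
  have l_7_13 : G.Adj (q 1) (u 3) := (L.uq 3 1 (by norm_num) (by norm_num)).symm
  have l_7_14 : G.Adj (q 1) (y 3) := (L.yq1 3 1 (by norm_num) (by norm_num) (by norm_num)).symm
  have l_7_15 : ¬ G.Adj (q 1) (q 3) := L.qq 1 3 (by norm_num) (by norm_num)
  have l_8_9 : G.Adj (x 2) (u 2) := L.xu1 2 2 (by norm_num) (by norm_num) (by norm_num)
  have l_8_11 : ¬ G.Adj (x 2) (q 2) := fun h => L.qx0 2 2 (by norm_num) (by norm_num) (by norm_num) h.symm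
  have l_8_13 : ¬ G.Adj (x 2) (u 3) := L.xu0 2 3 (by norm_num) (by norm_num) (by norm_num)
  have l_8_15 : G.Adj (x 2) (q 3) := (L.qx1 3 2 (by norm_num) (by norm_num) (by norm_num)).symm
  have l_9_10 : G.Adj (u 2) (y 2) := L.uy1 2 2 (by norm_num) (by norm_num) (by norm_num)
  have l_9_12 : G.Adj (u 2) (x 3) := (L.xu1 3 2 (by norm_num) (by norm_num) (by norm_num)).symm
  have l_9_13 : ¬ G.Adj (u 2) (u 3) := L.uu 2 3 (by norm_num) (by norm_num)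
  have l_9_14 : ¬ G.Adj (u 2) (y 3) := L.uy0 2 3 (by norm_num) (by norm_num) (by norm_num)
  have l_10_11 : G.Adj (y 2) (q 2) := L.yq1 2 2 (by norm_num) (by norm_num) (by norm_num)
  have l_10_13 : G.Adj (y 2) (u 3) := (L.uy1 3 2 (by norm_num) (by norm_num) (by norm_num)).symm
  have l_10_14 : ¬ G.Adj (y 2) (y 3) := L.yy 2 3 (by norm_num) (by norm_num)
  have l_10_15 : ¬ G.Adj (y 2) (q 3) := L.yq0 2 3 (by norm_num) (by norm_num) (by norm_num)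
  have l_11_14 : G.Adj (q 2) (y 3) := (L.yq1 3 2 (by norm_num) (by norm_num) (by norm_num)).symm
  have l_11_15 : ¬ G.Adj (q 2) (q 3) := L.qq 2 3 (by norm_num) (by norm_num)
  have l_12_13 : G.Adj (x 3) (u 3) := L.xu1 3 3 (by norm_num) (by norm_num) (by norm_num)
  have l_13_14 : G.Adj (u 3) (y 3) := L.uy1 3 3 (by norm_num) (by norm_num) (by norm_num)
  have g_9_16 : G.Adj (u 2) Y1 := hu2Y1
  have g_16_17 : G.Adj Y1 Q := hY1Q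
  have g_17_18 : G.Adj Q X := hQX
  have g_18_19 : G.Adj X U := hXU
  have g_1_16 : ¬ G.Adj (u 0) Y1 := fun h => hnY1u0 h.symm
  have g_2_17 : ¬ G.Adj (y 0) Q := fun h => hnQy0 h.symm
  have g_3_18 : ¬ G.Adj (q 0) X := fun h => hnXq0 h.symm
  have g_0_19 : ¬ G.Adj (x 0) U := fun h => hnUx0 h.symm
  have g_5_16 : ¬ G.Adj (u 1) Y1 := fun h => hnY1u1 h.symm
  have g_6_17 : ¬ G.Adj (y 1) Q := fun h => hnQy1 h.symm
  have g_7_18 : ¬ G.Adj (q 1) X := fun h => hnXq1 h.symm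
  have g_4_19 : ¬ G.Adj (x 1) U := fun h => hnUx1 h.symm
  have g_19_20 : G.Adj U Y2 := hUY2
  have g_9_20 : ¬ G.Adj (u 2) Y2 := fun h => hnY2u2 h.symm
  have g_16_20 : ¬ G.Adj Y1 Y2 := hnY1Y2
  have g_1_20 : ¬ G.Adj (u 0) Y2 := fun h => hnY2u0 h.symm
  have g_5_20 : ¬ G.Adj (u 1) Y2 := fun h => hnY2u1 h.symm
  have g_9_21 : G.Adj (u 2) PP := hPPu2.symm
  have g_19_21 : ¬ G.Adj U PP := fun h => hnPPU h.symm
  have e_3_16 : G.Adj (q 0) Y1 := by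
    by_contra hc
    have s_0_16 : ¬ G.Adj (x 0) Y1 := fun hd =>
      hP (u 1) (q 0) (u 0) (x 0) Y1 l_3_5.symm l_1_3.symm l_0_1.symm hd (fun h => l_1_5 h.symm) (fun h => l_0_5 h.symm) g_5_16 (fun h => l_0_3 h.symm) hc g_1_16
    exact hP (x 0) (u 0) (q 0) (u 2) Y1 l_0_1 l_1_3 l_3_9 g_9_16 l_0_3 l_0_9 s_0_16 l_1_9 g_1_16 hc
  have e_6_16 : ¬ G.Adj (y 1) Y1 := by
    intro hc
    have s_2_16 : G.Adj (y 0) Y1 := by
      by_contra hd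
      exact hP (u 0) (y 0) (u 1) (y 1) Y1 l_1_2 l_2_5 l_5_6 hc l_1_5 l_1_6 g_1_16 l_2_6 hd g_5_16
    exact hH (y 0) (y 1) (q 0) (u 2) Y1 (fun h => (fun h => l_1_6 h.symm) (h ▸ l_1_2.symm)) l_2_6 l_2_3 l_2_9 s_2_16 l_3_6.symm l_6_9 hc l_3_9 e_3_16 g_9_16
  have e_0_16 : G.Adj (x 0) Y1 := by
    by_contra hc
    exact hP (u 0) (x 0) (y 1) (u 2) Y1 l_0_1.symm l_0_6 l_6_9 g_9_16 l_1_6 l_1_9 g_1_16 l_0_9 hc e_6_16
  have e_14_16 : ¬ G.Adj (y 3) Y1 := fun hc =>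
    hP (u 1) (y 1) (u 2) Y1 (y 3) l_5_6 l_6_9 g_9_16 hc.symm l_5_9 g_5_16 l_5_14 e_6_16 l_6_14 l_9_14
  have e_8_16 : G.Adj (x 2) Y1 := by
    by_contra hc
    exact hP (u 1) (x 2) (u 0) (x 0) Y1 l_5_8 l_1_8.symm l_0_1.symm e_0_16 (fun h => l_1_5 h.symm) (fun h => l_0_5 h.symm) g_5_16 (fun h => l_0_8 h.symm) hc g_1_16
  have e_12_16 : G.Adj (x 3) Y1 := by
    by_contra hc
    exact hP (u 1) (x 3) (u 0) (x 0) Y1 l_5_12 l_1_12.symm l_0_1.symm e_0_16 (fun h => l_1_5 h.symm) (fun h => l_0_5 h.symm) g_5_16 (fun h => l_0_12 h.symm) hc g_1_16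
  have e_13_16 : G.Adj (u 3) Y1 := by
    by_contra hc
    exact hP (u 2) Y1 (x 0) (y 3) (u 3) g_9_16 e_0_16.symm l_0_14 l_13_14.symm (fun h => l_0_9 h.symm) l_9_14 l_9_13 (fun h => e_14_16 h.symm) (fun h => hc h.symm) l_0_13
  have e_2_16 : ¬ G.Adj (y 0) Y1 := fun hc =>
    hH (q 0) (x 2) (y 0) (u 2) Y1 (fun h => l_8_13 (h ▸ l_3_13)) l_3_8 l_2_3.symm l_3_9 e_3_16 l_2_8.symm l_8_9 e_8_16 l_2_9 hc g_9_16
  have e_9_17 : G.Adj (u 2) Q := by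
    by_contra hc
    have s_1_17 : ¬ G.Adj (u 0) Q := fun hd =>
      hP (y 1) (u 2) (y 0) (u 0) Q l_6_9 l_2_9.symm l_1_2.symm hd (fun h => l_2_6 h.symm) (fun h => l_1_6 h.symm) g_6_17 (fun h => l_1_9 h.symm) hc g_2_17
    exact hP (u 0) (y 0) (u 2) Y1 Q l_1_2 l_2_9 g_9_16 g_16_17 l_1_9 g_1_16 s_1_17 e_2_16 g_2_17 hc
  have e_13_17 : G.Adj (u 3) Q := by
    by_contra hc
    have s_1_17 : ¬ G.Adj (u 0) Q := fun hd =>
      hP (y 1) (u 3) (y 0) (u 0) Q l_6_13 l_2_13.symm l_1_2.symm hd (fun h => l_2_6 h.symm) (fun h => l_1_6 h.symm) g_6_17 (fun h => l_1_13 h.symm) hc g_2_17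
    exact hP (u 0) (y 0) (u 3) Y1 Q l_1_2 l_2_13 e_13_16 g_16_17 l_1_13 g_1_16 s_1_17 e_2_16 g_2_17 hc
  have e_3_17 : ¬ G.Adj (q 0) Q := fun hc =>
    hH (u 2) (u 3) (q 0) Y1 Q (fun h => (fun h => l_8_13 h.symm) (h ▸ l_8_9.symm)) l_9_13 l_3_9.symm g_9_16 e_9_17 l_3_13.symm e_13_16 e_13_17 e_3_16 hc g_16_17
  have e_12_17 : ¬ G.Adj (x 3) Q := fun hc =>
    hH (u 2) (u 3) (x 3) Y1 Q (fun h => (fun h => l_8_13 h.symm) (h ▸ l_8_9.symm)) l_9_13 l_9_12 g_9_16 e_9_17 l_12_13.symm e_13_16 e_13_17 e_12_16 hc g_16_17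
  have e_7_17 : ¬ G.Adj (q 1) Q := fun hc =>
    hP (y 0) (q 0) (y 1) (q 1) Q l_2_3 l_3_6 l_6_7 hc l_2_6 l_2_7 g_2_17 l_3_7 e_3_17 g_6_17
  have e_7_16 : G.Adj (q 1) Y1 := by
    by_contra hc
    exact hP (q 1) (y 1) (q 0) Y1 Q l_6_7.symm l_3_6.symm e_3_16 g_16_17 (fun h => l_3_7 h.symm) hc e_7_17 e_6_16 g_6_17 e_3_17
  have e_1_17 : G.Adj (u 0) Q := by
    by_contra hc
    exact hP (y 0) (u 0) (q 1) Y1 Q l_1_2.symm l_1_7 e_7_16 g_16_17 l_2_7 e_2_16 g_2_17 g_1_16 hc e_7_17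
  have e_16_18 : G.Adj Y1 X := by
    by_contra hc
    have s_2_18 : ¬ G.Adj (y 0) X := fun hd =>
      hP (q 1) Y1 (q 0) (y 0) X e_7_16 e_3_16.symm l_2_3.symm hd (fun h => l_3_7 h.symm) (fun h => l_2_7 h.symm) g_7_18 (fun h => e_2_16 h.symm) hc g_3_18
    exact hP (y 0) (q 0) Y1 Q X l_2_3 e_3_16 g_16_17 g_17_18 e_2_16 g_2_17 s_2_18 e_3_17 g_3_18 hc
  have e_0_18 : ¬ G.Adj (x 0) X := by
    intro hc
    have s_9_18 : G.Adj (u 2) X := by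
      by_contra hd
      exact hP (q 0) (u 2) (q 1) (x 0) X l_3_9 l_7_9.symm l_0_7.symm hc l_3_7 (fun h => l_0_3 h.symm) g_3_18 (fun h => l_0_9 h.symm) hd g_7_18
    have s_13_18 : G.Adj (u 3) X := by
      by_contra hd
      exact hP (q 0) (u 3) (q 1) (x 0) X l_3_13 l_7_13.symm l_0_7.symm hc l_3_7 (fun h => l_0_3 h.symm) g_3_18 (fun h => l_0_13 h.symm) hd g_7_18
    exact hH (u 2) (u 3) Y1 Q X (fun h => (fun h => l_8_13 h.symm) (h ▸ l_8_9.symm)) l_9_13 g_9_16 e_9_17 s_9_18 e_13_16 e_13_17 s_13_18 g_16_17 e_16_18 g_17_18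
  have e_0_17 : G.Adj (x 0) Q := by
    by_contra hc
    have s_9_18 : G.Adj (u 2) X := by
      by_contra hd
      exact hP (x 0) (q 1) (u 2) Q X l_0_7 l_7_9 e_9_17 g_17_18 l_0_9 hc e_0_18 e_7_17 g_7_18 hd
    have s_13_18 : G.Adj (u 3) X := by
      by_contra hd
      exact hP (x 0) (q 1) (u 3) Q X l_0_7 l_7_13 e_13_17 g_17_18 l_0_13 hc e_0_18 e_7_17 g_7_18 hd
    exact hH (u 2) (u 3) Y1 Q X (fun h => (fun h => l_8_13 h.symm) (h ▸ l_8_9.symm)) l_9_13 g_9_16 e_9_17 s_9_18 e_13_16 e_13_17 s_13_18 g_16_17 e_16_18 g_17_18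
  have e_2_18 : G.Adj (y 0) X := by
    by_contra hc
    exact hP (q 0) (y 0) (x 0) Q X l_2_3.symm l_0_2.symm e_0_17 g_17_18 (fun h => l_0_3 h.symm) e_3_17 g_3_18 g_2_17 hc e_0_18
  have e_6_18 : G.Adj (y 1) X := by
    by_contra hc
    exact hP (q 0) (y 1) (x 0) Q X l_3_6 l_0_6.symm e_0_17 g_17_18 (fun h => l_0_3 h.symm) e_3_17 g_3_18 g_6_17 hc e_0_18
  have e_12_18 : ¬ G.Adj (x 3) X := fun hc =>
    hP (q 1) (x 0) Q X (x 3) l_0_7.symm e_0_17 g_17_18 hc.symm e_7_17 g_7_18 l_7_12 e_0_18 l_0_12 (fun h => e_12_17 h.symm)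
  have e_10_18 : G.Adj (y 2) X := by
    by_contra hc
    exact hP (q 1) (y 2) (q 0) (y 0) X l_7_10 l_3_10.symm l_2_3.symm e_2_18 (fun h => l_3_7 h.symm) (fun h => l_2_7 h.symm) g_7_18 (fun h => l_2_10 h.symm) hc g_3_18
  have e_14_18 : G.Adj (y 3) X := by
    by_contra hc
    exact hP (q 1) (y 3) (q 0) (y 0) X l_7_14 l_3_14.symm l_2_3.symm e_2_18 (fun h => l_3_7 h.symm) (fun h => l_2_7 h.symm) g_7_18 (fun h => l_2_14 h.symm) hc g_3_18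
  have e_2_19 : G.Adj (y 0) U := by
    by_contra hc
    have s_7_19 : ¬ G.Adj (q 1) U := fun hd =>
      hP (x 1) (y 0) (x 0) (q 1) U l_2_4.symm l_0_2.symm l_0_7 hd (fun h => l_0_4 h.symm) l_4_7 g_4_19 l_2_7 hc g_0_19
    exact hP (q 1) (x 0) (y 0) X U l_0_7.symm l_0_2 e_2_18 g_18_19 (fun h => l_2_7 h.symm) g_7_18 s_7_19 e_0_18 g_0_19 hc
  have e_4_18 : ¬ G.Adj (x 1) X := by
    intro hc
    have s_5_18 : G.Adj (u 1) X := by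
      by_contra hd
      exact hP (x 0) (q 1) (u 1) (x 1) X l_0_7 l_5_7.symm l_4_5.symm hc l_0_5 l_0_4 e_0_18 (fun h => l_4_7 h.symm) g_7_18 hd
    exact hH (y 0) (y 1) (x 1) (u 1) X (fun h => (fun h => l_1_6 h.symm) (h ▸ l_1_2.symm)) l_2_6 l_2_4 l_2_5 e_2_18 l_4_6.symm l_5_6.symm e_6_18 l_4_5 hc s_5_18
  have e_8_18 : ¬ G.Adj (x 2) X := by
    intro hc
    have s_5_18 : G.Adj (u 1) X := by
      by_contra hd
      exact hP (x 0) (q 1) (u 1) (x 2) X l_0_7 l_5_7.symm l_5_8 hc l_0_5 l_0_8 e_0_18 l_7_8 g_7_18 hd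
    exact hH (y 0) (y 1) (u 1) (x 2) X (fun h => (fun h => l_1_6 h.symm) (h ▸ l_1_2.symm)) l_2_6 l_2_5 l_2_8 e_2_18 l_5_6.symm l_6_8 e_6_18 l_5_8 s_5_18 hc
  have e_13_18 : ¬ G.Adj (u 3) X := by
    intro hc
    have s_9_18 : G.Adj (u 2) X := by
      by_contra hd
      exact hP (x 2) (u 2) (q 0) (u 3) X l_8_9 l_3_9.symm l_3_13 hc (fun h => l_3_8 h.symm) l_8_13 e_8_18 l_9_13 hd g_3_18
    exact hH (u 2) (u 3) Y1 Q X (fun h => (fun h => l_8_13 h.symm) (h ▸ l_8_9.symm)) l_9_13 g_9_16 e_9_17 s_9_18 e_13_16 e_13_17 hc g_16_17 e_16_18 g_17_18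
  have e_11_19 : G.Adj (q 2) U := by
    by_contra hc
    have s_7_19 : ¬ G.Adj (q 1) U := fun hd =>
      hP (x 1) (q 2) (x 0) (q 1) U l_4_11 l_0_11.symm l_0_7 hd (fun h => l_0_4 h.symm) l_4_7 g_4_19 (fun h => l_7_11 h.symm) hc g_0_19
    have s_11_18 : ¬ G.Adj (q 2) X := fun hd =>
      hP (q 1) (x 0) (q 2) X U l_0_7.symm l_0_11 hd g_18_19 l_7_11 g_7_18 s_7_19 e_0_18 g_0_19 hc
    have s_17_19 : G.Adj Q U := by
      by_contra hd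
      exact hP (q 1) (x 0) Q X U l_0_7.symm e_0_17 g_17_18 g_18_19 e_7_17 g_7_18 s_7_19 e_0_18 g_0_19 hd
    have s_6_19 : G.Adj (y 1) U := by
      by_contra hd
      exact hP (q 1) (y 1) (x 1) (y 0) U l_6_7.symm l_4_6.symm l_2_4.symm e_2_19 (fun h => l_4_7 h.symm) (fun h => l_2_7 h.symm) s_7_19 (fun h => l_2_6 h.symm) hd g_4_19
    have s_1_18 : G.Adj (u 0) X := by
      by_contra hd
      exact hP (y 1) X (y 0) (u 0) (q 2) e_6_18 e_2_18.symm l_1_2.symm l_1_11 (fun h => l_2_6 h.symm) (fun h => l_1_6 h.symm) l_6_11 (fun h => hd h.symm) (fun h => s_11_18 h.symm) l_2_11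
    have s_1_19 : G.Adj (u 0) U := by
      by_contra hd
      exact hP (y 1) U (y 0) (u 0) (q 2) s_6_19 e_2_19.symm l_1_2.symm l_1_11 (fun h => l_2_6 h.symm) (fun h => l_1_6 h.symm) l_6_11 (fun h => hd h.symm) (fun h => hc h.symm) l_2_11
    exact hH (y 0) Q (u 0) X U (fun h => (fun h => e_3_17 h.symm) (h ▸ l_2_3)) g_2_17 l_1_2.symm e_2_18 e_2_19 e_1_17.symm g_17_18 s_17_19 s_1_18 s_1_19 g_18_19
  have e_15_19 : G.Adj (q 3) U := by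
    by_contra hc
    have s_7_19 : ¬ G.Adj (q 1) U := fun hd =>
      hP (x 1) (q 3) (x 0) (q 1) U l_4_15 l_0_15.symm l_0_7 hd (fun h => l_0_4 h.symm) l_4_7 g_4_19 (fun h => l_7_15 h.symm) hc g_0_19
    have s_8_19 : G.Adj (x 2) U := by
      by_contra hd
      exact hP (x 2) (q 3) (x 0) (q 2) U l_8_15 l_0_15.symm l_0_11 e_11_19 (fun h => l_0_8 h.symm) l_8_11 hd (fun h => l_11_15 h.symm) hc g_0_19
    exact hP (q 1) (x 0) (q 2) U (x 2) l_0_7.symm l_0_11 e_11_19 s_8_19.symm l_7_11 s_7_19 l_7_8 g_0_19 l_0_8 (fun h => l_8_11 h.symm)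
  have e_7_19 : G.Adj (q 1) U := by
    by_contra hc
    have s_11_18 : G.Adj (q 2) X := by
      by_contra hd
      exact hP (q 1) (x 0) (q 2) U X l_0_7.symm l_0_11 e_11_19 g_18_19.symm l_7_11 hc g_7_18 g_0_19 e_0_18 hd
    have s_10_19 : G.Adj (y 2) U := by
      by_contra hd
      exact hP (q 1) (y 2) (x 1) (y 0) U l_7_10 l_4_10.symm l_2_4.symm e_2_19 (fun h => l_4_7 h.symm) (fun h => l_2_7 h.symm) hc (fun h => l_2_10 h.symm) hd g_4_19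
    have s_14_19 : G.Adj (y 3) U := by
      by_contra hd
      exact hP (q 1) (y 3) (x 1) (y 0) U l_7_14 l_4_14.symm l_2_4.symm e_2_19 (fun h => l_4_7 h.symm) (fun h => l_2_7 h.symm) hc (fun h => l_2_14 h.symm) hd g_4_19
    exact hH (y 2) (y 3) (q 2) X U (fun h => (fun h => l_9_14 h.symm) (h ▸ l_9_10.symm)) l_10_14 l_10_11 e_10_18 s_10_19 l_11_14.symm e_14_18 s_14_19 s_11_18 e_11_19 g_18_19
  have e_3_19 : G.Adj (q 0) U := by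
    by_contra hc
    have s_6_19 : G.Adj (y 1) U := by
      by_contra hd
      exact hP (q 0) (y 1) (x 0) (q 2) U l_3_6 l_0_6.symm l_0_11 e_11_19 (fun h => l_0_3 h.symm) l_3_11 hc l_6_11 hd g_0_19
    have s_10_19 : G.Adj (y 2) U := by
      by_contra hd
      exact hP (q 0) (y 2) (x 0) (q 3) U l_3_10 l_0_10.symm l_0_15 e_15_19 (fun h => l_0_3 h.symm) l_3_15 hc l_10_15 hd g_0_19
    have s_13_19 : G.Adj (u 3) U := by
      by_contra hd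
      exact hP (q 0) (u 3) (q 1) U X l_3_13 l_7_13.symm e_7_19 g_18_19.symm l_3_7 hc g_3_18 hd e_13_18 g_7_18
    exact hH (y 1) (y 2) (q 1) (u 3) U (fun h => (fun h => l_5_10 h.symm) (h ▸ l_5_6.symm)) l_6_10 l_6_7 l_6_13 s_6_19 l_7_10.symm l_10_13 s_10_19 l_7_13 e_7_19 s_13_19
  have e_17_19 : G.Adj Q U := by
    by_contra hc
    exact hP (q 0) U (q 1) (x 0) Q e_3_19 e_7_19.symm l_0_7.symm e_0_17 l_3_7 (fun h => l_0_3 h.symm) e_3_17 (fun h => g_0_19 h.symm) (fun h => hc h.symm) e_7_17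
  have e_5_19 : ¬ G.Adj (u 1) U := by
    intro hc
    have s_1_19 : G.Adj (u 0) U := by
      by_contra hd
      exact hP (x 0) (u 0) (x 1) (u 1) U l_0_1 l_1_4 l_4_5 hc l_0_4 l_0_5 g_0_19 l_1_5 hd g_4_19
    exact hH (u 0) (u 1) (y 0) (q 0) U (fun h => (fun h => l_0_5 h.symm) (h ▸ l_0_1.symm)) l_1_5 l_1_2 l_1_3 s_1_19 l_2_5.symm l_3_5.symm hc l_2_3 e_2_19 e_3_19
  have e_5_18 : G.Adj (u 1) X := by
    by_contra hc
    exact hP (x 1) (u 1) (q 0) U X l_4_5 l_3_5.symm e_3_19 g_18_19.symm (fun h => l_3_4 h.symm) g_4_19 e_4_18 e_5_19 hc g_3_18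
  have e_1_18 : G.Adj (u 0) X := by
    by_contra hc
    exact hP (x 0) (u 0) (q 0) (u 1) X l_0_1 l_1_3 l_3_5 e_5_18 l_0_3 l_0_5 e_0_18 l_1_5 hc g_3_18
  have e_13_19 : ¬ G.Adj (u 3) U := fun hc =>
    hP (x 1) (u 1) X U (u 3) l_4_5 e_5_18 g_18_19 hc.symm e_4_18 g_4_19 l_4_13 e_5_19 l_5_13 (fun h => e_13_18 h.symm)
  have e_1_19 : ¬ G.Adj (u 0) U := fun hc =>
    hH (q 0) X (u 0) (y 0) U (fun h => (fun h => e_13_18 h.symm) (h ▸ l_3_13)) g_3_18 l_1_3.symm l_2_3.symm e_3_19 e_1_18.symm e_2_18.symm g_18_19 l_1_2 hc e_2_19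
  have e_12_19 : G.Adj (x 3) U := by
    by_contra hc
    exact hP (x 3) (u 3) (q 0) U X l_12_13 l_3_13.symm e_3_19 g_18_19.symm (fun h => l_3_12 h.symm) hc e_12_18 e_13_19 e_13_18 g_3_18
  have e_9_19 : ¬ G.Adj (u 2) U := fun hc =>
    hH (q 0) (x 3) (y 0) (u 2) U hne l_3_12 l_2_3.symm l_3_9 e_3_19 l_2_12.symm l_9_12.symm e_12_19 l_2_9 e_2_19 hc
  have e_3_20 : G.Adj (q 0) Y2 := by
    by_contra hc
    have s_0_20 : ¬ G.Adj (x 0) Y2 := fun hd =>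
      hP (u 1) (q 0) (u 0) (x 0) Y2 l_3_5.symm l_1_3.symm l_0_1.symm hd (fun h => l_1_5 h.symm) (fun h => l_0_5 h.symm) g_5_20 (fun h => l_0_3 h.symm) hc g_1_20
    exact hP (x 0) (u 0) (q 0) U Y2 l_0_1 l_1_3 e_3_19 g_19_20 l_0_3 g_0_19 s_0_20 e_1_19 g_1_20 hc
  have e_12_20 : G.Adj (x 3) Y2 := by
    by_contra hc
    have s_0_20 : ¬ G.Adj (x 0) Y2 := fun hd =>
      hP (u 1) (x 3) (u 0) (x 0) Y2 l_5_12 l_1_12.symm l_0_1.symm hd (fun h => l_1_5 h.symm) (fun h => l_0_5 h.symm) g_5_20 (fun h => l_0_12 h.symm) hc g_1_20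
    exact hP (x 0) (u 0) (x 3) U Y2 l_0_1 l_1_12 e_12_19 g_19_20 l_0_12 g_0_19 s_0_20 e_1_19 g_1_20 hc
  have e_2_20 : ¬ G.Adj (y 0) Y2 := fun hc =>
    hH (q 0) (x 3) (y 0) U Y2 hne l_3_12 l_2_3.symm e_3_19 e_3_20 l_2_12.symm e_12_19 e_12_20 e_2_19 hc g_19_20
  have e_6_20 : ¬ G.Adj (y 1) Y2 := fun hc =>
    hP (u 0) (y 0) (u 1) (y 1) Y2 l_1_2 l_2_5 l_5_6 hc l_1_5 l_1_6 g_1_20 l_2_6 e_2_20 g_5_20
  have e_10_20 : ¬ G.Adj (y 2) Y2 := fun hc =>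
    hP (u 0) (y 0) (u 2) (y 2) Y2 l_1_2 l_2_9 l_9_10 hc l_1_9 l_1_10 g_1_20 l_2_10 e_2_20 g_9_20
  have e_16_19 : G.Adj Y1 U := by
    by_contra hc
    exact hP Y1 (u 2) (y 0) U Y2 g_9_16.symm l_2_9.symm e_2_19 g_19_20 (fun h => e_2_16 h.symm) hc g_16_20 e_9_19 g_9_20 e_2_20
  have e_6_19 : G.Adj (y 1) U := by
    by_contra hc
    exact hP (y 1) (u 1) (y 0) U Y2 l_5_6.symm l_2_5.symm e_2_19 g_19_20 (fun h => l_2_6 h.symm) hc e_6_20 e_5_19 g_5_20 e_2_20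
  have e_10_19 : G.Adj (y 2) U := by
    by_contra hc
    exact hP (y 2) (u 2) (y 0) U Y2 l_9_10.symm l_2_9.symm e_2_19 g_19_20 (fun h => l_2_10 h.symm) hc e_10_20 e_9_19 g_9_20 e_2_20
  have e_0_20 : G.Adj (x 0) Y2 := by
    by_contra hc
    exact hP (u 0) (x 0) Y1 U Y2 l_0_1.symm e_0_16 e_16_19 g_19_20 g_1_16 e_1_19 g_1_20 g_0_19 hc g_16_20
  have e_9_18 : ¬ G.Adj (u 2) X := fun hc =>
    hH (u 2) U Y1 Q X (fun h => g_9_20 (h.symm ▸ g_19_20)) e_9_19 g_9_16 e_9_17 hc e_16_19.symm e_17_19.symm g_18_19.symm g_16_17 e_16_18 g_17_18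
  have e_8_20 : G.Adj (x 2) Y2 := by
    by_contra hc
    exact hP (u 1) (x 2) (u 0) (x 0) Y2 l_5_8 l_1_8.symm l_0_1.symm e_0_20 (fun h => l_1_5 h.symm) (fun h => l_0_5 h.symm) g_5_20 (fun h => l_0_8 h.symm) hc g_1_20
  have e_18_20 : G.Adj X Y2 := by
    by_contra hc
    exact hP (u 1) X (u 0) (x 0) Y2 e_5_18 e_1_18.symm l_0_1.symm e_0_20 (fun h => l_1_5 h.symm) (fun h => l_0_5 h.symm) g_5_20 (fun h => e_0_18 h.symm) hc g_1_20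
  have e_8_19 : G.Adj (x 2) U := by
    by_contra hc
    exact hP (u 2) (x 2) (u 0) X U l_8_9.symm l_1_8.symm e_1_18 g_18_19 (fun h => l_1_9 h.symm) e_9_18 e_9_19 e_8_18 hc e_1_19
  have e_17_20 : ¬ G.Adj Q Y2 := fun hc =>
    hH Y1 Y2 Q X U (fun h => (fun h => g_9_20 h.symm) (h ▸ g_9_16.symm)) g_16_20 g_16_17 e_16_18 e_16_19 hc.symm e_18_20.symm g_19_20.symm g_17_18 e_17_19 g_18_19
  have e_8_17 : ¬ G.Adj (x 2) Q := fun hc =>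
    hH (u 2) U (x 2) Y1 Q (fun h => e_9_18 (h.symm ▸ g_18_19.symm)) e_9_19 l_8_9.symm g_9_16 e_9_17 e_8_19.symm e_16_19.symm e_17_19.symm e_8_16 hc g_16_17
  have e_13_20 : G.Adj (u 3) Y2 := by
    by_contra hc
    exact hP (x 2) Y2 (x 0) Q (u 3) e_8_20 e_0_20.symm e_0_17 e_13_17.symm (fun h => l_0_8 h.symm) e_8_17 l_8_13 (fun h => e_17_20 h.symm) (fun h => hc h.symm) l_0_13
  have e_18_21 : G.Adj X PP := by
    by_contra hc
    have s_1_21 : ¬ G.Adj (u 0) PP := fun hd =>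
      hP (u 2) PP (u 0) X U g_9_21 hd.symm e_1_18 g_18_19 (fun h => l_1_9 h.symm) e_9_18 e_9_19 (fun h => hc h.symm) (fun h => g_19_21 h.symm) e_1_19
    have s_3_21 : G.Adj (q 0) PP := by
      by_contra hd
      exact hP X U (q 0) (u 2) PP g_18_19 e_3_19.symm l_3_9 g_9_21 (fun h => g_3_18 h.symm) (fun h => e_9_18 h.symm) hc (fun h => e_9_19 h.symm) g_19_21 hd
    have s_7_21 : G.Adj (q 1) PP := by
      by_contra hd
      exact hP X U (q 1) (u 2) PP g_18_19 e_7_19.symm l_7_9 g_9_21 (fun h => g_7_18 h.symm) (fun h => e_9_18 h.symm) hc (fun h => e_9_19 h.symm) g_19_21 hd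
    have s_6_21 : G.Adj (y 1) PP := by
      by_contra hd
      exact hP (u 0) X (y 1) (u 2) PP e_1_18 e_6_18.symm l_6_9 g_9_21 l_1_6 l_1_9 s_1_21 (fun h => e_9_18 h.symm) hc hd
    exact hH (q 0) (q 1) (y 1) (u 2) PP (fun h => (fun h => l_0_3 h.symm) (h.symm ▸ l_0_7.symm)) l_3_7 l_3_6 l_3_9 s_3_21 l_6_7.symm l_7_9 s_7_21 l_6_9 s_6_21 g_9_21
  have e_20_21 : G.Adj Y2 PP := by
    by_contra hc
    have s_0_21 : G.Adj (x 0) PP := by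
      by_contra hd
      exact hP (x 0) Y2 X PP (u 2) e_0_20 e_18_20.symm e_18_21 g_9_21.symm e_0_18 hd l_0_9 hc (fun h => g_9_20 h.symm) (fun h => e_9_18 h.symm)
    exact hP (u 2) PP (x 0) Y2 U g_9_21 s_0_21.symm e_0_20 g_19_20.symm (fun h => l_0_9 h.symm) g_9_20 e_9_19 (fun h => hc h.symm) (fun h => g_19_21 h.symm) g_0_19
  have e_0_21 : G.Adj (x 0) PP := by
    by_contra hc
    have s_1_21 : G.Adj (u 0) PP := by
      by_contra hd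
      exact hP (x 0) (u 0) X PP (u 2) l_0_1 e_1_18 e_18_21 g_9_21.symm e_0_18 hc l_0_9 hd l_1_9 (fun h => e_9_18 h.symm)
    have s_7_21 : G.Adj (q 1) PP := by
      by_contra hd
      exact hP (x 0) (q 1) (u 2) PP X l_0_7 l_7_9 g_9_21 e_18_21.symm l_0_9 hc e_0_18 hd g_7_18 e_9_18
    have s_6_21 : G.Adj (y 1) PP := by
      by_contra hd
      exact hP U (y 1) (x 0) (u 0) PP e_6_19.symm l_0_6.symm l_0_1 s_1_21 (fun h => g_0_19 h.symm) (fun h => e_1_19 h.symm) g_19_21 (fun h => l_1_6 h.symm) hd hc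
    have s_10_21 : G.Adj (y 2) PP := by
      by_contra hd
      exact hP U (y 2) (x 0) (u 0) PP e_10_19.symm l_0_10.symm l_0_1 s_1_21 (fun h => g_0_19 h.symm) (fun h => e_1_19 h.symm) g_19_21 (fun h => l_1_10 h.symm) hd hc
    exact hH (y 1) (y 2) (q 1) (u 2) PP (fun h => (fun h => l_5_10 h.symm) (h ▸ l_5_6.symm)) l_6_10 l_6_7 l_6_9 s_6_21 l_7_10.symm l_9_10.symm s_10_21 l_7_9 s_7_21 g_9_21
  have e_3_21 : G.Adj (q 0) PP := by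
    by_contra hc
    exact hP (x 0) PP (u 2) (q 0) U e_0_21 g_9_21.symm l_3_9.symm e_3_19 l_0_9 l_0_3 g_0_19 (fun h => hc h.symm) (fun h => g_19_21 h.symm) e_9_19
  have e_8_21 : G.Adj (x 2) PP := by
    by_contra hc
    exact hP (x 0) PP (u 2) (x 2) U e_0_21 g_9_21.symm l_8_9.symm e_8_19 l_0_9 l_0_8 g_0_19 (fun h => hc h.symm) (fun h => g_19_21 h.symm) e_9_19
  have e_12_21 : G.Adj (x 3) PP := by
    by_contra hc
    exact hP (x 0) PP (u 2) (x 3) U e_0_21 g_9_21.symm l_9_12 e_12_19 l_0_9 l_0_12 g_0_19 (fun h => hc h.symm) (fun h => g_19_21 h.symm) e_9_19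
  have e_2_21 : ¬ G.Adj (y 0) PP := fun hc =>
    hH (q 0) (x 2) (y 0) (u 2) PP (fun h => l_8_13 (h ▸ l_3_13)) l_3_8 l_2_3.symm l_3_9 e_3_21 l_2_8.symm l_8_9 e_8_21 l_2_9 hc g_9_21
  have e_6_21 : ¬ G.Adj (y 1) PP := fun hc =>
    hH (q 0) (x 2) (y 1) (u 2) PP (fun h => l_8_13 (h ▸ l_3_13)) l_3_8 l_3_6 l_3_9 e_3_21 l_6_8.symm l_8_9 e_8_21 l_6_9 hc g_9_21
  have e_13_21 : ¬ G.Adj (u 3) PP := fun hc =>
    hH (q 0) (x 3) (u 3) Y2 PP hne l_3_12 l_3_13 e_3_20 e_3_21 l_12_13 e_12_20 e_12_21 e_13_20 hc e_20_21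
  have e_1_21 : G.Adj (u 0) PP := by
    by_contra hc
    exact hP (u 0) (y 0) (u 2) PP Y2 l_1_2 l_2_9 g_9_21 e_20_21.symm l_1_9 hc g_1_20 e_2_21 e_2_20 g_9_20
  exact hP (y 1) (u 3) (y 0) (u 0) PP l_6_13 l_2_13.symm l_1_2.symm e_1_21 (fun h => l_2_6 h.symm) (fun h => l_1_6 h.symm) e_6_21 (fun h => l_1_13 h.symm) e_13_21 e_2_21

end Pool.Agent.W175.Crit
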