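import Pool.Agent.W175.Crit.Comp

set_option autoImplicit false

namespace Pool.Agent.W175.Crit

open Finset Classical
open Pool.Agent.H265R2.CritP4 (nb mem_nb nb_subset ramsey)
open Pool.Agent.H265R2.P5 (NoP5 cross5 Reach ordered_color not_mixed_twice reach_three)

universe v

variable {V : Type v}

/-- An induced pentagon. -/
structure Pent (G : SimpleGraph V) (A : V → Prop) (c0 c1 c2 c3 c4 : V) : Prop where
  a0 : A c0
  a1 : A c1
  a2 : A c2
  a3 : A c3
  a4 : A c4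
  e01 : G.Adj c0 c1
  e12 : G.Adj c1 c2
  e23 : G.Adj c2 c3
  e34 : G.Adj c3 c4
  e40 : G.Adj c4 c0
  n02 : ¬ G.Adj c0 c2
  n13 : ¬ G.Adj c1 c3
  n24 : ¬ G.Adj c2 c4
  n30 : ¬ G.Adj c3 c0
  n41 : ¬ G.Adj c4 c1

theorem Pent.rot {G : SimpleGraph V} {A : V → Prop} {c0 c1 c2 c3 c4 : V}
    (P : Pent G A c0 c1 c2 c3 c4) : Pent G A c1 c2 c3 c4 c0 :=
  ⟨P.a1, P.a2, P.a3, P.a4, P.a0, P.e12, P.e23, P.e34, P.e40, P.e01, P.n13, P.n24, P.n30, P.n41,
    P.n02⟩

/-- Inclusion of neighbourhoods inside `A`. -/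
def NN (G : SimpleGraph V) (A : V → Prop) (a b : V) : Prop := ∀ q, A q → G.Adj q a → G.Adj q b

/-- A common neighbour inside `A`. -/
def Inter (G : SimpleGraph V) (A : V → Prop) (a b : V) : Prop := ∃ q, A q ∧ G.Adj q a ∧ G.Adj q b

/-- No triangle inside `A` in the component of `p`. -/
def NoTri (G : SimpleGraph V) (A : V → Prop) (p : V) : Prop :=
  ∀ a b c, Reach G A p a → A b → A c → G.Adj a b → G.Adj b c → G.Adj a c → False

/-- No pentagon inside `A` in the component of `p`. -/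
def NoPent (G : SimpleGraph V) (A : V → Prop) (p : V) : Prop :=
  ∀ c0 c1 c2 c3 c4, Reach G A p c0 → ¬ Pent G A c0 c1 c2 c3 c4

section tri

variable (G : SimpleGraph V) (hP : NoP5 G) (A : V → Prop) (p : V) (hp : A p)
  (hT : NoTri G A p)

theorem rstep {p y w : V} (hp : A p) (h : Reach G A p y) (hw : A w) (hyw : G.Adj y w) :
    Reach G A p w := h.tail ⟨Reach.mem hp h, hw, hyw⟩

include hP hp hT

theorem pent_two {c0 c1 c2 c3 c4 : V} (P : Pent G A c0 c1 c2 c3 c4) {t : V}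
    (ht : Reach G A p t) (h0 : G.Adj t c0) : G.Adj t c2 ∨ G.Adj t c3 := by
  by_contra hcon
  push Not at hcon
  exact hP t c0 c1 c2 c3 h0 P.e01 P.e12 P.e23
    (fun h => hT t c0 c1 ht P.a0 P.a1 h0 P.e01 h) hcon.1 hcon.2 P.n02
    (fun h => P.n30 h.symm) P.n13

theorem pent_step {c0 c1 c2 c3 c4 : V} (P : Pent G A c0 c1 c2 c3 c4) {t t' : V}
    (ht : Reach G A p t) (h0 : G.Adj t c0) (htt : G.Adj t' t)
    (n0 : ¬ G.Adj t' c0) (n1 : ¬ G.Adj t' c1) (n2 : ¬ G.Adj t' c2) (n3 : ¬ G.Adj t' c3)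
    (n4 : ¬ G.Adj t' c4) : False := by
  rcases pent_two G hP A p hp hT P ht h0 with h | h
  · exact hP t' t c2 c3 c4 htt h P.e23 P.e34 n2 n3 n4
      (fun h' => hT t c2 c3 ht P.a2 P.a3 h P.e23 h')
      (fun h' => hT t c4 c0 ht P.a4 P.a0 h' P.e40 h0) P.n24
  · exact hP t' t c0 c1 c2 htt h0 P.e01 P.e12 n0 n1 n2
      (fun h' => hT t c0 c1 ht P.a0 P.a1 h0 P.e01 h')
      (fun h' => hT t c2 c3 ht P.a2 P.a3 h' P.e23 h) P.n02

theorem pent_dom {c0 c1 c2 c3 c4 : V} (P : Pent G A c0 c1 c2 c3 c4) (h0 : Reach G A p c0) {t : V}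
    (ht : Reach G A p t) :
    G.Adj t c0 ∨ G.Adj t c1 ∨ G.Adj t c2 ∨ G.Adj t c3 ∨ G.Adj t c4 := by
  have h : Reach G A c0 t := (Reach.symm' h0).trans ht
  have h' : Reach G A p t ∧
      (G.Adj t c0 ∨ G.Adj t c1 ∨ G.Adj t c2 ∨ G.Adj t c3 ∨ G.Adj t c4) := by
    clear ht
    induction h with
    | refl => exact ⟨h0, Or.inr (Or.inl P.e01)⟩
    | @tail b c _ h2 ih =>
      obtain ⟨hb, ih⟩ := ih
      refine ⟨hb.tail h2, ?_⟩
      by_contra hcon
      push Not at hcon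
      obtain ⟨n0, n1, n2, n3, n4⟩ := hcon
      rcases ih with h | h | h | h | h
      · exact pent_step G hP A p hp hT P hb h h2.2.2.symm n0 n1 n2 n3 n4
      · exact pent_step G hP A p hp hT P.rot hb h h2.2.2.symm n1 n2 n3 n4 n0
      · exact pent_step G hP A p hp hT P.rot.rot hb h h2.2.2.symm n2 n3 n4 n0 n1
      · exact pent_step G hP A p hp hT P.rot.rot.rot hb h h2.2.2.symm n3 n4 n0 n1 n2
      · exact pent_step G hP A p hp hT P.rot.rot.rot.rot hb h h2.2.2.symm n4 n0 n1 n2 n3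
  exact h'.2

theorem pent_same {c0 c1 c2 c3 c4 : V} (P : Pent G A c0 c1 c2 c3 c4) (h0 : Reach G A p c0)
    {w w' : V} (hw : Reach G A p w) (hw' : Reach G A p w') (w0 : G.Adj w c0) (w2 : G.Adj w c2)
    (w0' : G.Adj w' c0) (w2' : G.Adj w' c2) : NN G A w w' := by
  intro q hq hqw
  by_contra hcon
  have hqT : Reach G A p q := rstep G A hp hw hq hqw.symm
  have q0 : ¬ G.Adj q c0 := fun h => hT w q c0 hw hq P.a0 hqw.symm h w0
  have q2 : ¬ G.Adj q c2 := fun h => hT w q c2 hw hq P.a2 hqw.symm h w2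
  have w3' : ¬ G.Adj c3 w' := fun h => hT w' c2 c3 hw' P.a2 P.a3 w2' P.e23 h.symm
  have w4' : ¬ G.Adj c4 w' := fun h => hT w' c4 c0 hw' P.a4 P.a0 h.symm P.e40 w0'
  have hqq : G.Adj q c3 ∨ G.Adj q c4 := by
    rcases pent_dom G hP A p hp hT P h0 hqT with h | h | h | h | h
    · exact absurd h q0
    · exact pent_two G hP A p hp hT P.rot hqT h
    · exact absurd h q2
    · exact Or.inl h
    · exact Or.inr h
  rcases hqq with h | h
  · exact hP q c3 c4 c0 w' h P.e34 P.e40 w0'.symm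
      (fun h' => hT q c3 c4 hqT P.a3 P.a4 h P.e34 h') q0 hcon P.n30 w3' w4'
  · exact hP q c4 c3 c2 w' h P.e34.symm P.e23.symm w2'.symm
      (fun h' => hT q c3 c4 hqT P.a3 P.a4 h' P.e34 h) q2 hcon (fun h' => P.n24 h'.symm) w4' w3'

theorem pent_class {c0 c1 c2 c3 c4 : V} (P : Pent G A c0 c1 c2 c3 c4) (h0 : Reach G A p c0) {t : V}
    (ht : Reach G A p t) : ∃ k : Fin 5,
      (k = 0 ∧ G.Adj t c0 ∧ G.Adj t c2) ∨ (k = 1 ∧ G.Adj t c1 ∧ G.Adj t c3) ∨
      (k = 2 ∧ G.Adj t c2 ∧ G.Adj t c4) ∨ (k = 3 ∧ G.Adj t c3 ∧ G.Adj t c0) ∨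
      (k = 4 ∧ G.Adj t c4 ∧ G.Adj t c1) := by
  rcases pent_dom G hP A p hp hT P h0 ht with h | h | h | h | h
  · rcases pent_two G hP A p hp hT P ht h with h' | h'
    · exact ⟨0, Or.inl ⟨rfl, h, h'⟩⟩
    · exact ⟨3, Or.inr (Or.inr (Or.inr (Or.inl ⟨rfl, h', h⟩)))⟩
  · rcases pent_two G hP A p hp hT P.rot ht h with h' | h'
    · exact ⟨1, Or.inr (Or.inl ⟨rfl, h, h'⟩)⟩
    · exact ⟨4, Or.inr (Or.inr (Or.inr (Or.inr ⟨rfl, h', h⟩)))⟩
  · rcases pent_two G hP A p hp hT P.rot.rot ht h with h' | h'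
    · exact ⟨2, Or.inr (Or.inr (Or.inl ⟨rfl, h, h'⟩))⟩
    · exact ⟨0, Or.inl ⟨rfl, h', h⟩⟩
  · rcases pent_two G hP A p hp hT P.rot.rot.rot ht h with h' | h'
    · exact ⟨3, Or.inr (Or.inr (Or.inr (Or.inl ⟨rfl, h, h'⟩)))⟩
    · exact ⟨1, Or.inr (Or.inl ⟨rfl, h', h⟩)⟩
  · rcases pent_two G hP A p hp hT P.rot.rot.rot.rot ht h with h' | h'
    · exact ⟨4, Or.inr (Or.inr (Or.inr (Or.inr ⟨rfl, h, h'⟩)))⟩
    · exact ⟨2, Or.inr (Or.inr (Or.inl ⟨rfl, h', h⟩))⟩

/-- Intersecting neighbourhoods are nested. -/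
theorem nestB (hC : NoPent G A p) {a b : V} (ha : Reach G A p a) (hb : Reach G A p b)
    (hab : ¬ G.Adj a b) (hi : Inter G A a b) : NN G A a b ∨ NN G A b a := by
  by_contra hcon
  push Not at hcon
  obtain ⟨h1, h2⟩ := hcon
  unfold NN at h1 h2
  push Not at h1 h2
  obtain ⟨y, hy, hya, hyb⟩ := h1
  obtain ⟨y', hy', hyb', hya'⟩ := h2
  obtain ⟨w, hw, hwa, hwb⟩ := hi
  have hwy : ¬ G.Adj w y := fun h => hT a w y ha hw hy hwa.symm h hya.symm
  have hwy' : ¬ G.Adj w y' := fun h => hT b w y' hb hw hy' hwb.symm h hyb'.symm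
  have hyy : G.Adj y' y := by
    by_contra h
    exact hP y a w b y' hya hwa.symm hwb hyb'.symm (fun h' => hwy h'.symm) hyb
      (fun h' => h h'.symm) hab (fun h' => hya' h'.symm) hwy'
  exact hC a w b y' y ha ⟨Reach.mem hp ha, hw, Reach.mem hp hb, hy', hy, hwa.symm, hwb,
    hyb'.symm, hyy, hya, hab, hwy', fun h => hyb h.symm, hya', fun h => hwy h.symm⟩

theorem edge_between {a b : V} (ha : Reach G A p a) (hb : Reach G A p b) (hne : a ≠ b)
    (hab : ¬ G.Adj a b) (hi : ¬ Inter G A a b) :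
    ∃ z w, A z ∧ A w ∧ G.Adj z a ∧ G.Adj z w ∧ G.Adj w b := by
  rcases reach_three G hP A a b ((Reach.symm' ha).trans hb) with h | h | h | h
  · exact absurd h.symm hne
  · exact absurd h.2 hab
  · obtain ⟨_, z, hz, h1, h2⟩ := h
    exact absurd ⟨z, hz, h1.symm, h2⟩ hi
  · obtain ⟨_, w, ⟨hw, z, hz, h1, h2⟩, _, h3⟩ := h
    exact ⟨z, w, hz, hw, h1.symm, h2, h3⟩

theorem three_disj {a b c : V} (ha : Reach G A p a) (hb : Reach G A p b) (hc : Reach G A p c)
    (hab : ¬ G.Adj a b) (hac : ¬ G.Adj a c) (hbc : ¬ G.Adj b c) (nab : a ≠ b) (nac : a ≠ c)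
    (iab : ¬ Inter G A a b) (iac : ¬ Inter G A a c) (ibc : ¬ Inter G A b c) : False := by
  obtain ⟨z, w, hz, hw, hza, hzw, hwb⟩ := edge_between G hP A p hp hT ha hb nab hab iab
  obtain ⟨b1, b2, hb1, hb2, h1a, h12, h2c⟩ := edge_between G hP A p hp hT ha hc nac hac iac
  have hzT : Reach G A p z := rstep G A hp ha hz hza.symm
  have h2z : ¬ G.Adj b2 z := by
    intro h
    have h2w : ¬ G.Adj b2 w := fun h' => hT z w b2 hzT hw hb2 hzw h'.symm h.symm
    exact hP c b2 z w b h2c.symm h hzw hwb (fun h' => iac ⟨z, hz, hza, h'.symm⟩)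
      (fun h' => ibc ⟨w, hw, hwb, h'.symm⟩) (fun h' => hbc h'.symm) h2w
      (fun h' => ibc ⟨b2, hb2, h', h2c⟩) (fun h' => iab ⟨z, hz, hza, h'⟩)
  exact hP c b2 b1 a z h2c.symm h12.symm h1a hza.symm
    (fun h' => iac ⟨b1, hb1, h1a, h'.symm⟩) (fun h' => hac h'.symm)
    (fun h' => iac ⟨z, hz, hza, h'.symm⟩) (fun h' => iac ⟨b2, hb2, h', h2c⟩) h2z
    (fun h' => hT a b1 z ha hb1 hz h1a.symm h' hza.symm)

/-- Two vertices that both meet a third one are nested. -/
theorem nest_via (hC : NoPent G A p) {o a b : V} (ho : Reach G A p o) (ha : Reach G A p a)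
    (hb : Reach G A p b) (hoa : ¬ G.Adj o a) (hob : ¬ G.Adj o b) (hab : ¬ G.Adj a b)
    (ia : Inter G A o a) (ib : Inter G A o b) : NN G A a b ∨ NN G A b a := by
  apply nestB G hP A p hp hT hC ha hb hab
  by_contra hi
  rcases nestB G hP A p hp hT hC ho ha hoa ia with h | h
  · obtain ⟨w, hw, h1, h2⟩ := ib
    exact hi ⟨w, hw, h w hw h1, h2⟩
  rcases nestB G hP A p hp hT hC ho hb hob ib with h' | h'
  · obtain ⟨w, hw, h1, h2⟩ := ia
    exact hi ⟨w, hw, h2, h' w hw h1⟩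
  obtain ⟨w, hw, h1, h2⟩ := ia
  obtain ⟨w', hw', h1', h2'⟩ := ib
  exact hP a w o w' b h2.symm h1 h1'.symm h2' (fun h => hoa h.symm)
    (fun h => hi ⟨w', hw', h.symm, h2'⟩) hab
    (fun h => hT o w w' ho hw hw' h1.symm h h1'.symm)
    (fun h => hi ⟨w, hw, h2, h⟩) hob

end tri

section

variable (G : SimpleGraph V) (hP : NoP5 G) (I : Finset V)
  (hI : ∀ x ∈ I, ∀ y ∈ I, ¬ G.Adj x y) (z1 z2 : V) (hz1 : z1 ∈ I) (hz2 : z2 ∈ I)

section hp

variable (hH : NoHp G)

include hH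

theorem paw {w t a b : V} (hw : BB G I z1 z2 w) (ht : BB G I z1 z2 t) (ha : BB G I z1 z2 a)
    (hb : BB G I z1 z2 b) (hta : G.Adj t a) (htb : G.Adj t b) (hab : G.Adj a b)
    (hwt : G.Adj w t) : G.Adj w a ∨ G.Adj w b := by
  by_contra hcon
  push Not at hcon
  exact hH w z1 t a b hw.2.1 hwt hcon.1 hcon.2 ht.2.1.symm ha.2.1.symm hb.2.1.symm hta htb hab

/-- A component of a paw-free graph with a triangle is complete multipartite. -/
theorem multi {p a b c : V} (hp : BB G I z1 z2 p) (hra : Reach G (BB G I z1 z2) p a)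
    (hb : BB G I z1 z2 b) (hc : BB G I z1 z2 c) (hab : G.Adj a b) (hbc : G.Adj b c)
    (hac : G.Adj a c) {x y w : V} (hx : Reach G (BB G I z1 z2) p x)
    (hy : BB G I z1 z2 y) (hw : Reach G (BB G I z1 z2) p w) (hxy : G.Adj x y) :
    G.Adj w x ∨ G.Adj w y := by
  have htri : ∀ t, Reach G (BB G I z1 z2) a t → BB G I z1 z2 t ∧ ∃ b c, BB G I z1 z2 b ∧
      BB G I z1 z2 c ∧ G.Adj t b ∧ G.Adj t c ∧ G.Adj b c := by
    intro t ht
    induction ht with
    | refl => exact ⟨Reach.mem hp hra, b, c, hb, hc, hab, hac, hbc⟩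
    | @tail s s' _ h2 ih =>
      obtain ⟨hs, b, c, hb, hc, hsb, hsc, hbc⟩ := ih
      refine ⟨h2.2.1, ?_⟩
      rcases paw G I z1 z2 hH h2.2.1 hs hb hc hsb hsc hbc h2.2.2.symm with h | h
      · exact ⟨s, b, hs, hb, h2.2.2.symm, h, hsb⟩
      · exact ⟨s, c, hs, hc, h2.2.2.symm, h, hsc⟩
  have hxB : BB G I z1 z2 x := Reach.mem hp hx
  obtain ⟨_, b', c', hb', hc', hxb, hxc, hbc'⟩ := htri x ((Reach.symm' hra).trans hx)
  obtain ⟨t, ht, htx, hty⟩ : ∃ t, BB G I z1 z2 t ∧ G.Adj t x ∧ G.Adj t y := by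
    rcases paw G I z1 z2 hH hy hxB hb' hc' hxb hxc hbc' hxy.symm with h | h
    · exact ⟨b', hb', hxb.symm, h.symm⟩
    · exact ⟨c', hc', hxc.symm, h.symm⟩
  have hmain : ∀ s, Reach G (BB G I z1 z2) x s → BB G I z1 z2 s ∧ (G.Adj s x ∨ G.Adj s y) := by
    intro s hs
    induction hs with
    | refl => exact ⟨hxB, Or.inr hxy⟩
    | @tail s s' _ h2 ih =>
      obtain ⟨hs, ih⟩ := ih
      refine ⟨h2.2.1, ?_⟩
      by_contra hcon
      push Not at hcon
      have hss := h2.2.2.symm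
      have hs' := h2.2.1
      rcases ih with h | h
      · have hsy : ¬ G.Adj s y := by
          intro h'
          rcases paw G I z1 z2 hH hs' hs hxB hy h h' hxy hss with h3 | h3
          · exact hcon.1 h3
          · exact hcon.2 h3
        have hst : G.Adj s t := by
          rcases paw G I z1 z2 hH hs hxB hy ht hxy htx.symm hty.symm h with h3 | h3
          · exact absurd h3 hsy
          · exact h3
        have hst' : G.Adj s' t := by
          rcases paw G I z1 z2 hH hs' hs hxB ht h hst htx.symm hss with h3 | h3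
          · exact absurd h3 hcon.1
          · exact h3
        rcases paw G I z1 z2 hH hs' ht hxB hy htx hty hxy hst' with h3 | h3
        · exact hcon.1 h3
        · exact hcon.2 h3
      · have hsx : ¬ G.Adj s x := by
          intro h'
          rcases paw G I z1 z2 hH hs' hs hxB hy h' h hxy hss with h3 | h3
          · exact hcon.1 h3
          · exact hcon.2 h3
        have hst : G.Adj s t := by
          rcases paw G I z1 z2 hH hs hy hxB ht hxy.symm hty.symm htx.symm h with h3 | h3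
          · exact absurd h3 hsx
          · exact h3
        have hst' : G.Adj s' t := by
          rcases paw G I z1 z2 hH hs' hs hy ht h hst hty.symm hss with h3 | h3
          · exact absurd h3 hcon.2
          · exact h3
        rcases paw G I z1 z2 hH hs' ht hxB hy htx hty hxy hst' with h3 | h3
        · exact hcon.1 h3
        · exact hcon.2 h3
  exact (hmain w ((Reach.symm' hx).trans hw)).2

end hp

variable [Fintype V] (K : ℕ) (hnot : ¬ G.Colorable K)
  (hcrit : ∀ v, (G.induce {v}ᶜ).Colorable K) (hcol : G.Colorable (K + 1))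

include hP hI hz1 hz2 hnot hcrit hcol

/-- A chain whose neighbourhoods inside `BB` decrease is short. -/
theorem dc_bound (u : ℕ → V) (m : ℕ) (D : DC G I z1 z2 u m)
    (hdec : ∀ i j, i < j → j < m → NN G (BB G I z1 z2) (u j) (u i)) :
    m ≤ (1 * K + 1) * (K + 2) := by
  refine ordered_color G K hnot hcrit hcol m (fun i => {u i}) ?_ ?_ 1 ?_
  · intro i _
    exact ⟨u i, Finset.mem_singleton_self _⟩
  · intro i j hij hj x hx y hy
    rw [Finset.mem_singleton] at hx hy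
    subst hx hy
    refine ⟨?_, D.nadj i j (hij.trans hj) hj⟩
    intro h
    obtain ⟨x, h1, h2⟩ := D.strict i j hij hj
    exact h2 (h ▸ h1)
  · rintro q j hj hq ⟨t, ht, hqt⟩
    rw [Finset.mem_singleton] at ht
    subst ht
    by_contra hcon
    push Not at hcon
    obtain ⟨i, hi, i', hi', hne⟩ := Finset.one_lt_card.1 hcon
    simp only [Finset.mem_filter, Finset.mem_range, Finset.mem_singleton, exists_eq_left] at hi hi'
    have key : ∀ i i', i < i' → i' < j → ¬ G.Adj q (u i) → ¬ G.Adj q (u i') → False := by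
      intro i i' hii hij hqi hqi'
      have hqI : q ∉ I := by
        intro hqI
        exact hqi (mem_nb.1 (D.sub i j (by omega) hj (mem_nb.2 ⟨hqI, hqt.symm⟩))).2.symm
      have hqB : ¬ BB G I z1 z2 q := fun hqB => hqi (hdec i j (by omega) hj q hqB hqt)
      obtain ⟨z, hz, hzB, hqz⟩ : ∃ z ∈ I, (∀ b, BB G I z1 z2 b → G.Adj b z) ∧ ¬ G.Adj q z := by
        by_cases h1 : G.Adj q z1
        · by_cases h2 : G.Adj q z2
          · exact absurd ⟨hqI, h1, h2⟩ hqB
          · exact ⟨z2, hz2, fun b hb => hb.2.2, h2⟩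
        · exact ⟨z1, hz1, fun b hb => hb.2.1, h1⟩
      obtain ⟨x, hx1, hx2⟩ := D.strict i i' hii (by omega)
      obtain ⟨x', hx1', hx2'⟩ := D.strict i' j hij hj
      have hxI := (mem_nb.1 hx1).1
      have hxI' := (mem_nb.1 hx1').1
      refine lemA hP (q := q) (t := u j) (z := z) (v := u i) (v' := u i') (x := x) (x' := x') hqt
        (hzB _ (D.inB j hj)) (hzB _ (D.inB i (by omega))) (hzB _ (D.inB i' (by omega))) hqz hqi
        hqi' (D.nadj j i hj (by omega)) (D.nadj j i' hj (by omega)) (mem_nb.1 hx1).2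
        (mem_nb.1 hx1').2 ?_ ?_ ?_ (hI z hz x hxI) (hI z hz x' hxI') (hI x hxI x' hxI')
      · exact fun h => hx2 (D.sub i' j hij hj (mem_nb.2 ⟨hxI, h⟩))
      · exact fun h => hx2' (mem_nb.2 ⟨hxI', h⟩)
      · exact fun h => hx2 (mem_nb.2 ⟨hxI, h⟩)
    rcases Nat.lt_or_gt_of_ne hne with h | h
    · exact key i i' h hi'.1 hi.2 hi'.2
    · exact key i' i h hi.1 hi'.2 hi.2

/-- No triangle in the component of a long chain. -/
theorem noTri (hH : NoK5e G ∨ NoHp G) (hz : z1 ≠ z2) (u : ℕ → V) (m : ℕ)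
    (D : DC G I z1 z2 u m) (hm : (1 * K + 1) * (K + 2) < m)
    (hR : ∀ i j, i < m → j < m → Reach G (BB G I z1 z2) (u i) (u j)) :
    NoTri G (BB G I z1 z2) (u 0) := by
  intro a b c ha hb hc hab hbc hac
  have h0 : BB G I z1 z2 (u 0) := D.inB 0 (by omega)
  have haB : BB G I z1 z2 a := Reach.mem h0 ha
  rcases hH with h | h
  · exact h z1 z2 a b c hz (hI z1 hz1 z2 hz2) haB.2.1.symm hb.2.1.symm hc.2.1.symm
      haB.2.2.symm hb.2.2.symm hc.2.2.symm hab hac hbc
  · have := dc_bound G hP I hI z1 z2 hz1 hz2 K hnot hcrit hcol u m D (by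
      intro i j hij hj q hq hqj
      have hj0 : Reach G (BB G I z1 z2) (u 0) (u j) := hR 0 j (by omega) hj
      rcases multi G I z1 z2 h h0 ha hb hc hab hbc hac hj0 hq (hR 0 i (by omega) (by omega))
        hqj.symm with h1 | h1
      · exact absurd h1 (D.nadj i j (by omega) hj)
      · exact h1.symm)
    omega

/-- No pentagon in the component of a long chain. -/
theorem noPent (u : ℕ → V) (m : ℕ)
    (D : DC G I z1 z2 u m) (hm : 5 * ((1 * K + 1) * (K + 2)) < m)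
    (hR : ∀ i j, i < m → j < m → Reach G (BB G I z1 z2) (u i) (u j))
    (hT : NoTri G (BB G I z1 z2) (u 0)) : NoPent G (BB G I z1 z2) (u 0) := by
  intro c0 c1 c2 c3 c4 hc0 P
  have h0 : BB G I z1 z2 (u 0) := D.inB 0 (by omega)
  have hcl : ∀ i, ∃ k : Fin 5, i < m →
      (k = 0 ∧ G.Adj (u i) c0 ∧ G.Adj (u i) c2) ∨ (k = 1 ∧ G.Adj (u i) c1 ∧ G.Adj (u i) c3) ∨
      (k = 2 ∧ G.Adj (u i) c2 ∧ G.Adj (u i) c4) ∨ (k = 3 ∧ G.Adj (u i) c3 ∧ G.Adj (u i) c0) ∨
      (k = 4 ∧ G.Adj (u i) c4 ∧ G.Adj (u i) c1) := by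
    intro i
    by_cases hi : i < m
    · obtain ⟨k, hk⟩ := pent_class G hP _ (u 0) h0 hT P hc0 (hR 0 i (by omega) hi)
      exact ⟨k, fun _ => hk⟩
    · exact ⟨0, fun h => absurd h hi⟩
  choose cl hcl using hcl
  obtain ⟨k, _, hfib⟩ := Finset.exists_lt_card_fiber_of_mul_lt_card_of_maps_to
    (s := Finset.range m) (t := (Finset.univ : Finset (Fin 5))) (f := cl)
    (n := (1 * K + 1) * (K + 2)) (fun _ _ => Finset.mem_univ _)
    (by
      rw [Finset.card_range, Finset.card_univ, Fintype.card_fin]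
      exact hm)
  obtain ⟨f, hf1, hf2⟩ := enum ((Finset.range m).filter (fun i => cl i = k))
  have hf3 : ∀ i, i < ((Finset.range m).filter (fun i => cl i = k)).card →
      f i < m ∧ cl (f i) = k := by
    intro i hi
    have := Finset.mem_filter.1 (hf2 i hi)
    exact ⟨Finset.mem_range.1 this.1, this.2⟩
  have D' := D.comp f _ hf1 (fun i hi => (hf3 i hi).1)
  have hr1 := rstep G (BB G I z1 z2) h0 hc0 P.a1 P.e01
  have hr2 := rstep G (BB G I z1 z2) h0 hr1 P.a2 P.e12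
  have hr3 := rstep G (BB G I z1 z2) h0 hr2 P.a3 P.e23
  have hr4 := rstep G (BB G I z1 z2) h0 hr3 P.a4 P.e34
  have := dc_bound G hP I hI z1 z2 hz1 hz2 K hnot hcrit hcol _ _ D' (by
    intro i j hij hj
    have hi := hij.trans hj
    have hRi := hR 0 (f i) (by omega) (hf3 i hi).1
    have hRj := hR 0 (f j) (by omega) (hf3 j hj).1
    have h1 := hcl (f i) (hf3 i hi).1
    have h2 := hcl (f j) (hf3 j hj).1
    rw [(hf3 i hi).2] at h1
    rw [(hf3 j hj).2] at h2
    have hdiff : ∀ a b : Fin 5, a ≠ b → k = a → k = b → False := fun a b hab h3 h4 =>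
      hab (h3.symm.trans h4)
    rcases h1 with h1 | h1 | h1 | h1 | h1 <;> rcases h2 with h2 | h2 | h2 | h2 | h2
    · exact pent_same G hP _ (u 0) h0 hT P hc0 hRj hRi h2.2.1 h2.2.2 h1.2.1 h1.2.2
    · exact (hdiff _ _ (by decide) h1.1 h2.1).elim
    · exact (hdiff _ _ (by decide) h1.1 h2.1).elim
    · exact (hdiff _ _ (by decide) h1.1 h2.1).elim
    · exact (hdiff _ _ (by decide) h1.1 h2.1).elim
    · exact (hdiff _ _ (by decide) h1.1 h2.1).elim
    · exact pent_same G hP _ (u 0) h0 hT P.rot hr1 hRj hRi h2.2.1 h2.2.2 h1.2.1 h1.2.2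
    · exact (hdiff _ _ (by decide) h1.1 h2.1).elim
    · exact (hdiff _ _ (by decide) h1.1 h2.1).elim
    · exact (hdiff _ _ (by decide) h1.1 h2.1).elim
    · exact (hdiff _ _ (by decide) h1.1 h2.1).elim
    · exact (hdiff _ _ (by decide) h1.1 h2.1).elim
    · exact pent_same G hP _ (u 0) h0 hT P.rot.rot hr2 hRj hRi h2.2.1 h2.2.2 h1.2.1 h1.2.2
    · exact (hdiff _ _ (by decide) h1.1 h2.1).elim
    · exact (hdiff _ _ (by decide) h1.1 h2.1).elim
    · exact (hdiff _ _ (by decide) h1.1 h2.1).elim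
    · exact (hdiff _ _ (by decide) h1.1 h2.1).elim
    · exact (hdiff _ _ (by decide) h1.1 h2.1).elim
    · exact pent_same G hP _ (u 0) h0 hT P.rot.rot.rot hr3 hRj hRi h2.2.1 h2.2.2 h1.2.1 h1.2.2
    · exact (hdiff _ _ (by decide) h1.1 h2.1).elim
    · exact (hdiff _ _ (by decide) h1.1 h2.1).elim
    · exact (hdiff _ _ (by decide) h1.1 h2.1).elim
    · exact (hdiff _ _ (by decide) h1.1 h2.1).elim
    · exact (hdiff _ _ (by decide) h1.1 h2.1).elim
    · exact pent_same G hP _ (u 0) h0 hT P.rot.rot.rot.rot hr4 hRj hRi h2.2.1 h2.2.2 h1.2.1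
        h1.2.2)
  omega

/-- A long chain in one component has a long subchain with strictly increasing neighbourhoods
inside `BB`. -/
theorem exists_inc (u : ℕ → V) (m M : ℕ) (D : DC G I z1 z2 u m)
    (hm : 2 * 2 ^ (((1 * K + 1) * (K + 2) + 1) + M) + 1 ≤ m)
    (hR : ∀ i j, i < m → j < m → Reach G (BB G I z1 z2) (u i) (u j))
    (hT : NoTri G (BB G I z1 z2) (u 0)) (hC : NoPent G (BB G I z1 z2) (u 0)) :
    ∃ f : ℕ → ℕ, (∀ i j, i < j → j < M → f i < f j) ∧ (∀ i, i < M → f i < m) ∧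
      ∀ i j, i < j → j < M → NN G (BB G I z1 z2) (u (f i)) (u (f j)) ∧
        ∃ q, BB G I z1 z2 q ∧ G.Adj q (u (f j)) ∧ ¬ G.Adj q (u (f i)) := by
  have h0 : BB G I z1 z2 (u 0) := D.inB 0 (by omega)
  have hne : ∀ i j, i < m → j < m → i ≠ j → u i ≠ u j := by
    intro i j hi hj hij h
    rcases Nat.lt_or_gt_of_ne hij with hlt | hlt
    · obtain ⟨x, h1, h2⟩ := D.strict i j hlt hj
      exact h2 (h ▸ h1)
    · obtain ⟨x, h1, h2⟩ := D.strict j i hlt hi
      exact h2 (h ▸ h1)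
  -- a large subset with pairwise nested neighbourhoods
  obtain ⟨S, hS, hSc, hSn⟩ : ∃ S : Finset ℕ, S ⊆ Finset.range m ∧
      2 ^ (((1 * K + 1) * (K + 2) + 1) + M) ≤ S.card ∧ ∀ i ∈ S, ∀ j ∈ S, i ≠ j →
        NN G (BB G I z1 z2) (u i) (u j) ∨ NN G (BB G I z1 z2) (u j) (u i) := by
    let S0 := (Finset.range m).erase 0
    have hS0 : S0.card = m - 1 := by
      simp only [S0]
      rw [Finset.card_erase_of_mem (Finset.mem_range.2 (by omega)), Finset.card_range]
    let S1 := S0.filter (fun i => Inter G (BB G I z1 z2) (u 0) (u i))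
    let S2 := S0.filter (fun i => ¬ Inter G (BB G I z1 z2) (u 0) (u i))
    have hsum : S1.card + S2.card = m - 1 := by
      rw [← hS0]
      exact Finset.card_filter_add_card_filter_not _
    have hmem : ∀ i ∈ S0, 0 < i ∧ i < m := by
      intro i hi
      have := Finset.mem_erase.1 hi
      exact ⟨Nat.pos_of_ne_zero this.1, Finset.mem_range.1 this.2⟩
    by_cases hc : 2 ^ (((1 * K + 1) * (K + 2) + 1) + M) ≤ S1.card
    · refine ⟨S1, ?_, hc, ?_⟩
      · intro i hi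
        exact Finset.mem_range.2 (hmem i (Finset.mem_filter.1 hi).1).2
      · intro i hi j hj hij
        obtain ⟨hi1, hi2⟩ := Finset.mem_filter.1 hi
        obtain ⟨hj1, hj2⟩ := Finset.mem_filter.1 hj
        have hi3 := hmem i hi1
        have hj3 := hmem j hj1
        exact nest_via G hP _ (u 0) h0 hT hC (o := u 0) (hR 0 0 (by omega) (by omega))
          (hR 0 i (by omega) hi3.2) (hR 0 j (by omega) hj3.2) (D.nadj 0 i (by omega) hi3.2)
          (D.nadj 0 j (by omega) hj3.2) (D.nadj i j hi3.2 hj3.2) hi2 hj2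
    · refine ⟨S2, ?_, by omega, ?_⟩
      · intro i hi
        exact Finset.mem_range.2 (hmem i (Finset.mem_filter.1 hi).1).2
      · intro i hi j hj hij
        obtain ⟨hi1, hi2⟩ := Finset.mem_filter.1 hi
        obtain ⟨hj1, hj2⟩ := Finset.mem_filter.1 hj
        have hi3 := hmem i hi1
        have hj3 := hmem j hj1
        apply nestB G hP _ (u 0) h0 hT hC (hR 0 i (by omega) hi3.2) (hR 0 j (by omega) hj3.2)
          (D.nadj i j hi3.2 hj3.2)
        by_contra hcon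
        exact three_disj G hP _ (u 0) h0 hT (hR 0 0 (by omega) (by omega))
          (hR 0 i (by omega) hi3.2) (hR 0 j (by omega) hj3.2) (D.nadj 0 i (by omega) hi3.2)
          (D.nadj 0 j (by omega) hj3.2) (D.nadj i j hi3.2 hj3.2)
          (hne 0 i (by omega) hi3.2 (by omega)) (hne 0 j (by omega) hj3.2 (by omega))
          hi2 hj2 hcon
  obtain ⟨g, hg1, hg2⟩ := enum S
  have hg3 : ∀ i, i < S.card → g i < m := fun i hi => Finset.mem_range.1 (hS (hg2 i hi))
  rcases ramsey_seq (fun i j => NN G (BB G I z1 z2) (u (g j)) (u (g i)))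
    ((1 * K + 1) * (K + 2) + 1) M S.card hSc with ⟨f, hf1, hf2, hf3⟩ | ⟨f, hf1, hf2, hf3⟩
  · exfalso
    have D' := D.comp (fun i => g (f i)) ((1 * K + 1) * (K + 2) + 1)
      (fun i j hij hj => hg1 _ _ (hf1 i j hij hj) (hf2 j hj)) (fun i hi => hg3 _ (hf2 i hi))
    have := dc_bound G hP I hI z1 z2 hz1 hz2 K hnot hcrit hcol _ _ D' (by
      intro i j hij hj
      exact hf3 i j hij hj)
    omega
  · refine ⟨fun i => g (f i), fun i j hij hj => hg1 _ _ (hf1 i j hij hj) (hf2 j hj),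
      fun i hi => hg3 _ (hf2 i hi), ?_⟩
    intro i j hij hj
    have h1 := hf3 i j hij hj
    have hlt := hf1 i j hij hj
    have h2 := hSn _ (hg2 _ (hf2 i (hij.trans hj))) _ (hg2 _ (hf2 j hj)) (by
      have := hg1 _ _ hlt (hf2 j hj)
      omega)
    refine ⟨h2.resolve_right h1, ?_⟩
    simp only [NN] at h1
    push Not at h1
    obtain ⟨q, hq1, hq2, hq3⟩ := h1
    exact ⟨q, hq1, hq2, hq3⟩

end

end Pool.Agent.W175.Crit
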