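import Pool.Agent.W175.Crit.Nest

set_option autoImplicit false

namespace Pool.Agent.W175.Crit

open Finset Classical
open Pool.Agent.H265R2.CritP4 (nb mem_nb nb_subset ramsey)
open Pool.Agent.H265R2.P5 (NoP5 cross5 Reach ordered_color not_mixed_twice reach_three)

universe v

variable {V : Type v}

/-- The three-part ladder: the chain `u`, the vertices `y` with a common trace on `I` which
contains all the traces of the chain. -/
structure L3 (G : SimpleGraph V) (I : Finset V) (z1 z2 : V) (u y : ℕ → V) (m : ℕ) : Prop where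
  dc : DC G I z1 z2 u m
  yB : ∀ i, i < m → BB G I z1 z2 (y i)
  yy : ∀ i j, i < m → j < m → ¬ G.Adj (y i) (y j)
  uy1 : ∀ i j, i < m → j < m → j ≤ i → G.Adj (u i) (y j)
  uy0 : ∀ i j, i < m → j < m → i < j → ¬ G.Adj (u i) (y j)
  cy : ∀ i j, i < m → j < m → nb G I (y i) ⊆ nb G I (y j)
  uc : ∀ i j, i < m → j < m → nb G I (u i) ⊆ nb G I (y j)
  ex : ∀ i j, i < m → j < m → ∃ x ∈ nb G I (y j), x ∉ nb G I (u i)
  ydec : ∀ i j, i < j → j < m → NN G (BB G I z1 z2) (y j) (y i)

section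

variable (G : SimpleGraph V) (hP : NoP5 G) (I : Finset V)
  (hI : ∀ x ∈ I, ∀ y ∈ I, ¬ G.Adj x y) (z1 z2 : V) (hz1 : z1 ∈ I) (hz2 : z2 ∈ I)

variable [Fintype V] (K : ℕ) (hnot : ¬ G.Colorable K)
  (hcrit : ∀ v, (G.induce {v}ᶜ).Colorable K) (hcol : G.Colorable (K + 1))

include hP hI hz1 hz2 hnot hcrit hcol

theorem exists_y (p : V) (hp : BB G I z1 z2 p) (u : ℕ → V) (m M : ℕ) (D : DC G I z1 z2 u m)
    (hR : ∀ i, i < m → Reach G (BB G I z1 z2) p (u i))
    (hT : NoTri G (BB G I z1 z2) p) (hC : NoPent G (BB G I z1 z2) p)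
    (hinc : ∀ i j, i < j → j < m → NN G (BB G I z1 z2) (u i) (u j) ∧
        ∃ q, BB G I z1 z2 q ∧ G.Adj q (u j) ∧ ¬ G.Adj q (u i))
    (hm : 2 ^ (2 ^ ((M + 2) + ((1 * K + 1) * (K + 2) + 1)) + 4) + 1 ≤ m) :
    ∃ v y : ℕ → V, L3 G I z1 z2 v y M := by
  obtain ⟨B0, hB0⟩ : ∃ B0, B0 = (1 * K + 1) * (K + 2) + 1 := ⟨_, rfl⟩
  -- the vertices `y`
  have hy : ∀ j, ∃ y, j + 1 < m → BB G I z1 z2 y ∧ G.Adj y (u (j + 1)) ∧ ¬ G.Adj y (u j) := by
    intro j
    by_cases hj : j + 1 < m
    · obtain ⟨q, hq⟩ := (hinc j (j + 1) (by omega) hj).2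
      exact ⟨q, fun _ => hq⟩
    · exact ⟨p, fun h => absurd h hj⟩
  choose Y hY using hy
  let U : ℕ → V := fun i => u (i + 1)
  have hUT : ∀ i, i + 1 < m → Reach G (BB G I z1 z2) p (U i) := fun i hi => hR (i + 1) hi
  have hUB : ∀ i, i + 1 < m → BB G I z1 z2 (U i) := fun i hi => D.inB (i + 1) hi
  have hUU : ∀ i j, i + 1 < m → j + 1 < m → ¬ G.Adj (U i) (U j) := fun i j hi hj =>
    D.nadj _ _ hi hj
  have hUY1 : ∀ i j, i + 1 < m → j + 1 < m → j ≤ i → G.Adj (U i) (Y j) := by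
    intro i j hi hj hji
    obtain ⟨h1, h2, _⟩ := hY j hj
    rcases Nat.eq_or_lt_of_le hji with h | h
    · subst h
      exact h2.symm
    · exact ((hinc (j + 1) (i + 1) (by omega) hi).1 _ h1 h2).symm
  have hUY0 : ∀ i j, i + 1 < m → j + 1 < m → i < j → ¬ G.Adj (U i) (Y j) := by
    intro i j hi hj hij h
    obtain ⟨h1, _, h3⟩ := hY j hj
    apply h3
    rcases Nat.eq_or_lt_of_le (Nat.succ_le_of_lt hij) with h' | h'
    · have : i + 1 = j := h'
      subst this
      exact h.symm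
    · exact (hinc (i + 1) j h' (by omega)).1 _ h1 h.symm
  have hYY : ∀ i j, i + 1 < m → j + 1 < m → ¬ G.Adj (Y i) (Y j) := by
    intro i j hi hj h
    have hi' := hUY1 (m - 2) i (by omega) hi (by omega)
    have hj' := hUY1 (m - 2) j (by omega) hj (by omega)
    exact hT (U (m - 2)) (Y i) (Y j) (hUT _ (by omega)) (hY i hi).1 (hY j hj).1 hi' h hj'
  have hYdec : ∀ i j, i < j → j + 1 < m → NN G (BB G I z1 z2) (Y j) (Y i) := by
    intro i j hij hj q hq hqj
    by_contra hqi
    have hi : i + 1 < m := by omega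
    have hUjYj := hUY1 j j hj hj le_rfl
    have hUjYi := hUY1 j i hj hi hij.le
    have hUiYi := hUY1 i i hi hi le_rfl
    have hUiYj := hUY0 i j hi hj hij
    have hqU : ¬ G.Adj q (U j) := fun h =>
      hT (U j) (Y j) q (hUT j hj) (hY j hj).1 hq hUjYj hqj.symm h.symm
    by_cases hqUi : G.Adj q (U i)
    · exact hC (U j) (Y i) (U i) q (Y j) (hUT j hj) ⟨hUB j hj, (hY i hi).1, hUB i hi, hq,
        (hY j hj).1, hUjYi, hUiYi.symm, hqUi.symm, hqj, hUjYj.symm, hUU j i hj hi,
        fun h => hqi h.symm, hUiYj, hqU, hYY j i hj hi⟩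
    · exact hP q (Y j) (U j) (Y i) (U i) hqj hUjYj.symm hUjYi hUiYi.symm hqU hqi hqUi
        (hYY j i hj hi) (fun h => hUiYj h.symm) (hUU j i hj hi)
  have hYnest : ∀ i j, i + 1 < m → j + 1 < m →
      nb G I (Y i) ⊆ nb G I (Y j) ∨ nb G I (Y j) ⊆ nb G I (Y i) := fun i j hi hj =>
    nested G hP I hI z1 z2 hz1 (Y i) (Y j) (hY i hi).1 (hY j hj).1 (hYY i j hi hj)
  rcases ramsey_seq (fun i j => nb G I (Y j) ⊆ nb G I (Y i)) (2 ^ ((M + 2) + B0)) 4 (m - 1)
    (by rw [hB0]; omega) with ⟨f, hf1, hf2, hf3⟩ | ⟨f, hf1, hf2, hf3⟩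
  · -- decreasing
    rcases ramsey_seq (fun i j => nb G I (Y (f i)) ⊆ nb G I (Y (f j))) (M + 2) B0
      (2 ^ ((M + 2) + B0)) le_rfl with ⟨g, hg1, hg2, hg3⟩ | ⟨g, hg1, hg2, hg3⟩
    · -- constant
      obtain ⟨h, hh⟩ : ∃ h : ℕ → ℕ, h = fun i => f (g i) := ⟨_, rfl⟩
      have hhi : ∀ i, h i = f (g i) := fun i => by rw [hh]
      have h1 : ∀ i j, i < j → j < M + 2 → h i < h j := by
        intro i j hij hj
        rw [hhi, hhi]
        exact hf1 _ _ (hg1 i j hij hj) (hg2 j hj)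
      have h2 : ∀ i, i < M + 2 → h i + 1 < m := by
        intro i hi
        have := hf2 _ (hg2 i hi)
        rw [hhi]
        omega
      have hcst : ∀ i j, i < M + 2 → j < M + 2 → nb G I (Y (h i)) ⊆ nb G I (Y (h j)) := by
        intro i j hi hj
        rcases Nat.lt_trichotomy i j with hij | hij | hij
        · rw [hhi, hhi]
          exact hg3 i j hij hj
        · subst hij
          exact subset_rfl
        · rw [hhi, hhi]
          exact hf3 _ _ (hg1 j i hij hi) (hg2 i hi)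
      -- an element of the common trace outside the traces of the chain
      have hx0 : ∀ j, 1 ≤ j → j < M + 2 → ∃ x, x ∈ nb G I (Y (h 0)) ∧ x ∉ nb G I (U (h j)) := by
        intro j hj hj2
        have hlt := h1 0 j hj hj2
        have hj3 := h2 j hj2
        have h03 := h2 0 (by omega)
        obtain ⟨x, hx1, hx2⟩ := D.strict (h 0 + 1) (h j + 1) (by omega) hj3
        refine ⟨x, ?_, hx2⟩
        have hxI := (mem_nb.1 hx1).1
        have e1 := hUY1 (h 0) (h 0) h03 h03 le_rfl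
        have e2 := hUY1 (h j) (h 0) hj3 h03 hlt.le
        have e3 := hUY1 (h j) (h j) hj3 hj3 le_rfl
        have e4 := hUY0 (h 0) (h j) h03 hj3 hlt
        by_contra hx
        have hx3 : x ∉ nb G I (Y (h j)) := fun h' => hx (hcst j 0 hj2 (by omega) h')
        exact hP x (U (h 0)) (Y (h 0)) (U (h j)) (Y (h j)) (mem_nb.1 hx1).2.symm e1 e2.symm e3
          (fun h' => hx (mem_nb.2 ⟨hxI, h'.symm⟩)) (fun h' => hx2 (mem_nb.2 ⟨hxI, h'.symm⟩))
          (fun h' => hx3 (mem_nb.2 ⟨hxI, h'.symm⟩)) (hUU _ _ h03 hj3) e4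
          (hYY _ _ h03 hj3)
      have hUc : ∀ j, 1 ≤ j → j + 1 < M + 2 → nb G I (U (h j)) ⊆ nb G I (Y (h 0)) := by
        intro j hj hj2
        have hj3 := h2 j (by omega)
        have hj4 := h2 (j + 1) hj2
        obtain ⟨x, hx1, hx2⟩ := hx0 j hj (by omega)
        rcases nested G hP I hI z1 z2 hz1 (U (h j)) (Y (h (j + 1))) (hUB _ hj3) (hY _ hj4).1
          (hUY0 _ _ hj3 hj4 (h1 j (j + 1) (by omega) hj2)) with h' | h'
        · exact h'.trans (hcst _ _ hj2 (by omega))
        · exact absurd (h' (hcst 0 (j + 1) (by omega) hj2 hx1)) hx2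
      refine ⟨fun i => U (h (i + 1)), fun i => Y (h (i + 1)), ?_⟩
      exact
        { dc := D.comp (fun i => h (i + 1) + 1) M
            (fun i j hij hj => by
              have := h1 (i + 1) (j + 1) (by omega) (by omega)
              show h (i + 1) + 1 < h (j + 1) + 1
              omega)
            (fun i hi => h2 (i + 1) (by omega))
          yB := fun i hi => (hY _ (h2 (i + 1) (by omega))).1
          yy := fun i j hi hj => hYY _ _ (h2 (i + 1) (by omega)) (h2 (j + 1) (by omega))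
          uy1 := fun i j hi hj hij => by
            apply hUY1 _ _ (h2 (i + 1) (by omega)) (h2 (j + 1) (by omega))
            rcases Nat.eq_or_lt_of_le hij with h' | h'
            · rw [h']
            · exact (h1 (j + 1) (i + 1) (by omega) (by omega)).le
          uy0 := fun i j hi hj hij => hUY0 _ _ (h2 (i + 1) (by omega)) (h2 (j + 1) (by omega))
            (h1 (i + 1) (j + 1) (by omega) (by omega))
          cy := fun i j hi hj => hcst _ _ (by omega) (by omega)
          uc := fun i j hi hj => (hUc (i + 1) (by omega) (by omega)).trans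
            (hcst 0 (j + 1) (by omega) (by omega))
          ex := fun i j hi hj => by
            obtain ⟨x, hx1, hx2⟩ := hx0 (i + 1) (by omega) (by omega)
            exact ⟨x, hcst 0 (j + 1) (by omega) (by omega) hx1, hx2⟩
          ydec := fun i j hij hj => hYdec _ _ (h1 (i + 1) (j + 1) (by omega) (by omega))
            (h2 (j + 1) (by omega)) }
    · -- strictly decreasing: impossible
      exfalso
      have D' : DC G I z1 z2 (fun i => Y (f (g i))) B0 := by
        have hb : ∀ i, i < B0 → f (g i) + 1 < m := by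
          intro i hi
          have := hf2 _ (hg2 i hi)
          omega
        exact
          { inB := fun i hi => (hY _ (hb i hi)).1
            nadj := fun i j hi hj => hYY _ _ (hb i hi) (hb j hj)
            sub := fun i j hij hj => hf3 _ _ (hg1 i j hij hj) (hg2 j hj)
            strict := fun i j hij hj => by
              have := hg3 i j hij hj
              rw [Finset.not_subset] at this
              exact this }
      have := dc_bound G hP I hI z1 z2 hz1 hz2 K hnot hcrit hcol _ _ D' (by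
        intro i j hij hj
        apply hYdec _ _ (hf1 _ _ (hg1 i j hij hj) (hg2 j hj))
        have := hf2 _ (hg2 j hj)
        omega)
      omega
  · -- strictly increasing: impossible
    exfalso
    have h2 : ∀ i, i < 4 → f i + 1 < m := by
      intro i hi
      have := hf2 i hi
      omega
    have hinc' : ∀ i j, i < j → j < 4 → nb G I (Y (f i)) ⊆ nb G I (Y (f j)) := fun i j hij hj =>
      (hYnest _ _ (h2 i (by omega)) (h2 j hj)).resolve_right (hf3 i j hij hj)
    have b0 := h2 0 (by omega)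
    have b1 := h2 1 (by omega)
    have b2 := h2 2 (by omega)
    have b3 := h2 3 (by omega)
    have l01 := hf1 0 1 (by omega) (by omega)
    have l12 := hf1 1 2 (by omega) (by omega)
    have l23 := hf1 2 3 (by omega) (by omega)
    -- an element of the trace of `U (f 0)` outside that of `U (f 1)`
    obtain ⟨x, hx1, hx2⟩ := D.strict (f 0 + 1) (f 1 + 1) (by omega) b1
    have hxI := (mem_nb.1 hx1).1
    have hx3 : x ∉ nb G I (U (f 2)) := fun h => hx2 (D.sub (f 1 + 1) (f 2 + 1) (by omega) b2 h)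
    have hxY : x ∈ nb G I (Y (f 2)) := by
      by_contra hx
      have hx0 : x ∉ nb G I (Y (f 0)) := fun h => hx (hinc' 0 2 (by omega) (by omega) h)
      exact hP x (U (f 0)) (Y (f 0)) (U (f 2)) (Y (f 2)) (mem_nb.1 hx1).2.symm
        (hUY1 _ _ b0 b0 le_rfl) (hUY1 _ _ b2 b0 (by omega)).symm (hUY1 _ _ b2 b2 le_rfl)
        (fun h' => hx0 (mem_nb.2 ⟨hxI, h'.symm⟩)) (fun h' => hx3 (mem_nb.2 ⟨hxI, h'.symm⟩))
        (fun h' => hx (mem_nb.2 ⟨hxI, h'.symm⟩)) (hUU _ _ b0 b2)
        (hUY0 _ _ b0 b2 (by omega)) (hYY _ _ b0 b2)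
    have hU1 : nb G I (U (f 1)) ⊆ nb G I (Y (f 2)) := by
      rcases nested G hP I hI z1 z2 hz1 (U (f 1)) (Y (f 2)) (hUB _ b1) (hY _ b2).1
        (hUY0 _ _ b1 b2 l12) with h' | h'
      · exact h'
      · exact absurd (h' hxY) hx2
    have h3 := hf3 2 3 (by omega) (by omega)
    rw [Finset.not_subset] at h3
    obtain ⟨w, hw1, hw2⟩ := h3
    have hwI := (mem_nb.1 hw1).1
    have hw3 : w ∉ nb G I (U (f 1)) := fun h => hw2 (hU1 h)
    have hw4 : w ∉ nb G I (U (f 2)) := fun h => hw3 (D.sub (f 1 + 1) (f 2 + 1) (by omega) b2 h)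
    have hw5 : w ∉ nb G I (U (f 3)) := fun h => hw4 (D.sub (f 2 + 1) (f 3 + 1) (by omega) b3 h)
    exact hP w (Y (f 3)) (U (f 3)) (Y (f 2)) (U (f 2)) (mem_nb.1 hw1).2.symm
      (hUY1 _ _ b3 b3 le_rfl).symm (hUY1 _ _ b3 b2 (by omega)) (hUY1 _ _ b2 b2 le_rfl).symm
      (fun h' => hw5 (mem_nb.2 ⟨hwI, h'.symm⟩)) (fun h' => hw2 (mem_nb.2 ⟨hwI, h'.symm⟩))
      (fun h' => hw4 (mem_nb.2 ⟨hwI, h'.symm⟩)) (hYY _ _ b3 b2)
      (fun h' => hUY0 _ _ b2 b3 l23 h'.symm) (hUU _ _ b3 b2)

end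

end Pool.Agent.W175.Crit
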