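import Pool.Agent.W175.Crit.YStep

set_option autoImplicit false

namespace Pool.Agent.W175.Crit

open Finset Classical
open Pool.Agent.H265R2.CritP4 (nb mem_nb nb_subset ramsey)
open Pool.Agent.H265R2.P5 (NoP5 cross5 Reach ordered_color not_mixed_twice reach_three)

universe v

variable {V : Type v}

/-- The configuration excluded on the edge `u c`, `y d`. -/
theorem lemHB {G : SimpleGraph V} (hH : NoK5e G ∨ NoHp G) {z uc yd q x x' : V}
    (hu : G.Adj uc yd) (hqu : G.Adj q uc) (hqy : G.Adj q yd) (hzu : G.Adj z uc) (hzy : G.Adj z yd)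
    (hzq : ¬ G.Adj z q) (hzx : ¬ G.Adj z x) (hne : x ≠ x') (hxx : ¬ G.Adj x x')
    (hxu : G.Adj x uc) (hxy : G.Adj x yd) (hxq : G.Adj x q) (hxu' : G.Adj x' uc)
    (hxy' : G.Adj x' yd) (hxq' : G.Adj x' q) : False := by
  rcases hH with h | h
  · exact h x x' q uc yd hne hxx hxq hxu hxy hxq' hxu' hxy' hqu hqy hu
  · exact h z uc yd q x hzu hzy hzq hzx hu hqu.symm hxu.symm hqy.symm hxy.symm hxq.symm

section

variable (G : SimpleGraph V) (hP : NoP5 G) (hH : NoK5e G ∨ NoHp G) (I : Finset V)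
  (hI : ∀ x ∈ I, ∀ y ∈ I, ¬ G.Adj x y) (z1 z2 : V) (hz1 : z1 ∈ I) (hz2 : z2 ∈ I)

include hP hH hI in
/-- Properties of a vertex `q` outside `BB` which sees `y J` and misses four earlier `y`. -/
theorem q_props (u y : ℕ → V) (m : ℕ) (L : L3 G I z1 z2 u y m) (q z : V) (hz : z ∈ I)
    (hzB : ∀ b, BB G I z1 z2 b → G.Adj b z) (hqz : ¬ G.Adj q z) (hqI : q ∉ I)
    (b1 b2 b3 b4 J : ℕ) (l12 : b1 < b2) (l23 : b2 < b3) (l34 : b3 < b4) (l4J : b4 < J)
    (hJ : J + 5 ≤ m) (hqJ : G.Adj q (y J)) (h1 : ¬ G.Adj q (y b1))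
    (h2 : ¬ G.Adj q (y b2)) (h3 : ¬ G.Adj q (y b3)) (h4 : ¬ G.Adj q (y b4)) :
    (∀ l, l < m → G.Adj q (u l)) ∧ (∀ l, l ≤ b1 → ¬ G.Adj q (y l)) ∧
    (∀ l, J + 3 ≤ l → l < m → G.Adj q (y l)) ∧
    (∀ x ∈ nb G I (y 0), x ∉ nb G I (u b3) → G.Adj q x) ∧
    (∀ l x, J + 4 ≤ l → l < m → x ∈ nb G I (u l) → ¬ G.Adj q x) := by
  have D := L.dc
  have huz : ∀ l, l < m → G.Adj (u l) z := fun l hl => hzB _ (D.inB l hl)
  have hyz : ∀ l, l < m → G.Adj (y l) z := fun l hl => hzB _ (L.yB l hl)
  -- (q1)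
  have q1 : ∀ l l', J ≤ l → l < m → b1 ≤ l' → l' < J → G.Adj q (u l) ∨ G.Adj q (u l') := by
    intro l l' hl hlm hl' hl'J
    by_contra hcon
    push Not at hcon
    exact hP q (y J) (u l) (y b1) (u l') hqJ (L.uy1 l J hlm (by omega) hl).symm
      (L.uy1 l b1 hlm (by omega) (by omega)) (L.uy1 l' b1 (by omega) (by omega) hl').symm
      hcon.1 h1 hcon.2 (L.yy J b1 (by omega) (by omega))
      (fun h => L.uy0 l' J (by omega) (by omega) hl'J h.symm) (D.nadj l l' hlm (by omega))
  -- (q2)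
  have q2 : ∀ a b l, a < b → b < l → l < m → G.Adj q (u l) → ¬ G.Adj q (u a) →
      ¬ G.Adj q (u b) → False := by
    intro a b l hab hbl hl hql hqa hqb
    obtain ⟨x, hx1, hx2⟩ := D.strict a b hab (by omega)
    obtain ⟨x', hx1', hx2'⟩ := D.strict b l hbl hl
    have hxI := (mem_nb.1 hx1).1
    have hxI' := (mem_nb.1 hx1').1
    exact lemA hP (q := q) (t := u l) (z := z) (v := u a) (v' := u b) (x := x) (x' := x') hql
      (huz l hl) (huz a (by omega)) (huz b (by omega)) hqz hqa hqb (D.nadj l a hl (by omega))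
      (D.nadj l b hl (by omega)) (mem_nb.1 hx1).2 (mem_nb.1 hx1').2
      (fun h => hx2 (D.sub b l hbl hl (mem_nb.2 ⟨hxI, h⟩)))
      (fun h => hx2' (mem_nb.2 ⟨hxI', h⟩)) (fun h => hx2 (mem_nb.2 ⟨hxI, h⟩))
      (hI z hz x hxI) (hI z hz x' hxI') (hI x hxI x' hxI')
  -- (q3)
  have q3 : ∀ l i, l < i → i < m → ¬ G.Adj q (y i) → G.Adj q (u l) → ∀ x ∈ nb G I (y i),
      x ∉ nb G I (u l) → G.Adj q x := by
    intro l i hli hi hqi hql x hx hxl
    by_contra hqx
    have hxI := (mem_nb.1 hx).1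
    exact hP q (u l) z (y i) x hql (huz l (by omega)) (hyz i hi).symm (mem_nb.1 hx).2 hqz hqi hqx
      (L.uy0 l i (by omega) hi hli) (fun h => hxl (mem_nb.2 ⟨hxI, h⟩)) (hI z hz x hxI)
  -- (q5)
  have q5 : ∀ l i, l < i → i < m → ¬ G.Adj q (y i) → G.Adj q (u l) → ∀ l', l < l' → l' < m →
      G.Adj q (u l') := by
    intro l i hli hi hqi hql l' hll hl'
    by_contra hcon
    obtain ⟨x, hx1, hx2⟩ := L.ex l i (by omega) hi
    have hxI := (mem_nb.1 hx1).1
    have hqx := q3 l i hli hi hqi hql x hx1 hx2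
    have hx3 : x ∉ nb G I (u l') := fun h => hx2 (D.sub l l' hll hl' h)
    exact hP x q (u l) z (u l') hqx.symm hql (huz l (by omega)) (huz l' hl').symm
      (fun h => hx2 (mem_nb.2 ⟨hxI, h.symm⟩)) (hI x hxI z hz)
      (fun h => hx3 (mem_nb.2 ⟨hxI, h.symm⟩)) hqz hcon (D.nadj l l' (by omega) hl')
  -- (q6)
  have q6 : ∀ l i, l < i → i < m → ¬ G.Adj q (y i) → G.Adj q (u l) → ∀ a, a < l →
      G.Adj q (u a) := by
    intro l i hli hi hqi hql a hal
    by_contra hcon
    obtain ⟨x, hx1, hx2⟩ := D.strict a l hal (by omega)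
    have hxI := (mem_nb.1 hx1).1
    have hqx : G.Adj q x := by
      by_contra h
      exact hP q (u l) z (u a) x hql (huz l (by omega)) (huz a (by omega)).symm (mem_nb.1 hx1).2
        hqz hcon h (D.nadj l a (by omega) (by omega)) (fun h => hx2 (mem_nb.2 ⟨hxI, h⟩))
        (hI z hz x hxI)
    obtain ⟨x2, hx3, hx4⟩ := L.ex a i (by omega) hi
    have hxI2 := (mem_nb.1 hx3).1
    have hx5 : x2 ∉ nb G I (u l) := fun h => hx4 (D.sub a l hal (by omega) h)
    have hqx2 := q3 l i hli hi hqi hql x2 hx3 hx5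
    exact hP x2 q x (u a) z hqx2.symm hqx (mem_nb.1 hx1).2.symm (huz a (by omega))
      (hI x2 hxI2 x hxI) (fun h => hx4 (mem_nb.2 ⟨hxI2, h.symm⟩)) (hI x2 hxI2 z hz) hcon hqz
      (hI x hxI z hz)
  -- one of the two `u b1`, `u b2` is adjacent
  have hone : ∃ l, l < b3 ∧ G.Adj q (u l) := by
    by_cases hJu : G.Adj q (u J)
    · by_contra hcon
      push Not at hcon
      exact q2 b1 b2 J l12 (by omega) (by omega) hJu (hcon b1 (by omega)) (hcon b2 l23)
    · rcases q1 J b1 le_rfl (by omega) le_rfl (by omega) with h | h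
      · exact absurd h hJu
      · exact ⟨b1, by omega, h⟩
  obtain ⟨l0, hl0, hql0⟩ := hone
  have hU : ∀ l, l < m → G.Adj q (u l) := by
    intro l hl
    rcases Nat.lt_trichotomy l l0 with h | h | h
    · exact q6 l0 b3 hl0 (by omega) h3 hql0 l h
    · rw [h]; exact hql0
    · exact q5 l0 b3 hl0 (by omega) h3 hql0 l h hl
  have hIadj : ∀ a b, a ∈ I → b ∈ I → ¬ G.Adj a b := fun a b ha hb => hI a ha b hb
  have hR : ∀ l, J + 3 ≤ l → l < m → G.Adj q (y l) := by
    intro l hJl hl
    by_contra hcon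
    obtain ⟨x, hx1, hx2⟩ := D.strict J (J + 1) (by omega) (by omega)
    obtain ⟨x', hx1', hx2'⟩ := D.strict (J + 1) (J + 2) (by omega) (by omega)
    have hxI := (mem_nb.1 hx1).1
    have hxI' := (mem_nb.1 hx1').1
    have hx3 : x ∉ nb G I (u (J + 2)) := fun h =>
      hx2 (D.sub (J + 1) (J + 2) (by omega) (by omega) h)
    have hq1 := q3 (J + 2) l (by omega) hl hcon (hU _ (by omega)) x
      (L.uc J l (by omega) hl hx1) hx3
    have hq2 := q3 (J + 2) l (by omega) hl hcon (hU _ (by omega)) x'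
      (L.uc (J + 1) l (by omega) hl hx1') hx2'
    have hx1J := D.sub J (J + 1) (by omega) (by omega) hx1'
    exact lemHB hH (z := z) (uc := u J) (yd := y J) (q := q) (x := x) (x' := x')
      (L.uy1 J J (by omega) (by omega) le_rfl) (hU J (by omega)) hqJ (huz J (by omega)).symm
      (hyz J (by omega)).symm (fun h => hqz h.symm) (hI z hz x hxI)
      (fun h => hx2 (h ▸ hx1')) (hI x hxI x' hxI') (mem_nb.1 hx1).2.symm
      (mem_nb.1 (L.uc J J (by omega) (by omega) hx1)).2.symm hq1.symm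
      (mem_nb.1 hx1J).2.symm
      (mem_nb.1 (L.uc J J (by omega) (by omega) hx1J)).2.symm hq2.symm
  refine ⟨hU, ?_, hR, ?_, ?_⟩
  · intro l hl hcon
    obtain ⟨x, hx1, hx2⟩ := D.strict b1 b2 l12 (by omega)
    obtain ⟨x', hx1', hx2'⟩ := D.strict b2 b3 l23 (by omega)
    have hxI := (mem_nb.1 hx1).1
    have hxI' := (mem_nb.1 hx1').1
    have hx3 : x ∉ nb G I (u b3) := fun h => hx2 (D.sub b2 b3 l23 (by omega) h)
    have hq1 := q3 b3 b4 l34 (by omega) h4 (hU _ (by omega)) x
      (L.uc b1 b4 (by omega) (by omega) hx1) hx3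
    have hq2 := q3 b3 b4 l34 (by omega) h4 (hU _ (by omega)) x'
      (L.uc b2 b4 (by omega) (by omega) hx1') hx2'
    have hx1J := D.sub b1 b2 l12 (by omega) hx1'
    exact lemHB hH (z := z) (uc := u b1) (yd := y l) (q := q) (x := x) (x' := x')
      (L.uy1 b1 l (by omega) (by omega) hl) (hU b1 (by omega)) hcon (huz b1 (by omega)).symm
      (hyz l (by omega)).symm (fun h => hqz h.symm) (hI z hz x hxI)
      (fun h => hx2 (h ▸ hx1')) (hI x hxI x' hxI') (mem_nb.1 hx1).2.symm
      (mem_nb.1 (L.uc b1 l (by omega) (by omega) hx1)).2.symm hq1.symm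
      (mem_nb.1 hx1J).2.symm
      (mem_nb.1 (L.uc b1 l (by omega) (by omega) hx1J)).2.symm hq2.symm
  · intro x hx hxb
    exact q3 b3 b4 l34 (by omega) h4 (hU _ (by omega)) x (L.cy 0 b4 (by omega) (by omega) hx) hxb
  · intro l x hl hlm hx hqx
    have hxI := (mem_nb.1 hx).1
    have e1 := hR (J + 3) le_rfl (by omega)
    have e2 := hR (J + 4) (by omega) (by omega)
    have hxy : ∀ i, i < m → G.Adj (y i) x := fun i hi => (mem_nb.1 (L.uc l i hlm hi hx)).2
    rcases hH with h | h
    · refine h (y (J + 3)) (y (J + 4)) q (u l) x ?_ (L.yy _ _ (by omega) (by omega)) e1.symm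
        (L.uy1 l (J + 3) hlm (by omega) (by omega)).symm (hxy _ (by omega)) e2.symm
        (L.uy1 l (J + 4) hlm (by omega) (by omega)).symm (hxy _ (by omega)) (hU l hlm) hqx
        (mem_nb.1 hx).2
      intro he
      have h5 := L.uy1 (J + 3) (J + 3) (by omega) (by omega) le_rfl
      rw [he] at h5
      exact L.uy0 (J + 3) (J + 4) (by omega) (by omega) (by omega) h5
    · exact h z (u l) (y (J + 3)) q x (huz l hlm).symm (hyz _ (by omega)).symm
        (fun h' => hqz h'.symm) (hI z hz x hxI)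
        (L.uy1 l (J + 3) hlm (by omega) (by omega)) (hU l hlm).symm (mem_nb.1 hx).2 e1.symm
        (hxy _ (by omega)) hqx

variable [Fintype V] (K : ℕ) (hnot : ¬ G.Colorable K)
  (hcrit : ∀ v, (G.induce {v}ᶜ).Colorable K) (hcol : G.Colorable (K + 1))

include hP hH hI hz1 hz2 hnot hcrit hcol

theorem exists_q (u y : ℕ → V) (m : ℕ) (L : L3 G I z1 z2 u y m) (a B : ℕ)
    (hB : B = (3 * K + 1) * (K + 2) + 1) (ha : a + B + 5 ≤ m) :
    ∃ q, (∀ l, l < m → G.Adj q (u l)) ∧ (∀ l, l ≤ a → ¬ G.Adj q (y l)) ∧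
    (∀ l, a + B + 3 ≤ l → l < m → G.Adj q (y l)) ∧
    (∀ x ∈ nb G I (y 0), x ∉ nb G I (u (a + 1)) → G.Adj q x) ∧
    (∀ l x, a + B + 4 ≤ l → l < m → x ∈ nb G I (u l) → ¬ G.Adj q x) := by
  have hyne : ∀ i j, i < j → j < m → y i ≠ y j := by
    intro i j hij hj h
    have h5 := L.uy1 i i (by omega) (by omega) le_rfl
    rw [h] at h5
    exact L.uy0 i j (by omega) hj hij h5
  obtain ⟨q, j, hj, hqj, hadj, hcard⟩ : ∃ q j, j < B ∧ q ≠ y (a + j) ∧ G.Adj q (y (a + j)) ∧
      3 < ((Finset.range j).filter (fun i => ¬ G.Adj q (y (a + i)))).card := by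
    by_contra hcon
    push Not at hcon
    have := ordered_color G K hnot hcrit hcol B (fun i => {y (a + i)}) (by
        intro i _
        exact ⟨y (a + i), Finset.mem_singleton_self _⟩) (by
        intro i j hij hj x hx w hw
        rw [Finset.mem_singleton] at hx hw
        subst hx hw
        exact ⟨hyne _ _ (by omega) (by omega), L.yy _ _ (by omega) (by omega)⟩) 3 (by
        rintro q j hj hq ⟨t, ht, hqt⟩
        rw [Finset.mem_singleton] at ht
        subst ht
        have h := hcon q j hj (by simpa using hq) hqt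
        simpa only [Finset.mem_singleton, exists_eq_left] using h)
    omega
  obtain ⟨f, hf1, hf2⟩ := enum ((Finset.range j).filter (fun i => ¬ G.Adj q (y (a + i))))
  have hf3 : ∀ i, i < 4 → f i < j ∧ ¬ G.Adj q (y (a + f i)) := by
    intro i hi
    have := Finset.mem_filter.1 (hf2 i (by omega))
    exact ⟨Finset.mem_range.1 this.1, this.2⟩
  obtain ⟨c0, n0⟩ := hf3 0 (by omega)
  obtain ⟨c1, n1⟩ := hf3 1 (by omega)
  obtain ⟨c2, n2⟩ := hf3 2 (by omega)
  obtain ⟨c3, n3⟩ := hf3 3 (by omega)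
  have l01 := hf1 0 1 (by omega) (by omega)
  have l12 := hf1 1 2 (by omega) (by omega)
  have l23 := hf1 2 3 (by omega) (by omega)
  have hqI : q ∉ I := by
    intro hqI
    apply n0
    have : q ∈ nb G I (y (a + j)) := mem_nb.2 ⟨hqI, hadj.symm⟩
    exact (mem_nb.1 (L.cy (a + j) (a + f 0) (by omega) (by omega) this)).2.symm
  have hqB : ¬ BB G I z1 z2 q := fun hqB =>
    n0 (L.ydec (a + f 0) (a + j) (by omega) (by omega) q hqB hadj)
  obtain ⟨z, hz, hzB, hqz⟩ : ∃ z ∈ I, (∀ b, BB G I z1 z2 b → G.Adj b z) ∧ ¬ G.Adj q z := by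
    by_cases h1 : G.Adj q z1
    · by_cases h2 : G.Adj q z2
      · exact absurd ⟨hqI, h1, h2⟩ hqB
      · exact ⟨z2, hz2, fun b hb => hb.2.2, h2⟩
    · exact ⟨z1, hz1, fun b hb => hb.2.1, h1⟩
  obtain ⟨p1, p2, p3, p4, p5⟩ := q_props G hP hH I hI z1 z2 u y m L q z hz hzB hqz hqI
    (a + f 0) (a + f 1) (a + f 2) (a + f 3) (a + j) (by omega) (by omega) (by omega) (by omega)
    (by omega) hadj n0 n1 n2 n3
  refine ⟨q, p1, fun l hl => p2 l (by omega), fun l hl hlm => p3 l (by omega) hlm, ?_,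
    fun l x hl hlm hx => p5 l x (by omega) hlm hx⟩
  intro x hx hxa
  apply p4 x hx
  intro h
  apply hxa
  exact L.dc.sub (a + 1) (a + f 2) (by omega) (by omega) h

/-- A long three-part ladder yields a long ladder. -/
theorem exists_ladder (u y : ℕ → V) (m : ℕ) (L : L3 G I z1 z2 u y m) (n B : ℕ)
    (hB : B = (3 * K + 1) * (K + 2) + 1) (hm : (n + 1) * (B + 6) + 2 ≤ m) :
    ∃ x' u' y' q' : ℕ → V, Lad G x' u' y' q' n := by
  obtain ⟨P, hPB⟩ : ∃ P, P = B + 6 := ⟨_, rfl⟩
  rw [← hPB] at hm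
  have hPP : ∀ t, (t + 1) * P = t * P + P := fun t => by ring
  have hle : ∀ s t, s ≤ t → s * P ≤ t * P := fun s t h => Nat.mul_le_mul_right P h
  have hmn : n * P + P + 2 ≤ m := by
    have := hPP n
    omega
  -- the vertices `q`
  have hq : ∀ t, ∃ q, t < n → (∀ l, l < m → G.Adj q (u l)) ∧ (∀ l, l ≤ t * P → ¬ G.Adj q (y l)) ∧
    (∀ l, t * P + B + 3 ≤ l → l < m → G.Adj q (y l)) ∧
    (∀ x ∈ nb G I (y 0), x ∉ nb G I (u (t * P + 1)) → G.Adj q x) ∧
    (∀ l x, t * P + B + 4 ≤ l → l < m → x ∈ nb G I (u l) → ¬ G.Adj q x) := by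
    intro t
    by_cases ht : t < n
    · have h1 := hle (t + 1) n ht
      have h2 := hPP t
      obtain ⟨q, hq⟩ := exists_q G hP hH I hI z1 z2 hz1 hz2 K hnot hcrit hcol u y m L (t * P) B
        hB (by omega)
      exact ⟨q, fun _ => hq⟩
    · exact ⟨z1, fun h => absurd h ht⟩
  choose q hq using hq
  -- the vertices `x`
  have hx : ∀ l, ∃ x, l + 1 < m → x ∈ nb G I (u l) ∧ x ∉ nb G I (u (l + 1)) := by
    intro l
    by_cases hl : l + 1 < m
    · obtain ⟨x, h1, h2⟩ := L.dc.strict l (l + 1) (by omega) hl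
      exact ⟨x, fun _ => ⟨h1, h2⟩⟩
    · exact ⟨z1, fun h => absurd h hl⟩
  choose x hx using hx
  have he : ∀ t, t < n → (t + 1) * P + 1 < m := by
    intro t ht
    have h1 := hle (t + 1) n ht
    omega
  have hmono : ∀ s t, s < t → (s + 1) * P < (t + 1) * P := by
    intro s t hst
    have h1 := hle (s + 1) t hst
    have h2 := hPP t
    omega
  have hmono' : ∀ s t, s ≤ t → (s + 1) * P ≤ (t + 1) * P := fun s t hst =>
    hle _ _ (by omega)
  have hxI : ∀ t, t < n → x ((t + 1) * P) ∈ I := fun t ht => (mem_nb.1 (hx _ (he t ht)).1).1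
  refine ⟨fun t => x ((t + 1) * P), fun t => u ((t + 1) * P), fun t => y ((t + 1) * P), q, ?_⟩
  have hxu1 : ∀ i j, i < n → j < n → j ≤ i → G.Adj (x ((i + 1) * P)) (u ((j + 1) * P)) := by
    intro i j hi hj hij
    have h1 := (hx _ (he i hi)).1
    rcases Nat.eq_or_lt_of_le hij with h | h
    · subst h
      exact (mem_nb.1 h1).2.symm
    · have := he i hi
      exact (mem_nb.1 (L.dc.sub _ _ (hmono j i h) (by omega) h1)).2.symm
  have hxu0 : ∀ i l, i < n → (i + 1) * P + 1 ≤ l → l < m → x ((i + 1) * P) ∉ nb G I (u l) := by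
    intro i l hi hl hlm h
    have h1 := (hx _ (he i hi)).2
    rcases Nat.eq_or_lt_of_le hl with h' | h'
    · rw [h'] at h1
      exact h1 h
    · exact h1 (L.dc.sub _ _ h' hlm h)
  exact
    { xx := fun i j hi hj => hI _ (hxI i hi) _ (hxI j hj)
      uu := fun i j hi hj => by
        have h1 := he i hi
        have h2 := he j hj
        exact L.dc.nadj _ _ (by omega) (by omega)
      yy := fun i j hi hj => by
        have h1 := he i hi
        have h2 := he j hj
        exact L.yy _ _ (by omega) (by omega)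
      qq := by
        have key : ∀ i j, i < j → j < n → ¬ G.Adj (q i) (q j) := by
          intro i j hij hj h
          have hi : i < n := by omega
          have k1 := hle (i + 1) n hi
          have k2 := hle (j + 1) n hj
          have k3 := hPP i
          have k4 := hPP j
          have e1 := (hq i hi).2.2.1 (n * P) (by omega) (by omega)
          have e2 := (hq j hj).2.2.1 (n * P) (by omega) (by omega)
          have a1 := (hq i hi).1
          have a2 := (hq j hj).1
          have hlt : n * P + 1 < m := by omega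
          rcases hH with hh | hh
          · refine hh (u (n * P)) (u (n * P + 1)) (q i) (q j) (y (n * P)) ?_
              (L.dc.nadj _ _ (by omega) hlt) (a1 _ (by omega)).symm (a2 _ (by omega)).symm
              (L.uy1 _ _ (by omega) (by omega) le_rfl) (a1 _ hlt).symm (a2 _ hlt).symm
              (L.uy1 _ _ hlt (by omega) (by omega)) h e1 e2
            intro he
            obtain ⟨w, h1, h2⟩ := L.dc.strict (n * P) (n * P + 1) (by omega) hlt
            rw [he] at h1
            exact h2 h1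
          · exact hh (u 0) (q i) (q j) (u (n * P)) (y (n * P)) (a1 0 (by omega)).symm
              (a2 0 (by omega)).symm (L.dc.nadj _ _ (by omega) (by omega))
              (L.uy0 0 (n * P) (by omega) (by omega) (by omega)) h (a1 _ (by omega)) e1
              (a2 _ (by omega)) e2 (L.uy1 _ _ (by omega) (by omega) le_rfl)
        intro i j hi hj h
        rcases Nat.lt_trichotomy i j with h' | h' | h'
        · exact key i j h' hj h
        · subst h'
          exact h.ne rfl
        · exact key j i h' hi h.symm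
      xy := fun i j hi hj => by
        have h1 := he i hi
        have h2 := he j hj
        exact (mem_nb.1 (L.uc _ _ (by omega) (by omega) (hx _ h1).1)).2.symm
      uq := fun i j hi hj => by
        have h1 := he i hi
        exact ((hq j hj).1 _ (by omega)).symm
      xu1 := hxu1
      xu0 := fun i j hi hj hij h => by
        have h1 := he j hj
        have h2 := hmono i j hij
        exact hxu0 i _ hi (by omega) (by omega) (mem_nb.2 ⟨hxI i hi, h.symm⟩)
      uy1 := fun i j hi hj hij => by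
        have h1 := he i hi
        have h2 := he j hj
        exact L.uy1 _ _ (by omega) (by omega) (hmono' j i hij)
      uy0 := fun i j hi hj hij => by
        have h1 := he i hi
        have h2 := he j hj
        exact L.uy0 _ _ (by omega) (by omega) (hmono i j hij)
      yq1 := fun i j hi hj hij => by
        have h1 := he i hi
        have h2 := hmono' j i hij
        have h3 := hPP j
        exact ((hq j hj).2.2.1 _ (by omega) (by omega)).symm
      yq0 := fun i j hi hj hij h => by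
        have h1 := hle (i + 1) j hij
        exact (hq j hj).2.1 _ h1 h.symm
      qx1 := fun i j hi hj hij => by
        have h1 := he j hj
        have h2 := hle (j + 1) i hij
        have h3 := he i hi
        have h4 := hPP i
        exact (hq i hi).2.2.2.1 _ (L.uc _ _ (by omega) (by omega) (hx _ h1).1)
          (hxu0 j _ hj (by omega) (by omega))
      qx0 := fun i j hi hj hij => by
        have h1 := he j hj
        have h2 := hmono' i j hij
        have h3 := hPP i
        exact (hq i hi).2.2.2.2 _ _ (by omega) (by omega) (hx _ h1).1 }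

end

end Pool.Agent.W175.Crit
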